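import Pool.Agent.Lib_helper26.Ebe.Level
import Pool.Agent.Lib_helper52.Ebe.P

/-!
# Positive semidefinite quotients, low degrees
-/

namespace Pool.Agent.Lib_helper26.Ebe

open MvPolynomial Pool.Agent.Lib_helper26.SOS Module
open Pool.Agent.Lib_helper97.Ebe (eval_lf lf_ne_zero q_not_dvd_inr L1 S1 S1_lower S1_lower'
  S1_upper S1_span_range)

variable {n m D : ℕ}

theorem homogeneousComponent_lf_mul (b : Fin n → ℂ) (u : MvPolynomial (Fin n) ℂ) (d : ℕ) :
    homogeneousComponent (d + 1) (lf b * u) = lf b * homogeneousComponent d u := by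
  classical
  conv_lhs => rw [← sum_homogeneousComponent u]
  rw [Finset.mul_sum, map_sum]
  have h1 : ∀ i, homogeneousComponent (d + 1) (lf b * homogeneousComponent i u) =
      if i = d then lf b * homogeneousComponent d u else 0 := by
    intro i
    have h2 : lf b * homogeneousComponent i u ∈ homogeneousSubmodule (Fin n) ℂ (1 + i) := by
      rw [mem_homogeneousSubmodule]
      exact (isHomogeneous_lf b).mul (homogeneousComponent_isHomogeneous i u)
    rw [homogeneousComponent_of_mem h2]
    by_cases hid : i = d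
    · rw [if_pos (by omega), if_pos hid, hid]
    · rw [if_neg (by omega), if_neg hid]
  simp_rw [h1]
  rw [Finset.sum_ite_eq']
  split_ifs with h3
  · rfl
  · rw [homogeneousComponent_eq_zero _ _ (by
      rw [Finset.mem_range] at h3
      omega), mul_zero]

theorem isHomogeneous_of_lf_mul {b : Fin n → ℂ} (hb : b ≠ 0) {u : MvPolynomial (Fin n) ℂ}
    (h : (lf b * u).IsHomogeneous D) : u.IsHomogeneous (D - 1) := by
  classical
  have h1 : ∀ d, d ≠ D - 1 ∨ D = 0 → homogeneousComponent d u = 0 := by
    intro d hd
    have h2 := homogeneousComponent_lf_mul b u d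
    rw [homogeneousComponent_of_mem (n := D) h, if_neg (by omega)] at h2
    exact (mul_eq_zero.mp h2.symm).resolve_left (lf_ne_zero hb)
  by_cases hD : D = 0
  · have : u = 0 := by
      rw [← sum_homogeneousComponent u]
      exact Finset.sum_eq_zero fun i _ => h1 i (Or.inr hD)
    rw [this]
    exact isHomogeneous_zero _ _ _
  · have : u = homogeneousComponent (D - 1) u := by
      conv_lhs => rw [← sum_homogeneousComponent u]
      by_cases h3 : D - 1 ∈ Finset.range (u.totalDegree + 1)
      · rw [← Finset.add_sum_erase _ _ h3, Finset.sum_eq_zero, add_zero]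
        intro i hi
        exact h1 i (Or.inl (Finset.ne_of_mem_erase hi))
      · rw [homogeneousComponent_eq_zero (D - 1) u (by
          rw [Finset.mem_range] at h3
          omega)]
        exact Finset.sum_eq_zero fun i hi => h1 i (Or.inl (by
          rintro rfl
          exact h3 hi))
    rw [this]
    exact homogeneousComponent_isHomogeneous _ _

/-- The diagonalized form of the quotient. -/
noncomputable def dg {ρ : ℕ} (f : Fin ρ → MvPolynomial (Fin n) ℂ) (ε : Fin ρ → ℝ) :
    MvPolynomial (Fin n ⊕ Fin n) ℂ :=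
  ∑ k, C (ε k : ℂ) * rename Sum.inl (f k) * rename Sum.inr (cj (f k))

theorem sp_dg {ρ : ℕ} (f : Fin ρ → MvPolynomial (Fin n) ℂ) (ε : Fin ρ → ℝ) (b : Fin n → ℂ) :
    sp b (dg f ε) = ∑ k, ((ε k : ℂ) * eval b (cj (f k))) • f k := by
  unfold dg
  rw [map_sum]
  refine Finset.sum_congr rfl fun k _ => ?_
  have h1 : sp b (C (ε k : ℂ)) = C (ε k : ℂ) := by
    have := (sp b).commutes (ε k : ℂ)
    exact this
  rw [map_mul, map_mul, sp_inl, sp_inr, h1, smul_eq_C_mul, C_mul]
  ring

theorem span_le_of_gen_dg {ρ : ℕ} {f : Fin ρ → MvPolynomial (Fin n) ℂ} {ε : Fin ρ → ℝ}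
    (hf : LinearIndependent ℂ f) (hε : ∀ k, ε k = 1 ∨ ε k = -1)
    (W : Submodule ℂ (MvPolynomial (Fin n) ℂ))
    (h : Gen (fun b : Fin n → ℂ => sp b (dg f ε) ∈ W)) :
    Submodule.span ℂ (Set.range f) ≤ W := by
  classical
  rw [Submodule.span_le]
  rintro _ ⟨j, rfl⟩
  by_contra hj
  obtain ⟨φ, hφ0, hφW⟩ := Submodule.exists_le_ker_of_notMem hj
  have h1 : ∑ k, C ((ε k : ℂ) * φ (f k)) * cj (f k) = 0 := by
    apply eq_zero_of_gen
    refine h.mono fun b hb => ?_
    have h2 := hφW hb
    rw [LinearMap.mem_ker, sp_dg, map_sum] at h2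
    rw [map_sum, ← h2]
    refine Finset.sum_congr rfl fun i _ => ?_
    rw [map_mul, eval_C, map_smul, smul_eq_mul]
    ring
  have h2 : ∑ k, (starRingEnd ℂ) ((ε k : ℂ) * φ (f k)) • f k = 0 := by
    have h3 := congrArg cj h1
    unfold cj at h3
    rw [map_sum, map_zero] at h3
    rw [← h3]
    refine Finset.sum_congr rfl fun i _ => ?_
    have : (starRingEnd ℂ).comp (starRingEnd ℂ) = RingHom.id ℂ := by
      ext x
      simp
    rw [RingHom.map_mul (MvPolynomial.map (starRingEnd ℂ)), map_C, map_map, this, map_id,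
      smul_eq_C_mul]
  have h3 := Fintype.linearIndependent_iff.mp hf _ h2 j
  rw [map_eq_zero, mul_eq_zero] at h3
  rcases h3 with h3 | h3
  · rcases hε j with h4 | h4 <;> rw [h4] at h3 <;> simp at h3
  · exact hφ0 h3

/-- The conclusion of the theorem. -/
def Gapless (n m : ℕ) : Prop := ∀ k, k * n < m → (k + 1) * n ≤ m + k * (k + 1) / 2

theorem tri (k : ℕ) : k * (k + 1) / 2 * 2 = k * (k + 1) :=
  Nat.div_mul_cancel (Nat.even_mul_succ_self k).two_dvd

theorem tri' (k : ℕ) : k * (k - 1) / 2 * 2 = k * (k - 1) := by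
  rcases k with _ | k
  · rfl
  · rw [Nat.add_sub_cancel, mul_comm (k + 1) k]
    exact tri k

theorem gapless_of_S1 (W : Submodule ℂ (MvPolynomial (Fin n) ℂ)) [FiniteDimensional ℂ W]
    (hm : finrank ℂ (S1 W) = m) : Gapless n m := by
  intro k hk
  have h1 := S1_upper W
  rw [hm] at h1
  have h2 : k + 1 ≤ finrank ℂ W := by
    by_contra hlt
    push Not at hlt
    have : n * finrank ℂ W ≤ n * k := Nat.mul_le_mul_left n (by omega)
    rw [mul_comm n k] at this
    omega
  have ht := tri k
  by_cases hκ : finrank ℂ W ≤ n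
  · have h3 := S1_lower W rfl hκ
    rw [hm] at h3
    have ht' := tri' (finrank ℂ W)
    obtain ⟨d, hd⟩ : ∃ d, finrank ℂ W = k + 1 + d := ⟨finrank ℂ W - (k + 1), by omega⟩
    obtain ⟨e, he⟩ : ∃ e, n = k + 1 + d + e := ⟨n - finrank ℂ W, by omega⟩
    rw [hd] at h3 ht'
    rw [show k + 1 + d - 1 = k + d by omega] at h3 ht'
    subst he
    set A := k * (k + 1) / 2
    set B := (k + 1 + d) * (k + d) / 2
    have h4 : B = A + (k + 1) * d + (d * (d - 1)) / 2 := by
      have ht'' := tri' d
      have : B * 2 = (A + (k + 1) * d + (d * (d - 1)) / 2) * 2 := by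
        have e1 : (A + (k + 1) * d + (d * (d - 1)) / 2) * 2 =
            A * 2 + (k + 1) * d * 2 + (d * (d - 1)) / 2 * 2 := by ring
        rw [ht', e1, ht, ht'']
        rcases d with _ | d
        · ring
        · rw [Nat.add_sub_cancel]
          ring
      omega
    have h5 : (d * (d - 1)) / 2 ≤ d * d := by
      have : d * (d - 1) ≤ d * d := Nat.mul_le_mul_left d (by omega)
      omega
    rw [h4] at h3
    have h6 : (k + 1 + d) * (k + 1 + d + e) = (k + 1) * (k + 1 + d + e) +
      ((k + 1) * d + d * d + d * e) := by ring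
    have h7 : 0 ≤ d * e := Nat.zero_le _
    omega
  · have h3 := S1_lower' W (by omega)
    rw [hm] at h3
    have ht' := tri n
    rcases le_or_gt (k + 1) n with h4 | h4
    · obtain ⟨e, he⟩ : ∃ e, n = k + 1 + e := ⟨n - (k + 1), by omega⟩
      subst he
      set A := k * (k + 1) / 2
      set B := (k + 1 + e) * (k + 1 + e + 1) / 2
      have h5 : (k + 1) * (k + 1 + e) * 2 + e * e + e = B * 2 + A * 2 := by
        rw [ht, ht']
        ring
      have h6 : 0 ≤ e * e := Nat.zero_le _
      omega
    · obtain ⟨e, he⟩ : ∃ e, k = n + e := ⟨k - n, by omega⟩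
      subst he
      set A := (n + e) * (n + e + 1) / 2
      set B := n * (n + 1) / 2
      have h5 : (n + e + 1) * n * 2 + e * e + e = B * 2 + A * 2 := by
        rw [ht, ht']
        ring
      have h6 : 0 ≤ e * e := Nat.zero_le _
      omega

/-- The case of a positive semidefinite quotient. -/
theorem gapless_of_psd {ρ : ℕ} {p : Fin m → MvPolynomial (Fin n) ℂ}
    (hp : LinearIndependent ℂ p) {f : Fin ρ → MvPolynomial (Fin n) ℂ} {ε : Fin ρ → ℝ}
    (hε : ∀ k, ε k = 1)
    (hA : ∑ i, rename Sum.inl (p i) * rename Sum.inr (cj (p i)) = q n * dg f ε) :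
    Gapless n m := by
  have h1 := span_eq_of_psd p f ε hε hA
  have : FiniteDimensional ℂ (Submodule.span ℂ (Set.range f)) :=
    FiniteDimensional.span_of_finite ℂ (Set.finite_range f)
  apply gapless_of_S1 (Submodule.span ℂ (Set.range f))
  rw [S1_span_range]
  have h2 : Submodule.span ℂ (Set.range (fun x : Fin n × Fin ρ => X x.1 * f x.2)) =
      Submodule.span ℂ (Set.range p) := by
    rw [h1]
    congr 1
    ext g
    constructor
    · rintro ⟨⟨i, k⟩, rfl⟩
      exact ⟨i, k, rfl⟩
    · rintro ⟨i, k, rfl⟩
      exact ⟨(i, k), rfl⟩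
  rw [h2, finrank_span_eq_card hp, Fintype.card_fin]

/-- In degree at most two the quotient is positive semidefinite. -/
theorem psd_of_degree_le_two {ρ : ℕ} {p : Fin m → MvPolynomial (Fin n) ℂ} (hn : 1 ≤ n)
    (hhom : ∀ i, (p i).IsHomogeneous D) (hD : D ≤ 2)
    {f : Fin ρ → MvPolynomial (Fin n) ℂ} {ε : Fin ρ → ℝ} (hf : LinearIndependent ℂ f)
    (hε : ∀ k, ε k = 1 ∨ ε k = -1)
    (hA : ∑ i, rename Sum.inl (p i) * rename Sum.inr (cj (p i)) = q n * dg f ε) :
    ∀ k, ε k = 1 := by
  classical
  -- the `f k` are homogeneous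
  have hfhom : ∀ k, (f k).IsHomogeneous (D - 1) := by
    have h1 : Submodule.span ℂ (Set.range f) ≤ homogeneousSubmodule (Fin n) ℂ (D - 1) := by
      apply span_le_of_gen_dg hf hε
      refine (gen_ne_zero hn).mono fun b hb => ?_
      rw [mem_homogeneousSubmodule]
      apply isHomogeneous_of_lf_mul hb
      have h2 := congrArg (sp b) hA
      rw [map_mul, sp_q'] at h2
      rw [← h2, map_sum]
      refine IsHomogeneous.sum _ _ _ fun i _ => ?_
      rw [map_mul, sp_inl, sp_inr]
      exact (hhom i).mul (isHomogeneous_C _ _)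
    intro k
    have := h1 (Submodule.subset_span ⟨k, rfl⟩)
    rwa [mem_homogeneousSubmodule] at this
  intro k
  rcases hε k with h | h
  · exact h
  exfalso
  -- a point at which only `f k` does not vanish
  obtain ⟨z, hz, hzk⟩ : ∃ z : Fin n → ℂ, (∀ l, l ≠ k → eval z (f l) = 0) ∧
      eval z (f k) ≠ 0 := by
    rcases Nat.lt_or_ge D 2 with hD1 | hD2
    · -- constants
      have hC : ∀ l, ∃ c : ℂ, f l = C c := by
        intro l
        have h1 := hfhom l
        rw [show D - 1 = 0 by omega] at h1
        have h2 := homogeneousComponent_eq_self h1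
        rw [homogeneousComponent_zero] at h2
        exact ⟨_, h2.symm⟩
      obtain ⟨c, hc⟩ := hC k
      have hc0 : c ≠ 0 := by
        rintro rfl
        exact hf.ne_zero k (by rw [hc, C_0])
      refine ⟨0, fun l hl => ?_, by rw [hc, eval_C]; exact hc0⟩
      exfalso
      obtain ⟨d, hd⟩ := hC l
      have h3 := Fintype.linearIndependent_iff.mp hf (Pi.single l c - Pi.single k d) (by
        simp only [Pi.sub_apply, sub_smul, Finset.sum_sub_distrib]
        rw [Finset.sum_eq_single l (by intro b _ hb; rw [Pi.single_eq_of_ne hb, zero_smul])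
          (by simp), Finset.sum_eq_single k (by
          intro b _ hb; rw [Pi.single_eq_of_ne hb, zero_smul]) (by simp),
          Pi.single_eq_same, Pi.single_eq_same, hc, hd, smul_eq_C_mul, smul_eq_C_mul,
          mul_comm, sub_self]) l
      rw [Pi.sub_apply, Pi.single_eq_same, Pi.single_eq_of_ne hl, sub_zero] at h3
      exact hc0 h3
    · -- linear forms
      have hD' : D = 2 := by omega
      subst hD'
      have hlin : ∀ l, ∃ a : Fin n → ℂ, f l = lf a := by
        intro l
        have h1 := hfhom l
        refine ⟨fun i => coeff (Finsupp.single i 1) (f l), ?_⟩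
        ext s
        have h2 : lf (fun i => coeff (Finsupp.single i 1) (f l)) =
            ∑ i, monomial (Finsupp.single i 1) (coeff (Finsupp.single i 1) (f l)) := by
          unfold lf
          exact Finset.sum_congr rfl fun i _ => C_mul_X_eq_monomial
        rw [h2, coeff_sum]
        simp only [coeff_monomial]
        by_cases hs : ∃ i, s = Finsupp.single i 1
        · obtain ⟨i, rfl⟩ := hs
          rw [Finset.sum_eq_single i]
          · rw [if_pos rfl]
          · intro j _ hj
            rw [if_neg]
            intro he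
            exact hj (Finsupp.single_left_injective one_ne_zero he)
          · simp
        · rw [Finset.sum_eq_zero]
          · by_contra hne
            have h3 := h1 hne
            apply hs
            have h4 : s.degree = 1 := by
              rw [Finsupp.degree_eq_weight_one]
              exact h3
            have hs0 : s ≠ 0 := by
              rintro rfl
              simp at h4
            obtain ⟨i, hi⟩ := Finsupp.ne_iff.mp hs0
            rw [Finsupp.coe_zero, Pi.zero_apply] at hi
            have h5 : Finsupp.single i 1 + (s - Finsupp.single i 1) = s :=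
              add_tsub_cancel_of_le (by
                rw [Finsupp.single_le_iff]
                omega)
            have h6 := congrArg Finsupp.degree h5
            rw [map_add, Finsupp.degree_single, h4] at h6
            have h7 : (s - Finsupp.single i 1).degree = 0 := by omega
            rw [Finsupp.degree_eq_zero_iff] at h7
            rw [h7, add_zero] at h5
            exact ⟨i, h5.symm⟩
          · intro i _
            rw [if_neg]
            intro he
            exact hs ⟨i, he.symm⟩
      choose a ha using hlin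
      have haLI : LinearIndependent ℂ a := by
        rw [Fintype.linearIndependent_iff]
        intro g hg
        apply Fintype.linearIndependent_iff.mp hf g
        have h3 := congrArg (lfL n) hg
        rw [map_sum, map_zero] at h3
        rw [← h3]
        refine Finset.sum_congr rfl fun l _ => ?_
        rw [map_smul, lfL_apply, ha]
      -- dual vector
      let T : (Fin n → ℂ) →ₗ[ℂ] (Fin ρ → ℂ) := LinearMap.pi (fun l => krl (a l))
      have hT : Function.Surjective T := by
        rw [← LinearMap.range_eq_top]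
        by_contra hne
        obtain ⟨φ, hφ0, hφ⟩ := Submodule.exists_le_ker_of_lt_top _ (lt_top_iff_ne_top.mpr hne)
        apply hφ0
        have h3 : ∀ l, φ (Pi.single l 1) = 0 := by
          apply Fintype.linearIndependent_iff.mp haLI
          funext i
          rw [Finset.sum_apply, Pi.zero_apply]
          have h4 : φ (T (Pi.single i 1)) = 0 := hφ ⟨_, rfl⟩
          have h5 : T (Pi.single i 1) = ∑ l, (a l i) • (Pi.single l 1 : Fin ρ → ℂ) := by
            funext l
            rw [Finset.sum_apply, Finset.sum_eq_single l]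
            · simp [T, krl_single]
            · intro l' _ hl'
              rw [Pi.smul_apply, Pi.single_eq_of_ne hl'.symm, smul_zero]
            · simp
          rw [h5, map_sum] at h4
          rw [← h4]
          refine Finset.sum_congr rfl fun l _ => ?_
          rw [map_smul, Pi.smul_apply, smul_eq_mul, smul_eq_mul, mul_comm]
        apply LinearMap.pi_ext'
        intro l
        apply LinearMap.ext_ring
        simpa using h3 l
      obtain ⟨z, hz⟩ := hT (Pi.single k 1)
      have hz' : ∀ l, eval z (f l) = (Pi.single k 1 : Fin ρ → ℂ) l := by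
        intro l
        rw [ha, eval_lf', ← hz]
        rfl
      refine ⟨z, fun l hl => ?_, ?_⟩
      · rw [hz', Pi.single_eq_of_ne hl]
      · rw [hz', Pi.single_eq_same]
        exact one_ne_zero
  -- evaluation
  have hev : ∀ z : Fin n → ℂ, (∀ l, l ≠ k → eval z (f l) = 0) →
      (∑ i, ‖eval z (p i)‖ ^ 2 : ℝ) = (∑ i, ‖z i‖ ^ 2 : ℝ) * (- ‖eval z (f k)‖ ^ 2) := by
    intro z hz
    have h1 := congrArg (eval (Sum.elim z (fun k => (starRingEnd ℂ) (z k)))) hA
    rw [map_sum, map_mul, eval_q] at h1
    unfold dg at h1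
    rw [map_sum] at h1
    simp_rw [map_mul, eval_rename_inl, eval_rename_inr, eval_cj, Complex.mul_conj,
      Complex.normSq_eq_norm_sq, eval_C] at h1
    rw [Finset.sum_eq_single k (by
      intro l _ hl
      rw [hz l hl]
      simp) (by simp), h, mul_assoc, Complex.mul_conj, Complex.normSq_eq_norm_sq] at h1
    have h2 : (((∑ i, ‖eval z (p i)‖ ^ 2 : ℝ)) : ℂ) =
        (((∑ i, ‖z i‖ ^ 2 : ℝ) * (- ‖eval z (f k)‖ ^ 2) : ℝ) : ℂ) := by
      push_cast at h1 ⊢
      rw [h1]
      ring
    exact_mod_cast h2
  have hnn : ∀ z : Fin n → ℂ, 0 ≤ (∑ i, ‖eval z (p i)‖ ^ 2 : ℝ) := fun z =>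
    Finset.sum_nonneg fun i _ => by positivity
  by_cases hz0 : z = 0
  · -- then `f k` is a nonzero constant
    have hD1 : D < 2 := by
      by_contra hge
      have h1 := hfhom k
      have : eval z (f k) = 0 := by
        rw [hz0]
        rw [MvPolynomial.eval_zero, constantCoeff_eq]
        apply h1.coeff_eq_zero
        simp
        omega
      exact hzk this
    have hC : ∀ l, ∃ c : ℂ, f l = C c := by
      intro l
      have h1 := hfhom l
      rw [show D - 1 = 0 by omega] at h1
      have h2 := homogeneousComponent_eq_self h1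
      rw [homogeneousComponent_zero] at h2
      exact ⟨_, h2.symm⟩
    have hz1 : ∀ z' l, eval z' (f l) = eval z (f l) := by
      intro z' l
      obtain ⟨c, hc⟩ := hC l
      rw [hc, eval_C, eval_C]
    have h2 := hev (fun _ => 1) (fun l hl => by rw [hz1]; exact hz l hl)
    have h3 := hnn (fun _ => 1)
    rw [h2, hz1] at h3
    have h4 : 0 < ‖eval z (f k)‖ ^ 2 := by positivity
    have h5 : (0 : ℝ) < ∑ i : Fin n, ‖(1 : ℂ)‖ ^ 2 := by
      simp
      omega
    nlinarith
  · have h2 := hev z hz
    have h3 := hnn z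
    rw [h2] at h3
    have h4 : 0 < ‖eval z (f k)‖ ^ 2 := by positivity
    have h5 : (0 : ℝ) < ∑ i : Fin n, ‖z i‖ ^ 2 := by
      obtain ⟨i, hi⟩ := Function.ne_iff.mp hz0
      have : ‖z i‖ ^ 2 ≤ ∑ i : Fin n, ‖z i‖ ^ 2 :=
        Finset.single_le_sum (f := fun i => ‖z i‖ ^ 2) (fun i _ => by positivity)
          (Finset.mem_univ i)
      have h6 : 0 < ‖z i‖ := norm_pos_iff.mpr hi
      have : 0 < ‖z i‖ ^ 2 := by positivity
      linarith
    nlinarith

end Pool.Agent.Lib_helper26.Ebe
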