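import Pool.Agent.Lib_helper26.Ebe.SA
import Pool.Agent.Lib_helper26.Ebe.Psd

/-!
# The facts about one level
-/

namespace Pool.Agent.Lib_helper26.Ebe

open MvPolynomial Pool.Agent.Lib_helper26.SOS Module
open Pool.Agent.Lib_helper97.Ebe (eval_lf lf_ne_zero q_not_dvd_inr L1 S1 S1_lower S1_lower'
  S1_upper S1_span_range S1_eq_span X_mul_mem_S1 lf_mul_mem_S1 S1_mono lf_mem_L1 mem_L1_iff)

variable {n m j D : ℕ}

theorem lf_mul_sp {p : Fin m → MvPolynomial (Fin n) ℂ} {A : MvPolynomial (Fin n ⊕ Fin n) ℂ}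
    (hA : ∑ i, rename Sum.inl (p i) * rename Sum.inr (cj (p i)) = q n * A) (b : Fin n → ℂ) :
    lf b * sp b A = ∑ i, eval b (cj (p i)) • p i := by
  have h1 := congrArg (sp b) hA
  rw [map_mul, sp_q'] at h1
  rw [← h1, map_sum]
  refine Finset.sum_congr rfl fun i _ => ?_
  rw [map_mul, sp_inl, sp_inr, smul_eq_C_mul, mul_comm]

theorem lf_mul_sp_mem {p : Fin m → MvPolynomial (Fin n) ℂ}
    {A : MvPolynomial (Fin n ⊕ Fin n) ℂ}
    (hA : ∑ i, rename Sum.inl (p i) * rename Sum.inr (cj (p i)) = q n * A) (b : Fin n → ℂ) :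
    lf b * sp b A ∈ Submodule.span ℂ (Set.range p) := by
  rw [lf_mul_sp hA]
  exact Submodule.sum_mem _ fun i _ => Submodule.smul_mem _ _ (Submodule.subset_span ⟨i, rfl⟩)

theorem pos_of_identity {p : Fin m → MvPolynomial (Fin n) ℂ}
    {A : MvPolynomial (Fin n ⊕ Fin n) ℂ}
    (hA : ∑ i, rename Sum.inl (p i) * rename Sum.inr (cj (p i)) = q n * A)
    (W : Submodule ℂ (MvPolynomial (Fin n) ℂ))
    (h : Gen (fun b : Fin n → ℂ => lf b * sp b A ∈ W)) :
    Submodule.span ℂ (Set.range p) ≤ W := by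
  apply span_le_of_gen
  refine h.mono fun b hb => ?_
  rwa [lf_mul_sp hA] at hb

theorem rk_self (V : Submodule ℂ (MvPolynomial (Fin n) ℂ)) [FiniteDimensional ℂ V] :
    rk V n = finrank ℂ V := by
  classical
  have h1 := rk_add_mvan V n
  have h2 := mvan_le V (rangeF n n) (fun x => if x.1 = x.2 then 1 else 0)
  rw [Zs_rangeF] at h2
  have h3 : van V (Set.range (mv (fun x : Fin n × Fin n => if x.1 = x.2 then (1 : ℂ) else 0))) =
      ⊥ := by
    rw [eq_bot_iff]
    rintro v ⟨-, hv⟩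
    rw [Submodule.mem_bot]
    apply MvPolynomial.funext
    intro z
    rw [map_zero]
    apply hv
    refine ⟨z, ?_⟩
    funext i
    simp [mv]
  rw [h3, finrank_bot] at h2
  omega

theorem rk_mono (V : Submodule ℂ (MvPolynomial (Fin n) ℂ)) [FiniteDimensional ℂ V]
    (k : ℕ) : rk V k ≤ finrank ℂ V := by
  have := rk_add_mvan V k
  omega

/-- First type at level `j`. -/
theorem level_L {p : Fin m → MvPolynomial (Fin (j + 1)) ℂ}
    {A : MvPolynomial (Fin (j + 1) ⊕ Fin (j + 1)) ℂ} (hj : 3 ≤ j + 1)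
    (hhom : ∀ i, (p i).IsHomogeneous D) (hD : 3 ≤ D) {V : Submodule ℂ (MvPolynomial _ ℂ)}
    (hV : V = Submodule.span ℂ (Set.range p)) (hc : Cop V)
    (hA : ∑ i, rename Sum.inl (p i) * rename Sum.inr (cj (p i)) = q (j + 1) * A)
    (hL : ∀ a b : Fin (j + 1) → ℂ, a ≠ 0 → b ≠ 0 →
      van V ((kr a : Set (Fin (j + 1) → ℂ)) ∪ kr b) ≠ ⊥) :
    rk V j + (j + 2) ≤ finrank ℂ V := by
  have hfd : FiniteDimensional ℂ V := by
    rw [hV]
    exact FiniteDimensional.span_of_finite ℂ (Set.finite_range p)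
  have h1 := Ltype hj V (D := D) (by
    rw [hV, Submodule.span_le]
    rintro _ ⟨i, rfl⟩
    exact hhom i) hD hc hL (fun b => sp b A) (fun b => by
      rw [hV]
      exact lf_mul_sp_mem hA b) (fun W hW => by
      rw [hV]
      exact pos_of_identity hA W hW)
  have h2 := rk_kerF V
  omega

/-- Positivity of the increments. -/
theorem level_pos {p : Fin m → MvPolynomial (Fin (j + 1)) ℂ}
    {A : MvPolynomial (Fin (j + 1) ⊕ Fin (j + 1)) ℂ}
    {V : Submodule ℂ (MvPolynomial _ ℂ)}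
    (hV : V = Submodule.span ℂ (Set.range p)) (hV0 : V ≠ ⊥)
    (hA : ∑ i, rename Sum.inl (p i) * rename Sum.inr (cj (p i)) = q (j + 1) * A) :
    rk V j + 1 ≤ finrank ℂ V := by
  have hfd : FiniteDimensional ℂ V := by
    rw [hV]
    exact FiniteDimensional.span_of_finite ℂ (Set.finite_range p)
  have h2 := rk_kerF V
  suffices h : mvan V (kerF (j + 1)) ≠ 0 by omega
  intro h0
  have h3 := gen_finrank_van_kr V (by omega)
  rw [h0] at h3
  apply hV0
  rw [eq_bot_iff, hV]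
  apply pos_of_identity hA
  refine (h3.and (gen_ne_zero (by omega))).mono fun b hb => ?_
  have h4 : lf b * sp b A ∈ van V (kr b) := by
    rw [mem_van_kr hb.2]
    refine ⟨?_, dvd_mul_right _ _⟩
    rw [hV]
    exact lf_mul_sp_mem hA b
  rw [Submodule.finrank_eq_zero.mp hb.1] at h4
  exact h4

theorem dg_mem {ρ : ℕ} (f : Fin ρ → MvPolynomial (Fin n) ℂ) (ε : Fin ρ → ℝ) (b : Fin n → ℂ) :
    sp b (dg f ε) ∈ Submodule.span ℂ (Set.range f) := by
  rw [sp_dg]
  exact Submodule.sum_mem _ fun i _ => Submodule.smul_mem _ _ (Submodule.subset_span ⟨i, rfl⟩)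

theorem finrank_sp_dg {ρ : ℕ} {f : Fin ρ → MvPolynomial (Fin n) ℂ} {ε : Fin ρ → ℝ}
    (hf : LinearIndependent ℂ f) (hε : ∀ k, ε k = 1 ∨ ε k = -1) :
    finrank ℂ (Submodule.span ℂ (Set.range (fun b => sp b (dg f ε)))) = ρ := by
  have h1 : Submodule.span ℂ (Set.range (fun b => sp b (dg f ε))) =
      Submodule.span ℂ (Set.range f) := by
    apply le_antisymm
    · rw [Submodule.span_le]
      rintro _ ⟨b, rfl⟩
      exact dg_mem f ε b
    · apply span_le_of_gen_dg hf hε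
      exact Gen.of_forall fun b => Submodule.subset_span ⟨b, rfl⟩
  rw [h1, finrank_span_eq_card hf, Fintype.card_fin]

/-- If the quotient has its specializations in a space `U'`, its rank is at most the dimension. -/
theorem finrank_sp_le {p : Fin m → MvPolynomial (Fin n) ℂ}
    {A : MvPolynomial (Fin n ⊕ Fin n) ℂ} (hn : 1 ≤ n)
    (hA : ∑ i, rename Sum.inl (p i) * rename Sum.inr (cj (p i)) = q n * A)
    {U' : Submodule ℂ (MvPolynomial (Fin n) ℂ)} [FiniteDimensional ℂ U']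
    (h : Gen (fun b : Fin n → ℂ => sp b A ∈ U')) :
    finrank ℂ (Submodule.span ℂ (Set.range (fun b => sp b A))) ≤ finrank ℂ U' := by
  obtain ⟨ρ, f, ε, hf, hε, hAe⟩ := hermitian_diag hn p A hA
  have hAe' : A = dg f ε := hAe
  rw [hAe'] at h ⊢
  have h1 := span_le_of_gen_dg hf hε U' h
  apply Submodule.finrank_mono
  refine le_trans ?_ h1
  rw [Submodule.span_le]
  rintro _ ⟨b, rfl⟩
  exact dg_mem f ε b

theorem map_S1_le (g : Fin n × Fin j → ℂ) (W : Submodule ℂ (MvPolynomial (Fin n) ℂ)) :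
    (S1 W).map (sub g).toLinearMap ≤ S1 (W.map (sub g).toLinearMap) := by
  rw [S1_eq_span, Submodule.map_span, Submodule.span_le]
  rintro _ ⟨_, ⟨i, u, hu, rfl⟩, rfl⟩
  have h1 : sub g (X i * u) = lf (fun l => g (i, l)) * sub g u := by
    rw [map_mul]
    congr 1
    simp [sub, lf]
  change sub g (X i * u) ∈ S1 _
  rw [h1]
  exact lf_mul_mem_S1 _ ⟨u, hu, rfl⟩

end Pool.Agent.Lib_helper26.Ebe
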