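import Pool.Agent.Lib_helper26.Ebe.Asm

/-!
# The sequence of ranks
-/

namespace Pool.Agent.Lib_helper26.Ebe

open MvPolynomial Pool.Agent.Lib_helper26.SOS Module
open Pool.Agent.Lib_helper97.Ebe (eval_lf lf_ne_zero q_not_dvd_inr L1 S1 S1_lower S1_lower'
  S1_upper S1_span_range S1_eq_span X_mul_mem_S1 lf_mul_mem_S1 S1_mono lf_mem_L1 mem_L1_iff)

variable {n m j D : ℕ}

/-- The restriction to a suitable isometric copy of `ℂ^j`. -/
def RecHyp (p : Fin m → MvPolynomial (Fin n) ℂ) (A : MvPolynomial (Fin n ⊕ Fin n) ℂ)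
    (V : Submodule ℂ (MvPolynomial (Fin n) ℂ)) (j : ℕ) : Prop :=
  ∀ Φ : MvPolynomial (Fin n × Fin j) ℂ, Φ ≠ 0 →
    ∃ (g g₀ : Fin n × Fin j → ℂ) (T : Matrix (Fin j) (Fin j) ℂ), IsUnit T.det ∧
      (g = fun x => ∑ l, g₀ (x.1, l) * T l x.2) ∧ eval g₀ Φ ≠ 0 ∧
      Cop (V.map (sub g).toLinearMap) ∧
      (∀ l ≤ j, rk (V.map (sub g).toLinearMap) l = rk V l) ∧
      ∃ A' : MvPolynomial (Fin j ⊕ Fin j) ℂ,
        (∑ i, rename Sum.inl (sub g (p i)) * rename Sum.inr (cj (sub g (p i))) = q j * A') ∧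
        min (finrank ℂ (Submodule.span ℂ (Set.range (fun b => sp b A)))) j ≤
          finrank ℂ (Submodule.span ℂ (Set.range (fun b => sp b A')))

theorem StP.mulr {V : Submodule ℂ (MvPolynomial (Fin n) ℂ)} {g₀ : Fin n × Fin j → ℂ}
    {a b : Fin j → ℂ} {T : Matrix (Fin j) (Fin j) ℂ} (hT : IsUnit T.det)
    (ha : a ≠ 0) (hb : b ≠ 0) (h : StP V g₀ a b) :
    ∃ a' b' : Fin j → ℂ, a' ≠ 0 ∧ b' ≠ 0 ∧
      StP V (fun x => ∑ l, g₀ (x.1, l) * T l x.2) a' b' := by
  have hsurj : ∀ z : Fin j → ℂ, ∃ y : Fin j → ℂ, mv (fun x : Fin j × Fin j => T x.1 x.2) y = z := by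
    intro z
    refine ⟨T⁻¹.mulVec z, ?_⟩
    change T.mulVec (T⁻¹.mulVec z) = z
    rw [Matrix.mulVec_mulVec, Matrix.mul_nonsing_inv _ hT, Matrix.one_mulVec]
  have hmv : ∀ y, mv (fun x : Fin n × Fin j => ∑ l, g₀ (x.1, l) * T l x.2) y =
      mv g₀ (mv (fun x : Fin j × Fin j => T x.1 x.2) y) := fun y =>
    mv_mv g₀ (fun x : Fin j × Fin j => T x.1 x.2) y
  have hkr : ∀ (a y : Fin j → ℂ), krl (fun i => ∑ l, a l * T l i) y =
      krl a (mv (fun x : Fin j × Fin j => T x.1 x.2) y) := by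
    intro a y
    rw [krl_apply, krl_apply]
    unfold mv
    simp only [Finset.sum_mul, Finset.mul_sum]
    rw [Finset.sum_comm]
    exact Finset.sum_congr rfl fun l _ => Finset.sum_congr rfl fun k _ => by ring
  have hne : ∀ a : Fin j → ℂ, a ≠ 0 → (fun i => ∑ l, a l * T l i) ≠ 0 := by
    intro a ha h0
    apply krl_ne_zero ha
    apply LinearMap.ext
    intro z
    obtain ⟨y, rfl⟩ := hsurj z
    rw [← hkr, h0, LinearMap.zero_apply, krl_apply]
    simp
  refine ⟨_, _, hne a ha, hne b hb, ?_⟩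
  rintro v ⟨hvV, hv⟩
  have h1 : v ∈ van V (mv g₀ '' ((kr a : Set (Fin j → ℂ)) ∪ kr b)) := by
    refine ⟨hvV, ?_⟩
    rintro _ ⟨z, hz, rfl⟩
    obtain ⟨y, rfl⟩ := hsurj z
    rw [← hmv]
    apply hv
    refine ⟨y, ?_, rfl⟩
    rcases hz with hz | hz
    · left
      change krl _ y = 0
      rw [hkr]
      exact hz
    · right
      change krl _ y = 0
      rw [hkr]
      exact hz
  refine ⟨hvV, ?_⟩
  rintro _ ⟨y, rfl⟩
  rw [hmv]
  exact (h h1).2 _ ⟨_, rfl⟩

theorem isHomogeneous_sub (g : Fin n × Fin j → ℂ) {v : MvPolynomial (Fin n) ℂ}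
    (hv : v.IsHomogeneous D) : (sub g v).IsHomogeneous D := by
  unfold sub
  have h1 := hv.aeval (fun i => ∑ l, C (g (i, l)) * (X l : MvPolynomial (Fin j) ℂ)) (n := 1)
    (fun i => by
      refine IsHomogeneous.sum _ _ _ fun l _ => ?_
      have := (isHomogeneous_C (Fin j) (g (i, l))).mul (isHomogeneous_X ℂ l)
      rwa [zero_add] at this)
  rwa [one_mul] at h1

theorem map_span_sub (g : Fin n × Fin j → ℂ) (p : Fin m → MvPolynomial (Fin n) ℂ) :
    (Submodule.span ℂ (Set.range p)).map (sub g).toLinearMap =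
      Submodule.span ℂ (Set.range (fun i => sub g (p i))) := by
  rw [Submodule.map_span]
  congr 1
  rw [← Set.range_comp]
  rfl

section Facts

variable {p : Fin m → MvPolynomial (Fin n) ℂ} {A : MvPolynomial (Fin n ⊕ Fin n) ℂ}
  {V : Submodule ℂ (MvPolynomial (Fin n) ℂ)}

theorem fd_of_span (hV : V = Submodule.span ℂ (Set.range p)) : FiniteDimensional ℂ V := by
  rw [hV]
  exact FiniteDimensional.span_of_finite ℂ (Set.finite_range p)

theorem facts_L (hhom : ∀ i, (p i).IsHomogeneous D) (hD : 3 ≤ D)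
    (hV : V = Submodule.span ℂ (Set.range p)) {k : ℕ} (hk : 1 ≤ k)
    (hrec : RecHyp p A V (k + 2)) (hS : ¬ St V (k + 2)) :
    rk V (k + 1) + (k + 3) ≤ rk V (k + 2) := by
  have hfd := fd_of_span hV
  obtain ⟨g, g₀, T, hT, hg, -, hcop, hrk, A', hA', -⟩ := hrec 1 one_ne_zero
  have h1 := hrk (k + 2) le_rfl
  have h2 := hrk (k + 1) (by omega)
  rw [rk_self] at h1
  have h3 := level_L (j := k + 1) (p := fun i => sub g (p i)) (by omega)
    (fun i => isHomogeneous_sub g (hhom i)) hD (V := V.map (sub g).toLinearMap)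
    (by rw [hV, map_span_sub]) hcop hA' (by
      intro a b ha hb h0
      apply hS
      exact St_of_exists (by omega) ha hb h1 (stP_iff.mpr h0))
  rw [h1, h2] at h3
  exact h3

theorem facts_pos (hV : V = Submodule.span ℂ (Set.range p)) {k : ℕ}
    (hrec : RecHyp p A V (k + 1)) (h0 : rk V (k + 1) ≠ 0) :
    rk V k + 1 ≤ rk V (k + 1) := by
  have hfd := fd_of_span hV
  obtain ⟨g, g₀, T, hT, hg, -, hcop, hrk, A', hA', -⟩ := hrec 1 one_ne_zero
  have h1 := hrk (k + 1) le_rfl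
  have h2 := hrk k (by omega)
  rw [rk_self] at h1
  have h3 := level_pos (j := k) (p := fun i => sub g (p i))
    (V := V.map (sub g).toLinearMap) (by rw [hV, map_span_sub]) (by
      intro hbot
      rw [hbot, finrank_bot] at h1
      exact h0 h1.symm) hA'
  rw [h1, h2] at h3
  exact h3

theorem exists_good (hV : V = Submodule.span ℂ (Set.range p)) (hj : 1 ≤ j)
    (hrec : RecHyp p A V j) (hS : St V j) :
    ∃ g : Fin n × Fin j → ℂ, (∃ a b : Fin j → ℂ, a ≠ 0 ∧ b ≠ 0 ∧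
        van (V.map (sub g).toLinearMap) ((kr a : Set (Fin j → ℂ)) ∪ kr b) = ⊥) ∧
      (∀ l ≤ j, rk (V.map (sub g).toLinearMap) l = rk V l) ∧
      ∃ A' : MvPolynomial (Fin j ⊕ Fin j) ℂ,
        (∑ i, rename Sum.inl (sub g (p i)) * rename Sum.inr (cj (sub g (p i))) = q j * A') ∧
        min (finrank ℂ (Submodule.span ℂ (Set.range (fun b => sp b A)))) j ≤
          finrank ℂ (Submodule.span ℂ (Set.range (fun b => sp b A'))) := by
  obtain ⟨Φ, hΦ0, hΦ⟩ := hS.gen hj
  obtain ⟨g, g₀, T, hT, hg, hg₀, -, hrk, A', hA', hρ⟩ := hrec Φ hΦ0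
  obtain ⟨a, b, ha, hb, hab⟩ := hΦ g₀ hg₀
  obtain ⟨a', b', ha', hb', hab'⟩ := hab.mulr hT ha hb
  rw [← hg, stP_iff] at hab'
  exact ⟨g, ⟨a', b', ha', hb', hab'⟩, hrk, A', hA', hρ⟩

theorem facts_S (hV : V = Submodule.span ℂ (Set.range p)) {k : ℕ}
    (hrec : RecHyp p A V (k + 2)) (hS : St V (k + 2)) :
    rk V (k + 2) + rk V k ≤ 2 * rk V (k + 1) := by
  have hfd := fd_of_span hV
  obtain ⟨g, hab, hrk, -⟩ := exists_good hV (by omega) hrec hS
  have h0 := hrk (k + 2) le_rfl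
  have h1 := hrk (k + 1) (by omega)
  have h2 := hrk k (by omega)
  rw [rk_self] at h0
  have h3 := Stype_le hab
  rw [h0, h1, h2] at h3
  exact h3

/-- The common part of the two plateau lemmas. -/
theorem plateau (hV : V = Submodule.span ℂ (Set.range p)) {k : ℕ}
    (hrec : RecHyp p A V (k + 2)) (hS : St V (k + 2))
    (heq : rk V (k + 2) + rk V k = 2 * rk V (k + 1))
    (hlt : rk V (k + 2) + 1 < rk V (k + 1) + (k + 2)) :
    ∃ (g : Fin n × Fin (k + 2) → ℂ) (U' : Submodule ℂ (MvPolynomial (Fin (k + 2)) ℂ)),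
      FiniteDimensional ℂ U' ∧
      finrank ℂ (V.map (sub g).toLinearMap) = rk V (k + 2) ∧
      rk V (k + 1) + finrank ℂ U' = rk V (k + 2) ∧
      V.map (sub g).toLinearMap = S1 U' ∧
      finrank ℂ (Submodule.span ℂ (Set.range (fun b => sp b A))) ≤ finrank ℂ U' := by
  have hfd := fd_of_span hV
  obtain ⟨g, hab, hrk, A', hA', hρ⟩ := exists_good hV (by omega) hrec hS
  have h0 := hrk (k + 2) le_rfl
  have h1 := hrk (k + 1) (by omega)
  have h2 := hrk k (by omega)
  rw [rk_self] at h0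
  obtain ⟨U', hU', hfdU, hgen⟩ := Stype_eq hab (by omega) (by omega)
  rw [h0, h1] at hU'
  have hmem : ∀ b : Fin (k + 2) → ℂ, lf b * sp b A' ∈ V.map (sub g).toLinearMap := by
    intro b
    rw [hV, map_span_sub]
    exact lf_mul_sp_mem hA' b
  have hspU : Gen (fun b : Fin (k + 2) → ℂ => sp b A' ∈ U') := by
    refine hgen.mono fun b hb => ?_
    rw [← hb]
    exact hmem b
  refine ⟨g, U', hfdU, h0, hU', ?_, ?_⟩
  · apply le_antisymm
    · have h4 : V.map (sub g).toLinearMap =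
        Submodule.span ℂ (Set.range (fun i => sub g (p i))) := by rw [hV, map_span_sub]
      rw [h4]
      apply pos_of_identity hA'
      exact hspU.mono fun b hb => lf_mul_mem_S1 b hb
    · rw [S1_eq_span, Submodule.span_le]
      rintro _ ⟨i, u, hu, rfl⟩
      have h4 := lf_mul_mem_of_gen (V.map (sub g).toLinearMap) u
        (hgen.mono fun a ha => by
          have : u ∈ U (V.map (sub g).toLinearMap) a := by
            rw [ha]
            exact hu
          exact this) (Pi.single i 1)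
      have h5 : lf (Pi.single i 1 : Fin (k + 2) → ℂ) = X i := by
        unfold lf
        rw [Finset.sum_eq_single i]
        · simp
        · intro l _ hl
          simp [hl]
        · simp
      rw [h5] at h4
      exact h4
  · have h4 := finrank_sp_le (by omega) hA' hspU
    omega

theorem rank_bound {ρ : ℕ} {f : Fin ρ → MvPolynomial (Fin n) ℂ} {ε : Fin ρ → ℝ}
    (hε : ∀ k, ε k = 1 ∨ ε k = -1) (hAe : A = dg f ε)
    (hne : ∃ k, ε k = -1)
    (hA : ∑ i, rename Sum.inl (p i) * rename Sum.inr (cj (p i)) = q n * A)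
    (hV : V = Submodule.span ℂ (Set.range p)) (j : ℕ) : rk V j + j ≤ j * ρ := by
  classical
  have hfd := fd_of_span hV
  obtain ⟨g, hg⟩ := exists_rk V j
  rw [hAe] at hA
  have h1 := span_le_pos p f ε hε hA
  let P := {k : Fin ρ // ε k = 1}
  have hP : Fintype.card P + 1 ≤ ρ := by
    obtain ⟨k, hk⟩ := hne
    have : Fintype.card P < Fintype.card (Fin ρ) := by
      apply Fintype.card_subtype_lt (x := k)
      rw [hk]
      norm_num
    rw [Fintype.card_fin] at this
    omega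
  have h2 : V ≤ S1 (Submodule.span ℂ (Set.range (fun x : P => f x.1))) := by
    rw [S1_span_range, hV]
    refine h1.trans (Submodule.span_mono ?_)
    rintro _ ⟨i, l, hl, rfl⟩
    exact ⟨(i, ⟨l, hl⟩), rfl⟩
  have h3 : V.map (sub g).toLinearMap ≤
      S1 ((Submodule.span ℂ (Set.range (fun x : P => f x.1))).map (sub g).toLinearMap) :=
    (Submodule.map_mono h2).trans (map_S1_le g _)
  have hfdf : FiniteDimensional ℂ (Submodule.span ℂ (Set.range (fun x : P => f x.1))) :=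
    FiniteDimensional.span_of_finite ℂ (Set.finite_range _)
  have h4 := Submodule.finrank_mono h3
  have h5 := S1_upper ((Submodule.span ℂ (Set.range (fun x : P => f x.1))).map
    (sub g).toLinearMap)
  have h6 : finrank ℂ ((Submodule.span ℂ (Set.range (fun x : P => f x.1))).map
      (sub g).toLinearMap) ≤ Fintype.card P :=
    (Submodule.finrank_map_le _ _).trans (finrank_range_le_card (fun x : P => f x.1))
  have h7 : j * finrank ℂ ((Submodule.span ℂ (Set.range (fun x : P => f x.1))).map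
      (sub g).toLinearMap) ≤ j * (ρ - 1) := Nat.mul_le_mul_left _ (by omega)
  have h8 : j * (ρ - 1) + j = j * ρ := by
    obtain ⟨r, hr⟩ : ∃ r, ρ = r + 1 := ⟨ρ - 1, by omega⟩
    rw [hr, Nat.add_sub_cancel]
    ring
  omega

theorem facts_P {ρ : ℕ} {f : Fin ρ → MvPolynomial (Fin n) ℂ} {ε : Fin ρ → ℝ}
    (hf : LinearIndependent ℂ f) (hε : ∀ k, ε k = 1 ∨ ε k = -1) (hAe : A = dg f ε)
    (hne : ∃ k, ε k = -1)
    (hA : ∑ i, rename Sum.inl (p i) * rename Sum.inr (cj (p i)) = q n * A)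
    (hV : V = Submodule.span ℂ (Set.range p)) {k : ℕ}
    (hrec : RecHyp p A V (k + 2)) (hS : St V (k + 2))
    (heq : rk V (k + 2) + rk V k = 2 * rk V (k + 1))
    (hlt : rk V (k + 2) + 1 < rk V (k + 1) + (k + 2)) :
    rk V (k + 2) + (k + 2) ≤ (k + 2) * (rk V (k + 2) - rk V (k + 1)) := by
  obtain ⟨g, U', hfdU, hg, hU', -, hρ⟩ := plateau hV hrec hS heq hlt
  rw [hAe, finrank_sp_dg hf hε] at hρ
  have h1 := rank_bound hε hAe hne hA hV (k + 2)
  have h9 : (k + 2) * ρ ≤ (k + 2) * (rk V (k + 2) - rk V (k + 1)) :=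
    Nat.mul_le_mul_left _ (by omega)
  omega

end Facts

theorem facts_top {k : ℕ} {p : Fin m → MvPolynomial (Fin (k + 2)) ℂ}
    {A : MvPolynomial (Fin (k + 2) ⊕ Fin (k + 2)) ℂ}
    {V : Submodule ℂ (MvPolynomial (Fin (k + 2)) ℂ)} (hp : LinearIndependent ℂ p)
    (hV : V = Submodule.span ℂ (Set.range p))
    (hrec : RecHyp p A V (k + 2)) (hS : St V (k + 2))
    (heq : rk V (k + 2) + rk V k = 2 * rk V (k + 1))
    (hlt : rk V (k + 2) + 1 < rk V (k + 1) + (k + 2)) : Gapless (k + 2) m := by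
  have hfd := fd_of_span hV
  obtain ⟨g, U', hfdU, hg, hU', hSU, -⟩ := plateau hV hrec hS heq hlt
  apply gapless_of_S1 U'
  rw [← hSU, hg, rk_self, hV, finrank_span_eq_card hp, Fintype.card_fin]

end Pool.Agent.Lib_helper26.Ebe
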