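import Pool.Agent.Lib_helper26.SOS.Upper

/-!
# Ebenfelt's SOS conjecture: definitions
-/

namespace Pool.Agent.Lib_helper26.Ebe

open MvPolynomial Pool.Agent.Lib_helper26.SOS

/-- A property of points of `ℂ^τ` holds generically if it holds outside the zero set of a
nonzero polynomial. -/
def Gen {τ : Type*} (P : (τ → ℂ) → Prop) : Prop :=
  ∃ Φ : MvPolynomial τ ℂ, Φ ≠ 0 ∧ ∀ x, eval x Φ ≠ 0 → P x

/-- The linear form `∑ a_i X_i`. -/
noncomputable def lf {n : ℕ} (a : Fin n → ℂ) : MvPolynomial (Fin n) ℂ := ∑ i, C (a i) * X i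

/-- Substitution of the linear map `ℂ^k → ℂ^n` with matrix `g` into polynomials on `ℂ^n`. -/
noncomputable def sub {n k : ℕ} (g : Fin n × Fin k → ℂ) :
    MvPolynomial (Fin n) ℂ →ₐ[ℂ] MvPolynomial (Fin k) ℂ :=
  aeval (fun i => ∑ j, C (g (i, j)) * X j)

/-- The linear map `ℂ^k → ℂ^n` with matrix `g`. -/
def mv {n k : ℕ} (g : Fin n × Fin k → ℂ) (x : Fin k → ℂ) : Fin n → ℂ :=
  fun i => ∑ j, g (i, j) * x j

/-- A space of polynomials without a common nonconstant factor. -/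
def Cop {n : ℕ} (V : Submodule ℂ (MvPolynomial (Fin n) ℂ)) : Prop :=
  ∀ h : MvPolynomial (Fin n) ℂ, (∀ v ∈ V, h ∣ v) → IsUnit h

/-- The elements of `V` vanishing on the set `Z`. -/
def van {n : ℕ} (V : Submodule ℂ (MvPolynomial (Fin n) ℂ)) (Z : Set (Fin n → ℂ)) :
    Submodule ℂ (MvPolynomial (Fin n) ℂ) where
  carrier := {v | v ∈ V ∧ ∀ z ∈ Z, eval z v = 0}
  add_mem' := by
    rintro a b ⟨ha, ha'⟩ ⟨hb, hb'⟩
    exact ⟨V.add_mem ha hb, fun z hz => by rw [map_add, ha' z hz, hb' z hz, add_zero]⟩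
  zero_mem' := ⟨V.zero_mem, fun z _ => map_zero _⟩
  smul_mem' := by
    rintro c a ⟨ha, ha'⟩
    exact ⟨V.smul_mem c ha, fun z hz => by
      rw [smul_eval, ha' z hz, mul_zero]⟩

/-- The rank of `V` on a generic `k`-dimensional subspace. -/
noncomputable def rk {n : ℕ} (V : Submodule ℂ (MvPolynomial (Fin n) ℂ)) (k : ℕ) : ℕ :=
  sSup {r | ∃ g : Fin n × Fin k → ℂ, r = Module.finrank ℂ (V.map (sub g).toLinearMap)}

end Pool.Agent.Lib_helper26.Ebe
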