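import Pool.Agent.Lib_helper26.Ebe.Ker
import Pool.Agent.Lib_helper97.Ebe.S1

/-!
# Divisibility by linear forms; the spaces `U_a`
-/

namespace Pool.Agent.Lib_helper26.Ebe

open MvPolynomial Pool.Agent.Lib_helper26.SOS Module
open Pool.Agent.Lib_helper97.Ebe (eval_lf lf_ne_zero)

variable {n k : ℕ}

theorem eval_lf' (a z : Fin n → ℂ) : eval z (lf a) = krl a z := by
  rw [eval_lf, krl_apply]

/-- Projection along the coordinate `i` to the hyperplane `kr a`. -/
noncomputable def prj (a : Fin n → ℂ) (i : Fin n) :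
    MvPolynomial (Fin n) ℂ →ₐ[ℂ] MvPolynomial (Fin n) ℂ :=
  aeval (fun j => X j - C ((Pi.single i (a i)⁻¹ : Fin n → ℂ) j) * lf a)

theorem dvd_prj_sub (a : Fin n → ℂ) (i : Fin n) (f : MvPolynomial (Fin n) ℂ) :
    lf a ∣ prj a i f - f := by
  rw [← Ideal.mem_span_singleton, ← Ideal.Quotient.eq]
  have : (Ideal.Quotient.mkₐ ℂ (Ideal.span {lf a})).comp (prj a i) =
      Ideal.Quotient.mkₐ ℂ (Ideal.span {lf a}) := by
    apply MvPolynomial.algHom_ext
    intro j
    rw [AlgHom.comp_apply, prj, aeval_X, map_sub, map_mul]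
    have h0 : Ideal.Quotient.mkₐ ℂ (Ideal.span {lf a}) (lf a) = 0 := by
      rw [Ideal.Quotient.mkₐ_eq_mk, Ideal.Quotient.eq_zero_iff_mem]
      exact Ideal.mem_span_singleton_self _
    rw [h0, mul_zero, sub_zero]
  exact AlgHom.congr_fun this f

theorem eval_prj (a : Fin n → ℂ) (i : Fin n) (f : MvPolynomial (Fin n) ℂ) (z : Fin n → ℂ) :
    eval z (prj a i f) =
      eval (fun j => z j - (Pi.single i (a i)⁻¹ : Fin n → ℂ) j * eval z (lf a)) f := by
  have : ((eval z).comp ((prj a i : MvPolynomial (Fin n) ℂ →ₐ[ℂ] MvPolynomial (Fin n) ℂ) :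
      MvPolynomial (Fin n) ℂ →+* MvPolynomial (Fin n) ℂ)) =
      eval (fun j => z j - (Pi.single i (a i)⁻¹ : Fin n → ℂ) j * eval z (lf a)) := by
    apply MvPolynomial.ringHom_ext
    · intro r
      simp [prj, MvPolynomial.algebraMap_eq]
    · intro j
      simp [prj]
  exact RingHom.congr_fun this f

theorem prj_eq_zero {a : Fin n → ℂ} {i : Fin n} (hi : a i ≠ 0) {f : MvPolynomial (Fin n) ℂ}
    (h : ∀ z ∈ kr a, eval z f = 0) : prj a i f = 0 := by
  apply MvPolynomial.funext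
  intro z
  rw [eval_prj, map_zero]
  apply h
  have h1 : (fun j => z j - (Pi.single i (a i)⁻¹ : Fin n → ℂ) j * eval z (lf a)) =
      z - (eval z (lf a)) • (Pi.single i (a i)⁻¹ : Fin n → ℂ) := by
    funext j
    simp [mul_comm]
  rw [h1, kr, LinearMap.mem_ker, map_sub, map_smul, krl_single, ← eval_lf', mul_inv_cancel₀ hi,
    smul_eq_mul, mul_one, sub_self]

theorem lf_dvd_iff {a : Fin n → ℂ} (ha : a ≠ 0) (f : MvPolynomial (Fin n) ℂ) :
    lf a ∣ f ↔ ∀ z ∈ kr a, eval z f = 0 := by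
  constructor
  · rintro ⟨g, rfl⟩ z hz
    rw [map_mul, eval_lf', show krl a z = 0 from hz, zero_mul]
  · intro h
    obtain ⟨i, hi⟩ := Function.ne_iff.mp ha
    have h1 := dvd_prj_sub a i f
    rw [prj_eq_zero hi h, zero_sub] at h1
    exact (dvd_neg.mp h1)

theorem lf_prime {a : Fin n → ℂ} (ha : a ≠ 0) : Prime (lf a) := by
  refine ⟨lf_ne_zero ha, ?_, fun f g hfg => ?_⟩
  · intro hu
    have h0 : eval 0 (lf a) = 0 := by simp [lf]
    have := hu.map (eval (0 : Fin n → ℂ))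
    rw [h0] at this
    exact not_isUnit_zero this
  · obtain ⟨i, hi⟩ := Function.ne_iff.mp ha
    have h1 := prj_eq_zero hi ((lf_dvd_iff ha _).mp hfg)
    rw [map_mul] at h1
    rcases mul_eq_zero.mp h1 with h2 | h2
    · left
      have h3 := dvd_prj_sub a i f
      rw [h2, zero_sub] at h3
      exact dvd_neg.mp h3
    · right
      have h3 := dvd_prj_sub a i g
      rw [h2, zero_sub] at h3
      exact dvd_neg.mp h3

theorem Ind.not_le {a b : Fin n → ℂ} (h : Ind a b) : ¬ kr a ≤ kr b := by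
  intro hle
  obtain ⟨i, j, hij⟩ := h
  apply hij
  have hm : (Pi.single i (a j) - Pi.single j (a i) : Fin n → ℂ) ∈ kr a := by
    rw [kr, LinearMap.mem_ker, map_sub, krl_single, krl_single]
    ring
  have := hle hm
  rw [kr, LinearMap.mem_ker, map_sub, krl_single, krl_single] at this
  linear_combination -this

theorem Ind.not_dvd {a b : Fin n → ℂ} (h : Ind a b) : ¬ lf a ∣ lf b := by
  intro hd
  apply h.not_le
  intro z hz
  have := (lf_dvd_iff h.left _).mp hd z hz
  rw [eval_lf'] at this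
  exact this

theorem lf_mul_dvd_iff {a b : Fin n → ℂ} (h : Ind a b) (f : MvPolynomial (Fin n) ℂ) :
    lf a * lf b ∣ f ↔ ∀ z ∈ (kr a : Set (Fin n → ℂ)) ∪ kr b, eval z f = 0 := by
  constructor
  · rintro ⟨g, rfl⟩ z (hz | hz)
    · rw [map_mul, map_mul, eval_lf', show krl a z = 0 from hz, zero_mul, zero_mul]
    · rw [map_mul, map_mul, eval_lf' b, show krl b z = 0 from hz, mul_zero, zero_mul]
  · intro hf
    obtain ⟨g, rfl⟩ := (lf_dvd_iff h.left _).mpr fun z hz => hf z (Or.inl hz)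
    have h2 := (lf_dvd_iff h.right _).mpr fun z hz => hf z (Or.inr hz)
    rcases (lf_prime h.right).dvd_or_dvd h2 with h3 | h3
    · exact absurd h3 h.symm.not_dvd
    · exact mul_dvd_mul_left _ h3

theorem lf_smul (c : ℂ) (a : Fin n → ℂ) : lf (c • a) = C c * lf a := by
  unfold lf
  rw [Finset.mul_sum]
  exact Finset.sum_congr rfl fun i _ => by
    rw [Pi.smul_apply, smul_eq_mul, map_mul, mul_assoc]

theorem lf_add (a b : Fin n → ℂ) : lf (a + b) = lf a + lf b := by
  unfold lf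
  rw [← Finset.sum_add_distrib]
  exact Finset.sum_congr rfl fun i _ => by rw [Pi.add_apply, map_add, add_mul]

theorem lf_zero : lf (0 : Fin n → ℂ) = 0 := by simp [lf]

/-- The space of `u` with `lf a * u ∈ V`. -/
noncomputable def U (V : Submodule ℂ (MvPolynomial (Fin n) ℂ)) (a : Fin n → ℂ) :
    Submodule ℂ (MvPolynomial (Fin n) ℂ) :=
  V.comap (LinearMap.mulLeft ℂ (lf a))

theorem mem_U {V : Submodule ℂ (MvPolynomial (Fin n) ℂ)} {a : Fin n → ℂ}
    {u : MvPolynomial (Fin n) ℂ} : u ∈ U V a ↔ lf a * u ∈ V := Iff.rfl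

theorem mem_van_kr {V : Submodule ℂ (MvPolynomial (Fin n) ℂ)} {a : Fin n → ℂ} (ha : a ≠ 0)
    {v : MvPolynomial (Fin n) ℂ} : v ∈ van V (kr a) ↔ v ∈ V ∧ lf a ∣ v := by
  rw [lf_dvd_iff ha]
  exact Iff.rfl

theorem mem_van_kr_union {V : Submodule ℂ (MvPolynomial (Fin n) ℂ)} {a b : Fin n → ℂ}
    (h : Ind a b) {v : MvPolynomial (Fin n) ℂ} :
    v ∈ van V ((kr a : Set (Fin n → ℂ)) ∪ kr b) ↔ v ∈ V ∧ lf a * lf b ∣ v := by
  rw [lf_mul_dvd_iff h]
  exact Iff.rfl

/-- Multiplication by `lf a` from `U V a` onto the elements of `V` vanishing on `kr a`. -/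
noncomputable def UEquiv (V : Submodule ℂ (MvPolynomial (Fin n) ℂ)) {a : Fin n → ℂ}
    (ha : a ≠ 0) : U V a ≃ₗ[ℂ] van V (kr a) :=
  LinearEquiv.ofBijective
    (((LinearMap.mulLeft ℂ (lf a)).domRestrict (U V a)).codRestrict (van V (kr a))
      (fun u => (mem_van_kr ha).mpr ⟨u.2, dvd_mul_right _ _⟩)) (by
    constructor
    · intro u u' h
      have h1 := congrArg Subtype.val h
      simp only [LinearMap.codRestrict_apply, LinearMap.domRestrict_apply,
        LinearMap.mulLeft_apply] at h1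
      exact Subtype.ext (mul_left_cancel₀ (lf_ne_zero ha) h1)
    · rintro ⟨v, hv⟩
      obtain ⟨hvV, u, hu⟩ := (mem_van_kr ha).mp hv
      refine ⟨⟨u, ?_⟩, Subtype.ext ?_⟩
      · rw [mem_U, ← hu]
        exact hvV
      · exact hu.symm)

theorem finrank_U (V : Submodule ℂ (MvPolynomial (Fin n) ℂ)) {a : Fin n → ℂ}
    (ha : a ≠ 0) : finrank ℂ (U V a) = finrank ℂ (van V (kr a)) :=
  (UEquiv V ha).finrank_eq

theorem U_fd (V : Submodule ℂ (MvPolynomial (Fin n) ℂ)) [FiniteDimensional ℂ V]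
    {a : Fin n → ℂ} (ha : a ≠ 0) : FiniteDimensional ℂ (U V a) :=
  Module.Finite.equiv (UEquiv V ha).symm

theorem U_mono {V V' : Submodule ℂ (MvPolynomial (Fin n) ℂ)} (h : V ≤ V') (a : Fin n → ℂ) :
    U V a ≤ U V' a := fun _ hu => h hu

/-- Few points suffice to separate the elements of a space. -/
theorem exists_finset_van_card (W : Submodule ℂ (MvPolynomial (Fin n) ℂ))
    [FiniteDimensional ℂ W] (Z : Set (Fin n → ℂ)) (h : van W Z = ⊥) :
    ∃ F : Finset (Fin n → ℂ), (F : Set (Fin n → ℂ)) ⊆ Z ∧ van W F = ⊥ ∧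
      F.card ≤ finrank ℂ W := by
  classical
  have key : ∀ k : ℕ, ∀ F : Finset (Fin n → ℂ), (F : Set (Fin n → ℂ)) ⊆ Z →
      finrank ℂ (van W F) ≤ k → F.card + finrank ℂ (van W F) ≤ finrank ℂ W →
      ∃ F : Finset (Fin n → ℂ), (F : Set (Fin n → ℂ)) ⊆ Z ∧
        van W F = ⊥ ∧ F.card ≤ finrank ℂ W := by
    intro k
    induction k with
    | zero =>
      intro F hF hk hc
      exact ⟨F, hF, Submodule.finrank_eq_zero.mp (Nat.le_zero.mp hk), by omega⟩
    | succ k ih =>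
      intro F hF hk hc
      by_cases hb : van W F = ⊥
      · exact ⟨F, hF, hb, by omega⟩
      · obtain ⟨v, hv, hv0⟩ := Submodule.exists_mem_ne_zero_of_ne_bot hb
        have : ∃ z ∈ Z, eval z v ≠ 0 := by
          by_contra hc
          push Not at hc
          apply hv0
          have : v ∈ van W Z := ⟨hv.1, hc⟩
          rwa [h, Submodule.mem_bot] at this
        obtain ⟨z, hz, hzv⟩ := this
        have hle : van W ((insert z F : Finset (Fin n → ℂ)) : Set (Fin n → ℂ)) ≤ van W F :=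
          van_anti (by simp)
        have hlt := finrank_lt_of_mem hle hv (fun hc => hzv (hc.2 z (by simp)))
        have hcard := Finset.card_insert_le z F
        refine ih (insert z F) ?_ (by omega) (by omega)
        rw [Finset.coe_insert]
        exact Set.insert_subset hz hF
  refine key _ ∅ (by simp) le_rfl ?_
  rw [Finset.card_empty, zero_add]
  exact Submodule.finrank_mono (van_le _ _)

/-- Points lemma: a space of dimension less than `n` restricts injectively to a hyperplane. -/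
theorem points (W : Submodule ℂ (MvPolynomial (Fin n) ℂ)) [FiniteDimensional ℂ W]
    (h : finrank ℂ W < n) : ∃ a : Fin n → ℂ, a ≠ 0 ∧ van W (kr a) = ⊥ := by
  classical
  obtain ⟨F, -, hF, hc⟩ := exists_finset_van_card W Set.univ (by
    rw [eq_bot_iff]
    rintro v ⟨-, hv⟩
    rw [Submodule.mem_bot]
    exact MvPolynomial.funext fun z => by rw [hv z (Set.mem_univ z), map_zero])
  obtain ⟨a, ha0, ha⟩ := exists_le_kr (Submodule.span ℂ (F : Set (Fin n → ℂ))) (by
    have : finrank ℂ (Submodule.span ℂ (F : Set (Fin n → ℂ))) ≤ F.card :=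
      finrank_span_finset_le_card (R := ℂ) F
    omega)
  refine ⟨a, ha0, ?_⟩
  rw [eq_bot_iff, ← hF]
  exact van_anti (Submodule.subset_span.trans ha)

/-- Relative points lemma. -/
theorem points_rel (W : Submodule ℂ (MvPolynomial (Fin n) ℂ)) [FiniteDimensional ℂ W]
    (h : finrank ℂ W + 1 < n) {b : Fin n → ℂ} (hb : b ≠ 0) (hW : van W (kr b) = ⊥) :
    ∃ a : Fin n → ℂ, Ind a b ∧ van W ((kr a : Set (Fin n → ℂ)) ∩ kr b) = ⊥ := by
  classical
  obtain ⟨F, hFb, hF, hc⟩ := exists_finset_van_card W _ hW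
  obtain ⟨i, hi⟩ := Function.ne_iff.mp hb
  have hlt : finrank ℂ ↥(Submodule.span ℂ (F : Set (Fin n → ℂ)) ⊔
      ℂ ∙ (Pi.single i 1 : Fin n → ℂ)) < n := by
    have := Submodule.finrank_add_le_finrank_add_finrank (Submodule.span ℂ (F : Set (Fin n → ℂ)))
      (ℂ ∙ (Pi.single i 1 : Fin n → ℂ))
    have h2 := finrank_span_singleton (K := ℂ) (v := (Pi.single i 1 : Fin n → ℂ))
      (by intro h; have := congrFun h i; simp at this)
    have h3 : finrank ℂ (Submodule.span ℂ (F : Set (Fin n → ℂ))) ≤ F.card :=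
      finrank_span_finset_le_card (R := ℂ) F
    omega
  obtain ⟨a, ha0, ha⟩ := exists_le_kr _ hlt
  have hai : a i = 0 := by
    have : (Pi.single i 1 : Fin n → ℂ) ∈ kr a :=
      ha (Submodule.mem_sup_right (Submodule.mem_span_singleton_self _))
    rw [kr, LinearMap.mem_ker, krl_single, mul_one] at this
    exact this
  obtain ⟨j, hj⟩ := Function.ne_iff.mp ha0
  refine ⟨a, ⟨j, i, ?_⟩, ?_⟩
  · rw [hai, zero_mul, sub_zero]
    exact mul_ne_zero hj hi
  · rw [eq_bot_iff, ← hF]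
    have h4 : Submodule.span ℂ (F : Set (Fin n → ℂ)) ≤ kr a := le_sup_left.trans ha
    exact van_anti (Set.subset_inter (Submodule.subset_span.trans h4) hFb)

/-- The points lemma for a generic moving hyperplane. -/
theorem gen_van_kr_eq_bot (W : Submodule ℂ (MvPolynomial (Fin n) ℂ)) [FiniteDimensional ℂ W]
    (h : finrank ℂ W < n) : Gen (fun a : Fin n → ℂ => van W (kr a) = ⊥) := by
  obtain ⟨a₀, ha₀, h0⟩ := points W h
  rw [← Zs_kerF ha₀] at h0
  refine ((gen_van_eq_bot W (kerF n) a₀ h0).and (gen_ne_zero (by omega))).mono fun a ha => ?_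
  obtain ⟨h1, h2⟩ := ha
  rwa [Zs_kerF h2] at h1

/-- Partial evaluation of a moving set. -/
def Zpart {τ σ : Type*} (Y : Set (Fin n → MvPolynomial (τ ⊕ σ) ℂ)) (b : σ → ℂ) :
    Set (Fin n → MvPolynomial τ ℂ) :=
  {y | ∃ y' ∈ Y, y = fun i => aeval (Sum.elim X (fun j => C (b j))) (y' i)}

theorem Zs_Zpart {τ σ : Type*} (Y : Set (Fin n → MvPolynomial (τ ⊕ σ) ℂ)) (b : σ → ℂ)
    (a : τ → ℂ) : Zs (Zpart Y b) a = Zs Y (Sum.elim a b) := by
  have key : ∀ f : MvPolynomial (τ ⊕ σ) ℂ,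
      eval a (aeval (Sum.elim X (fun j => C (b j))) f : MvPolynomial τ ℂ) =
        eval (Sum.elim a b) f := by
    intro f
    have : ((eval a).comp ((aeval (Sum.elim X (fun j => C (b j))) :
        MvPolynomial (τ ⊕ σ) ℂ →ₐ[ℂ] MvPolynomial τ ℂ) :
        MvPolynomial (τ ⊕ σ) ℂ →+* MvPolynomial τ ℂ)) = eval (Sum.elim a b) := by
      apply MvPolynomial.ringHom_ext
      · intro r
        simp [MvPolynomial.algebraMap_eq]
      · rintro (i | i) <;> simp
    exact RingHom.congr_fun this f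
  ext z
  constructor
  · rintro ⟨y, ⟨y', hy', rfl⟩, rfl⟩
    exact ⟨y', hy', by funext i; rw [key]⟩
  · rintro ⟨y', hy', rfl⟩
    exact ⟨_, ⟨y', hy', rfl⟩, by funext i; rw [key]⟩

theorem gen_ind_left {b : Fin n → ℂ} (hb : b ≠ 0) (hn : 2 ≤ n) :
    Gen (fun a : Fin n → ℂ => Ind a b) := by
  obtain ⟨i, hi⟩ := Function.ne_iff.mp hb
  have hi' : b i ≠ 0 := hi
  obtain ⟨j, hj⟩ : ∃ j : Fin n, j ≠ i := by
    have : Nontrivial (Fin n) := Fin.nontrivial_iff_two_le.mpr hn
    exact exists_ne i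
  refine ⟨C (b i) * X j - C (b j) * X i, ?_, fun a ha => ⟨j, i, ?_⟩⟩
  · intro h
    have := congrArg (eval (Pi.single j 1)) h
    simp [hj.symm, hi'] at this
  · intro h
    apply ha
    simp only [map_sub, map_mul, eval_C, eval_X]
    linear_combination h

theorem gen_van_kr_inf_eq_bot (W : Submodule ℂ (MvPolynomial (Fin n) ℂ))
    [FiniteDimensional ℂ W] (h : finrank ℂ W + 1 < n) {b : Fin n → ℂ} (hb : b ≠ 0)
    (hW : van W (kr b) = ⊥) :
    Gen (fun a : Fin n → ℂ => van W ((kr a : Set (Fin n → ℂ)) ∩ kr b) = ⊥) := by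
  obtain ⟨a₀, hi₀, h0⟩ := points_rel W h hb hW
  rw [← Zs_kerF2 hi₀, ← Zs_Zpart] at h0
  refine ((gen_van_eq_bot W (Zpart (kerF2 n) b) a₀ h0).and
    (gen_ind_left hb (by omega))).mono fun a ha => ?_
  obtain ⟨h1, h2⟩ := ha
  rwa [Zs_Zpart, Zs_kerF2 h2] at h1

end Pool.Agent.Lib_helper26.Ebe
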