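import Pool.Agent.Lib_helper26.Ebe.Gen

/-!
# Semicontinuity of the dimension of the space of vanishing elements
-/

namespace Pool.Agent.Lib_helper26.Ebe

open MvPolynomial Pool.Agent.Lib_helper26.SOS Module

variable {τ : Type*} {n : ℕ}

theorem mem_van {V : Submodule ℂ (MvPolynomial (Fin n) ℂ)} {Z : Set (Fin n → ℂ)}
    {v : MvPolynomial (Fin n) ℂ} : v ∈ van V Z ↔ v ∈ V ∧ ∀ z ∈ Z, eval z v = 0 := Iff.rfl

theorem van_le (V : Submodule ℂ (MvPolynomial (Fin n) ℂ)) (Z : Set (Fin n → ℂ)) :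
    van V Z ≤ V := fun _ hv => hv.1

theorem van_anti {V : Submodule ℂ (MvPolynomial (Fin n) ℂ)} {Z Z' : Set (Fin n → ℂ)}
    (h : Z ⊆ Z') : van V Z' ≤ van V Z := fun _ hv => ⟨hv.1, fun z hz => hv.2 z (h hz)⟩

theorem van_mono {V V' : Submodule ℂ (MvPolynomial (Fin n) ℂ)} {Z : Set (Fin n → ℂ)}
    (h : V ≤ V') : van V Z ≤ van V' Z := fun _ hv => ⟨h hv.1, hv.2⟩

instance van_fd (V : Submodule ℂ (MvPolynomial (Fin n) ℂ)) [FiniteDimensional ℂ V]
    (Z : Set (Fin n → ℂ)) : FiniteDimensional ℂ (van V Z) :=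
  Submodule.finiteDimensional_of_le (van_le V Z)

theorem finrank_lt_of_mem {W V : Submodule ℂ (MvPolynomial (Fin n) ℂ)} [FiniteDimensional ℂ V]
    (h : W ≤ V) {v : MvPolynomial (Fin n) ℂ} (hv : v ∈ V) (hv' : v ∉ W) :
    finrank ℂ W < finrank ℂ V :=
  Submodule.finrank_lt_finrank_of_lt (lt_of_le_of_ne h (fun he => hv' (he ▸ hv)))

theorem exists_finset_van (W : Submodule ℂ (MvPolynomial (Fin n) ℂ)) [FiniteDimensional ℂ W]
    (Z : Set (Fin n → ℂ)) (h : van W Z = ⊥) :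
    ∃ F : Finset (Fin n → ℂ), (F : Set (Fin n → ℂ)) ⊆ Z ∧ van W F = ⊥ := by
  classical
  have key : ∀ k : ℕ, ∀ F : Finset (Fin n → ℂ), (F : Set (Fin n → ℂ)) ⊆ Z →
      finrank ℂ (van W F) ≤ k → ∃ F : Finset (Fin n → ℂ), (F : Set (Fin n → ℂ)) ⊆ Z ∧
        van W F = ⊥ := by
    intro k
    induction k with
    | zero =>
      intro F hF hk
      exact ⟨F, hF, Submodule.finrank_eq_zero.mp (Nat.le_zero.mp hk)⟩
    | succ k ih =>
      intro F hF hk
      by_cases hb : van W F = ⊥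
      · exact ⟨F, hF, hb⟩
      · obtain ⟨v, hv, hv0⟩ := Submodule.exists_mem_ne_zero_of_ne_bot hb
        have : ∃ z ∈ Z, eval z v ≠ 0 := by
          by_contra hc
          push Not at hc
          apply hv0
          have : v ∈ van W Z := ⟨hv.1, hc⟩
          rwa [h, Submodule.mem_bot] at this
        obtain ⟨z, hz, hzv⟩ := this
        have hle : van W ((insert z F : Finset (Fin n → ℂ)) : Set (Fin n → ℂ)) ≤ van W F :=
          van_anti (by simp)
        refine ih (insert z F) ?_ ?_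
        · rw [Finset.coe_insert]
          exact Set.insert_subset hz hF
        · have := finrank_lt_of_mem hle hv (fun hc => hzv (hc.2 z (by simp)))
          omega
  exact key _ ∅ (by simp) le_rfl

/-- The moving set defined by a family of polynomial maps. -/
def Zs (Y : Set (Fin n → MvPolynomial τ ℂ)) (x : τ → ℂ) : Set (Fin n → ℂ) :=
  {z | ∃ y ∈ Y, z = fun i => eval x (y i)}

theorem eval_aeval (y : Fin n → MvPolynomial τ ℂ) (x : τ → ℂ) (f : MvPolynomial (Fin n) ℂ) :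
    eval x (aeval y f) = eval (fun i => eval x (y i)) f := by
  have : ((eval x).comp ((aeval y : MvPolynomial (Fin n) ℂ →ₐ[ℂ] MvPolynomial τ ℂ) :
      MvPolynomial (Fin n) ℂ →+* MvPolynomial τ ℂ)) = eval (fun i => eval x (y i)) := by
    apply MvPolynomial.ringHom_ext
    · intro r
      simp [MvPolynomial.algebraMap_eq]
    · intro i
      simp
  exact RingHom.congr_fun this f

theorem gen_van_eq_bot (W : Submodule ℂ (MvPolynomial (Fin n) ℂ)) [FiniteDimensional ℂ W]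
    (Y : Set (Fin n → MvPolynomial τ ℂ)) (x₀ : τ → ℂ) (h : van W (Zs Y x₀) = ⊥) :
    Gen (fun x => van W (Zs Y x) = ⊥) := by
  classical
  obtain ⟨F, hF, hFW⟩ := exists_finset_van W _ h
  have hF' : ∀ z ∈ F, ∃ y ∈ Y, z = fun i => eval x₀ (y i) := fun z hz => hF hz
  choose! y hy hyF using hF'
  let w := finBasis ℂ W
  let M0 : (Fin (finrank ℂ W) → ℂ) →ₗ[ℂ] (F → ℂ) :=
    Matrix.toLin' (Matrix.of fun (z : F) j => eval z.1 (w j : MvPolynomial (Fin n) ℂ))
  have hsum : ∀ (c : Fin (finrank ℂ W) → ℂ) (z : Fin n → ℂ),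
      eval z ((∑ j, c j • w j : W) : MvPolynomial (Fin n) ℂ) =
        ∑ j, eval z (w j : MvPolynomial (Fin n) ℂ) * c j := by
    intro c z
    rw [Submodule.coe_sum, map_sum]
    refine Finset.sum_congr rfl fun j _ => ?_
    rw [Submodule.coe_smul, smul_eval, mul_comm]
  have hM0 : LinearMap.ker M0 = ⊥ := by
    rw [LinearMap.ker_eq_bot']
    intro c hc
    have h1 : ((∑ j, c j • w j : W) : MvPolynomial (Fin n) ℂ) ∈ van W F := by
      refine ⟨Submodule.coe_mem _, fun z hz => ?_⟩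
      rw [hsum]
      have := congrFun hc ⟨z, hz⟩
      simpa [M0, Matrix.mulVec, dotProduct] using this
    rw [hFW, Submodule.mem_bot, ZeroMemClass.coe_eq_zero] at h1
    funext j
    have := w.linearIndependent
    rw [Fintype.linearIndependent_iff] at this
    exact this c h1 j
  obtain ⟨L, hL⟩ := M0.exists_leftInverse_of_injective hM0
  let Lm : Matrix (Fin (finrank ℂ W)) F ℂ := LinearMap.toMatrix' L
  let Φ : MvPolynomial τ ℂ := (Matrix.of fun (i j : Fin (finrank ℂ W)) =>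
    ∑ z : F, C (Lm i z) * aeval (y z.1) (w j : MvPolynomial (Fin n) ℂ)).det
  let M : (τ → ℂ) → Matrix F (Fin (finrank ℂ W)) ℂ := fun x => Matrix.of fun (z : F) j =>
      eval (fun i => eval x (y z.1 i)) (w j : MvPolynomial (Fin n) ℂ)
  have hΦ : ∀ x, eval x Φ = (Lm * M x).det := by
    intro x
    have h1 : eval x Φ = ((eval x).mapMatrix (Matrix.of fun (i j : Fin (finrank ℂ W)) =>
        ∑ z : F, C (Lm i z) * aeval (y z.1) (w j : MvPolynomial (Fin n) ℂ))).det :=
      RingHom.map_det _ _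
    rw [h1]
    congr 1
    ext i j
    rw [Matrix.mul_apply]
    simp only [RingHom.mapMatrix_apply, Matrix.map_apply, Matrix.of_apply, map_sum, map_mul,
      eval_C, M]
    refine Finset.sum_congr rfl fun z _ => ?_
    rw [eval_aeval]
  refine ⟨Φ, ?_, fun x hx => ?_⟩
  · intro hc
    have h1 := hΦ x₀
    rw [hc, map_zero] at h1
    have h2 : M x₀ = LinearMap.toMatrix' M0 := by
      rw [LinearMap.toMatrix'_toLin']
      ext z j
      simp only [Matrix.of_apply, M]
      rw [← hyF z.1 z.2]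
    rw [h2, ← LinearMap.toMatrix'_comp, hL, LinearMap.toMatrix'_id, Matrix.det_one] at h1
    exact zero_ne_one h1
  · rw [hΦ] at hx
    rw [eq_bot_iff]
    rintro v ⟨hvW, hv⟩
    rw [Submodule.mem_bot]
    obtain ⟨c, hc⟩ : ∃ c : Fin (finrank ℂ W) → ℂ, v = ((∑ j, c j • w j : W) :
        MvPolynomial (Fin n) ℂ) := by
      refine ⟨fun j => w.repr ⟨v, hvW⟩ j, ?_⟩
      rw [w.sum_repr]
    have hMc : (Lm * M x).mulVec c = 0 := by
      rw [← Matrix.mulVec_mulVec]
      have : (M x).mulVec c = 0 := by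
        funext z
        simp only [Matrix.mulVec, dotProduct, Matrix.of_apply, Pi.zero_apply, M]
        rw [← hsum, ← hc]
        exact hv _ ⟨y z.1, hy z.1 z.2, rfl⟩
      rw [this, Matrix.mulVec_zero]
    have hc0 : c = 0 := by
      by_contra hne
      exact hx (Matrix.exists_mulVec_eq_zero_iff.mp ⟨c, hne, hMc⟩)
    rw [hc, hc0]
    simp

theorem exists_compl_van (V : Submodule ℂ (MvPolynomial (Fin n) ℂ)) [FiniteDimensional ℂ V]
    (E : Submodule ℂ (MvPolynomial (Fin n) ℂ)) (hE : E ≤ V) :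
    ∃ W : Submodule ℂ (MvPolynomial (Fin n) ℂ), W ≤ V ∧ Disjoint E W ∧
      finrank ℂ E + finrank ℂ W = finrank ℂ V := by
  obtain ⟨W, hW, hsup⟩ := IsModularLattice.exists_disjoint_and_sup_eq hE
  have hWV : W ≤ V := hsup ▸ le_sup_right
  have : FiniteDimensional ℂ E := Submodule.finiteDimensional_of_le hE
  have : FiniteDimensional ℂ W := Submodule.finiteDimensional_of_le hWV
  refine ⟨W, hWV, hW, ?_⟩
  have := Submodule.finrank_sup_add_finrank_inf_eq E W
  rw [hsup, hW.eq_bot, finrank_bot, add_zero] at this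
  exact this.symm

theorem gen_finrank_van_le (V : Submodule ℂ (MvPolynomial (Fin n) ℂ)) [FiniteDimensional ℂ V]
    (Y : Set (Fin n → MvPolynomial τ ℂ)) (x₀ : τ → ℂ) :
    Gen (fun x => finrank ℂ (van V (Zs Y x)) ≤ finrank ℂ (van V (Zs Y x₀))) := by
  obtain ⟨W, hWV, hdis, hrk⟩ := exists_compl_van V _ (van_le V (Zs Y x₀))
  have : FiniteDimensional ℂ W := Submodule.finiteDimensional_of_le hWV
  have h0 : van W (Zs Y x₀) = ⊥ := by
    rw [eq_bot_iff]
    intro v hv
    have h1 : v ∈ van V (Zs Y x₀) := ⟨hWV hv.1, hv.2⟩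
    exact hdis.le_bot ⟨h1, hv.1⟩
  refine (gen_van_eq_bot W Y x₀ h0).mono fun x hx => ?_
  have hdis2 : Disjoint (van V (Zs Y x)) W := by
    rw [disjoint_iff, eq_bot_iff, ← hx]
    intro v hv
    exact ⟨hv.2, hv.1.2⟩
  have h2 := Submodule.finrank_sup_add_finrank_inf_eq (van V (Zs Y x)) W
  rw [hdis2.eq_bot, finrank_bot, add_zero] at h2
  have h3 : finrank ℂ ↥(van V (Zs Y x) ⊔ W) ≤ finrank ℂ V :=
    Submodule.finrank_mono (sup_le (van_le V _) hWV)
  omega

/-- Minimal dimension of the space of elements vanishing on the moving set. -/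
noncomputable def mvan (V : Submodule ℂ (MvPolynomial (Fin n) ℂ))
    (Y : Set (Fin n → MvPolynomial τ ℂ)) : ℕ :=
  sInf {r | ∃ x : τ → ℂ, r = finrank ℂ (van V (Zs Y x))}

theorem mvan_le (V : Submodule ℂ (MvPolynomial (Fin n) ℂ))
    (Y : Set (Fin n → MvPolynomial τ ℂ)) (x : τ → ℂ) :
    mvan V Y ≤ finrank ℂ (van V (Zs Y x)) := Nat.sInf_le ⟨x, rfl⟩

theorem exists_mvan (V : Submodule ℂ (MvPolynomial (Fin n) ℂ))
    (Y : Set (Fin n → MvPolynomial τ ℂ)) :
    ∃ x : τ → ℂ, mvan V Y = finrank ℂ (van V (Zs Y x)) :=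
  Nat.sInf_mem (s := {r | ∃ x : τ → ℂ, r = finrank ℂ (van V (Zs Y x))}) ⟨_, 0, rfl⟩

theorem gen_mvan (V : Submodule ℂ (MvPolynomial (Fin n) ℂ)) [FiniteDimensional ℂ V]
    (Y : Set (Fin n → MvPolynomial τ ℂ)) :
    Gen (fun x => finrank ℂ (van V (Zs Y x)) = mvan V Y) := by
  obtain ⟨x₀, hx₀⟩ := exists_mvan V Y
  refine (gen_finrank_van_le V Y x₀).mono fun x hx => ?_
  rw [← hx₀] at hx
  exact le_antisymm hx (mvan_le V Y x)

end Pool.Agent.Lib_helper26.Ebe
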