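import Pool.Agent.Lib_helper26.Ebe.Asm2
import Pool.Agent.Lib_helper97.Ebe.NT
import Pool.Agent.Lib_helper52.Ebe.Rec

/-!
# Assembly
-/

namespace Pool.Agent.Lib_helper26.Ebe

open MvPolynomial Pool.Agent.Lib_helper26.SOS Module
open Pool.Agent.Lib_helper97.Ebe (numeric)

variable {n m j D : ℕ}

theorem gapless_of_numeric (h : ∀ K, K * (K - 1) + 4 ≤ 2 * n →
    2 * K * n ≤ 2 * m + K * (K - 1)) : Gapless n m := by
  intro k hk
  have ht := tri k
  by_cases hK : (k + 1) * (k + 1 - 1) + 4 ≤ 2 * n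
  · have h1 := h (k + 1) hK
    rw [Nat.add_sub_cancel] at h1
    have h2 : 2 * (k + 1) * n = 2 * ((k + 1) * n) := by ring
    have h3 : (k + 1) * k = k * (k + 1) := mul_comm _ _
    omega
  · rw [Nat.add_sub_cancel, mul_comm (k + 1) k] at hK
    have h2 : (k + 1) * n = k * n + n := by ring
    omega

theorem St.mono {V : Submodule ℂ (MvPolynomial (Fin n) ℂ)} {i : ℕ} (hi : 1 ≤ i)
    (h : St V i) {j : ℕ} (hij : i ≤ j) : St V j := by
  induction j, hij using Nat.le_induction with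
  | base => exact h
  | succ j hij ih => exact ih.succ (by omega)

theorem rk_zero {V : Submodule ℂ (MvPolynomial (Fin n) ℂ)} [FiniteDimensional ℂ V]
    (hV : V ≤ homogeneousSubmodule (Fin n) ℂ D) (hD : 1 ≤ D) : rk V 0 = 0 := by
  obtain ⟨g, hg⟩ := exists_rk V 0
  rw [← hg, Submodule.finrank_eq_zero, eq_bot_iff]
  rintro _ ⟨v, hv, rfl⟩
  rw [Submodule.mem_bot]
  have h1 : (sub g v).IsHomogeneous D := isHomogeneous_sub g (hV hv)
  change sub g v = 0
  apply MvPolynomial.funext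
  intro z
  have hz : z = 0 := Subsingleton.elim _ _
  rw [hz, map_zero, MvPolynomial.eval_zero, constantCoeff_eq]
  apply h1.coeff_eq_zero
  simp
  omega

theorem rk_one {V : Submodule ℂ (MvPolynomial (Fin n) ℂ)} [FiniteDimensional ℂ V]
    (hV : V ≤ homogeneousSubmodule (Fin n) ℂ D) (hV0 : V ≠ ⊥) : rk V 1 = 1 := by
  classical
  apply le_antisymm
  · obtain ⟨g, hg⟩ := exists_rk V 1
    rw [← hg]
    have h1 : V.map (sub g).toLinearMap ≤ ℂ ∙ (X 0 ^ D : MvPolynomial (Fin 1) ℂ) := by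
      rintro _ ⟨v, hv, rfl⟩
      have h1 : (sub g v).IsHomogeneous D := isHomogeneous_sub g (hV hv)
      change sub g v ∈ _
      rw [Submodule.mem_span_singleton]
      refine ⟨coeff (Finsupp.single 0 D) (sub g v), ?_⟩
      ext s
      rw [coeff_smul, X_pow_eq_monomial, coeff_monomial, smul_eq_mul]
      have hs : s = Finsupp.single 0 (s 0) := by
        apply Finsupp.ext
        intro i
        rw [Subsingleton.elim i 0, Finsupp.single_eq_same]
      by_cases hs0 : s 0 = D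
      · rw [hs, hs0, if_pos rfl, mul_one]
      · rw [if_neg, mul_zero]
        · symm
          apply h1.coeff_eq_zero
          rw [hs, Finsupp.degree_single]
          exact hs0
        · intro he
          apply hs0
          rw [← he, Finsupp.single_eq_same]
    refine (Submodule.finrank_mono h1).trans ?_
    rw [finrank_span_singleton]
    exact pow_ne_zero _ (X_ne_zero _)
  · obtain ⟨v, hv, hv0⟩ := Submodule.exists_mem_ne_zero_of_ne_bot hV0
    obtain ⟨z, hz⟩ := exists_eval_ne_zero hv0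
    have h1 := finrank_map_le_rk V (fun x : Fin n × Fin 1 => z x.1)
    refine le_trans ?_ h1
    rw [Nat.one_le_iff_ne_zero]
    intro h0
    rw [Submodule.finrank_eq_zero] at h0
    have h2 : sub (fun x : Fin n × Fin 1 => z x.1) v ∈
        V.map (sub (fun x : Fin n × Fin 1 => z x.1)).toLinearMap := ⟨v, hv, rfl⟩
    rw [h0, Submodule.mem_bot] at h2
    have h3 := eval_sub (fun x : Fin n × Fin 1 => z x.1) v (fun _ => 1)
    rw [h2, map_zero] at h3
    apply hz
    rw [h3]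
    congr 2
    funext i
    simp [mv]

/-- The facts about the sequence of ranks. -/
structure Seq (n m : ℕ) (r : ℕ → ℕ) (t : ℕ) : Prop where
  htn : t ≤ n
  hrn : r n = m
  h0 : r 0 = 0
  h1 : r 1 = 1
  hpos : ∀ j, 1 ≤ j → j ≤ n → r (j - 1) + 1 ≤ r j
  hL : ∀ j, 3 ≤ j → j ≤ t → r (j - 1) + (j + 1) ≤ r j
  hS : ∀ j, 3 ≤ j → t < j → j ≤ n → r j + r (j - 2) ≤ 2 * r (j - 1)
  hP : ∀ j, 3 ≤ j → t < j → j < n → r j + r (j - 2) = 2 * r (j - 1) →
    r j + 1 < r (j - 1) + j → r j + j ≤ j * (r j - r (j - 1))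
  hTop : t < n → r n + r (n - 2) = 2 * r (n - 1) → r n + 1 < r (n - 1) + n → False
  hSA : ∀ j, 3 ≤ j → j ≤ n → r (j - 2) + r 2 ≤ r j
  h2 : r 2 ≤ 3 → r 3 ≤ r 2 + 1

/-- The setting: a homogeneous coprime family with the divisibility, degree at least three, and
an indefinite quotient. -/
structure Setting (n m D ρ : ℕ) (p : Fin m → MvPolynomial (Fin n) ℂ)
    (A : MvPolynomial (Fin n ⊕ Fin n) ℂ)
    (V : Submodule ℂ (MvPolynomial (Fin n) ℂ))
    (f : Fin ρ → MvPolynomial (Fin n) ℂ) (ε : Fin ρ → ℝ) : Prop where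
  hp : LinearIndependent ℂ p
  hV : V = Submodule.span ℂ (Set.range p)
  hhom : ∀ i, (p i).IsHomogeneous D
  hD : 3 ≤ D
  hcop : Cop V
  hA : ∑ i, rename Sum.inl (p i) * rename Sum.inr (cj (p i)) = q n * A
  hf : LinearIndependent ℂ f
  hε : ∀ k, ε k = 1 ∨ ε k = -1
  hAe : A = dg f ε
  hne : ∃ k, ε k = -1

namespace Setting

variable {ρ : ℕ} {p : Fin m → MvPolynomial (Fin n) ℂ}
    {A : MvPolynomial (Fin n ⊕ Fin n) ℂ} {V : Submodule ℂ (MvPolynomial (Fin n) ℂ)}
    {f : Fin ρ → MvPolynomial (Fin n) ℂ} {ε : Fin ρ → ℝ}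

theorem hVD (s : Setting n m D ρ p A V f ε) :
    V ≤ homogeneousSubmodule (Fin n) ℂ D := by
  rw [s.hV, Submodule.span_le]
  rintro _ ⟨i, rfl⟩
  exact s.hhom i

theorem fd (s : Setting n m D ρ p A V f ε) : FiniteDimensional ℂ V := fd_of_span s.hV

theorem finrank_V (s : Setting n m D ρ p A V f ε) : finrank ℂ V = m := by
  rw [s.hV, finrank_span_eq_card s.hp, Fintype.card_fin]

theorem m_ne_zero (s : Setting n m D ρ p A V f ε) : m ≠ 0 := by
  rintro rfl
  have h1 := s.hA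
  rw [Finset.univ_eq_empty, Finset.sum_empty] at h1
  obtain ⟨k, -⟩ := s.hne
  have h2 : A = 0 := by
    rcases Nat.eq_zero_or_pos n with hn | hn
    · exfalso
      -- every polynomial is a constant, but the degree is positive
      subst hn
      have h3 := s.hcop 0 (fun v hv => by
        rw [s.hV, Set.range_eq_empty, Submodule.span_empty, Submodule.mem_bot] at hv
        rw [hv])
      exact not_isUnit_zero h3
    · exact (mul_eq_zero.mp h1.symm).resolve_left (q_ne_zero hn)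
  have h4 := dg_mem f ε
  have h5 := span_le_of_gen_dg s.hf s.hε ⊥ (Gen.of_forall fun b => by
    rw [← s.hAe, h2, map_zero]
    exact Submodule.zero_mem _)
  have h6 := h5 (Submodule.subset_span ⟨k, rfl⟩)
  rw [Submodule.mem_bot] at h6
  exact s.hf.ne_zero k h6

theorem V_ne_bot (s : Setting n m D ρ p A V f ε) : V ≠ ⊥ := by
  intro h
  have h1 := s.finrank_V
  rw [h, finrank_bot] at h1
  exact s.m_ne_zero h1.symm

theorem recH (s : Setting n m D ρ p A V f ε) {j : ℕ} (hj : 2 ≤ j) (hjn : j ≤ n) :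
    RecHyp p A V j := by
  intro Φ hΦ
  obtain ⟨g₀, T, hT, hg₀, -, hcop, hrk, hρ, hid⟩ := exists_good_isometry hj hjn p A
    (D := D) (by rw [← s.hV]; exact s.hVD) (by rw [← s.hV]; exact s.hcop) s.hA Φ hΦ
  rw [← s.hV] at hcop hrk
  exact ⟨mulr g₀ T, g₀, T, hT, rfl, hg₀, hcop, hrk, resA (mulr g₀ T) A, hid, hρ⟩

/-- The sequence of ranks satisfies the numerical conditions, unless the conclusion holds. -/
theorem seq (s : Setting n m D ρ p A V f ε) (hn : 3 ≤ n)
    (hX : rk V 2 ≤ 3 → rk V 3 ≤ rk V 2 + 1) :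
    Gapless n m ∨ ∃ t, (∀ j, 3 ≤ j → j ≤ t → ¬ St V j) ∧ (∀ j, t < j → j ≤ n → St V j) ∧
      Seq n m (rk V) t := by
  classical
  have hfd := s.fd
  have h0 : rk V 0 = 0 := rk_zero s.hVD (by have := s.hD; omega)
  have h1 : rk V 1 = 1 := rk_one s.hVD s.V_ne_bot
  have hrn : rk V n = m := by rw [rk_self, s.finrank_V]
  obtain ⟨t, ht⟩ : ∃ t, t = Nat.findGreatest (fun j => ¬ St V j) n := ⟨_, rfl⟩
  have htn : t ≤ n := ht ▸ Nat.findGreatest_le n
  have hSt : ∀ j, t < j → j ≤ n → St V j := by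
    intro j hj hjn
    have := Nat.findGreatest_is_greatest (P := fun j => ¬ St V j) (ht ▸ hj) hjn
    simpa using this
  have hnSt : ∀ j, 3 ≤ j → j ≤ t → ¬ St V j := by
    intro j hj hjt hS
    have h3 : ¬ St V t := Nat.findGreatest_of_ne_zero (P := fun j => ¬ St V j) ht.symm
      (by omega)
    exact h3 (hS.mono (by omega) hjt)
  have hrk1 : ∀ j, 1 ≤ j → j ≤ n → rk V j ≠ 0 := by
    intro j hj hjn h3
    obtain ⟨v, hv, hv0⟩ := Submodule.exists_mem_ne_zero_of_ne_bot s.V_ne_bot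
    obtain ⟨z, hz⟩ := exists_eval_ne_zero hv0
    have h4 := finrank_map_le_rk V (fun x : Fin n × Fin j => z x.1)
    rw [h3, Nat.le_zero, Submodule.finrank_eq_zero] at h4
    have h5 : sub (fun x : Fin n × Fin j => z x.1) v ∈
        V.map (sub (fun x : Fin n × Fin j => z x.1)).toLinearMap := ⟨v, hv, rfl⟩
    rw [h4, Submodule.mem_bot] at h5
    have h6 := eval_sub (fun x : Fin n × Fin j => z x.1) v (Pi.single ⟨0, hj⟩ 1)
    rw [h5, map_zero] at h6
    apply hz
    rw [h6]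
    congr 2
    funext i
    simp [mv, Pi.single_apply]
  have hpos : ∀ j, 1 ≤ j → j ≤ n → rk V (j - 1) + 1 ≤ rk V j := by
    intro j hj hjn
    rcases Nat.lt_or_ge j 2 with h | h
    · obtain rfl : j = 1 := by omega
      rw [Nat.sub_self, h0, h1]
    · obtain ⟨k, rfl⟩ : ∃ k, j = k + 1 := ⟨j - 1, by omega⟩
      rw [Nat.add_sub_cancel]
      exact facts_pos s.hV (s.recH h hjn) (hrk1 _ hj hjn)
  by_cases htop : t < n ∧ rk V n + rk V (n - 2) = 2 * rk V (n - 1) ∧
      rk V n + 1 < rk V (n - 1) + n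
  · left
    obtain ⟨htn', heq, hlt⟩ := htop
    obtain ⟨k, rfl⟩ : ∃ k, n = k + 2 := ⟨n - 2, by omega⟩
    exact facts_top s.hp s.hV (s.recH (by omega) le_rfl) (hSt _ htn' le_rfl) heq hlt
  · right
    refine ⟨t, hnSt, hSt, ⟨htn, hrn, h0, h1, hpos, ?_, ?_, ?_, ?_, ?_, hX⟩⟩
    · intro j hj hjt
      obtain ⟨k, rfl⟩ : ∃ k, j = k + 2 := ⟨j - 2, by omega⟩
      exact facts_L s.hhom s.hD s.hV (by omega) (s.recH (by omega) (by omega)) (hnSt _ hj hjt)
    · intro j hj htj hjn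
      obtain ⟨k, rfl⟩ : ∃ k, j = k + 2 := ⟨j - 2, by omega⟩
      exact facts_S s.hV (s.recH (by omega) (by omega)) (hSt _ htj hjn)
    · intro j hj htj hjn heq hlt
      obtain ⟨k, rfl⟩ : ∃ k, j = k + 2 := ⟨j - 2, by omega⟩
      exact facts_P s.hf s.hε s.hAe s.hne s.hA s.hV (s.recH (by omega) (by omega))
        (hSt _ htj (by omega)) heq hlt
    · intro h3 h4 h5
      exact htop ⟨h3, h4, h5⟩
    · intro j hj hjn
      obtain ⟨k, rfl⟩ : ∃ k, j = k + 2 := ⟨j - 2, by omega⟩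
      obtain ⟨g, g₀, T, hT, hg, -, hcop, hrk, A', hA', -⟩ :=
        s.recH (by omega) hjn 1 one_ne_zero
      have h3 := superadd (fun i => sub g (p i)) A' hA'
      rw [← map_span_sub, ← s.hV, ← rk_self, hrk (k + 2) le_rfl, hrk 2 (by omega),
        hrk k (by omega)] at h3
      exact h3

end Setting

end Pool.Agent.Lib_helper26.Ebe
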