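import Pool.Agent.Lib_helper26.Ebe.Defs

/-!
# Generic properties
-/

namespace Pool.Agent.Lib_helper26.Ebe

open MvPolynomial Pool.Agent.Lib_helper26.SOS

section Gen

variable {τ σ : Type*}

theorem Gen.mono {P Q : (τ → ℂ) → Prop} (h : Gen P) (hPQ : ∀ x, P x → Q x) : Gen Q := by
  obtain ⟨Φ, h0, hΦ⟩ := h
  exact ⟨Φ, h0, fun x hx => hPQ x (hΦ x hx)⟩

theorem Gen.and {P Q : (τ → ℂ) → Prop} (hP : Gen P) (hQ : Gen Q) :
    Gen (fun x => P x ∧ Q x) := by
  obtain ⟨Φ, h0, hΦ⟩ := hP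
  obtain ⟨Ψ, h1, hΨ⟩ := hQ
  refine ⟨Φ * Ψ, mul_ne_zero h0 h1, fun x hx => ?_⟩
  rw [map_mul] at hx
  exact ⟨hΦ x (left_ne_zero_of_mul hx), hΨ x (right_ne_zero_of_mul hx)⟩

theorem Gen.of_forall {P : (τ → ℂ) → Prop} (h : ∀ x, P x) : Gen P :=
  ⟨1, one_ne_zero, fun x _ => h x⟩

theorem exists_eval_ne_zero {Φ : MvPolynomial τ ℂ} (h : Φ ≠ 0) : ∃ x, eval x Φ ≠ 0 := by
  by_contra hc
  push Not at hc
  exact h (MvPolynomial.funext fun x => by rw [hc x, map_zero])

theorem Gen.exists {P : (τ → ℂ) → Prop} (h : Gen P) : ∃ x, P x := by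
  obtain ⟨Φ, h0, hΦ⟩ := h
  obtain ⟨x, hx⟩ := exists_eval_ne_zero h0
  exact ⟨x, hΦ x hx⟩

/-- The polynomial `Φ` on `ℂ^τ × ℂ^σ` as a polynomial in the second variables. -/
noncomputable def curry (Φ : MvPolynomial (τ ⊕ σ) ℂ) : MvPolynomial σ (MvPolynomial τ ℂ) :=
  aeval (Sum.elim (fun i => C (X i)) (fun j => X j)) Φ

theorem eval_curry (Φ : MvPolynomial (τ ⊕ σ) ℂ) (a : τ → ℂ) (b : σ → ℂ) :
    eval b (map (eval a) (curry Φ)) = eval (Sum.elim a b) Φ := by
  have : (((aeval b : MvPolynomial σ ℂ →ₐ[ℂ] ℂ) : MvPolynomial σ ℂ →+* ℂ).comp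
      ((map (eval a)).comp
        ((aeval (Sum.elim (fun i => C (X i)) (fun j => X j)) :
          MvPolynomial (τ ⊕ σ) ℂ →ₐ[ℂ] MvPolynomial σ (MvPolynomial τ ℂ)) :
          MvPolynomial (τ ⊕ σ) ℂ →+* MvPolynomial σ (MvPolynomial τ ℂ)))) =
      eval (Sum.elim a b) := by
    apply MvPolynomial.ringHom_ext
    · intro r
      simp [MvPolynomial.algebraMap_eq]
    · intro i
      rcases i with i | i <;> simp
  have h2 := RingHom.congr_fun this Φ
  simpa [curry, MvPolynomial.coe_aeval_eq_eval] using h2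

theorem Gen.pair {P : (τ ⊕ σ → ℂ) → Prop} (h : Gen P) :
    Gen (fun a => Gen (fun b => P (Sum.elim a b))) := by
  obtain ⟨Φ, h0, hΦ⟩ := h
  obtain ⟨x, hx⟩ := exists_eval_ne_zero h0
  have hc : curry Φ ≠ 0 := by
    intro hc
    apply hx
    have := eval_curry Φ (x ∘ Sum.inl) (x ∘ Sum.inr)
    rw [hc, map_zero, map_zero] at this
    rw [show x = Sum.elim (x ∘ Sum.inl) (x ∘ Sum.inr) from (Sum.elim_comp_inl_inr x).symm]
    exact this.symm
  obtain ⟨m, hm⟩ := MvPolynomial.ne_zero_iff.mp hc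
  refine ⟨coeff m (curry Φ), hm, fun a ha => ⟨map (eval a) (curry Φ), ?_, fun b hb => ?_⟩⟩
  · intro h0
    apply ha
    have := congrArg (coeff m) h0
    rwa [coeff_map, coeff_zero] at this
  · rw [eval_curry] at hb
    exact hΦ _ hb

theorem Gen.swap {P : (τ ⊕ σ → ℂ) → Prop} (h : Gen P) :
    Gen (fun x : σ ⊕ τ → ℂ => P (x ∘ Sum.swap)) := by
  obtain ⟨Φ, h0, hΦ⟩ := h
  refine ⟨rename Sum.swap Φ, ?_, fun x hx => hΦ _ ?_⟩
  · intro hc
    apply h0
    apply rename_injective _ (Sum.swap_leftInverse.injective)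
    rw [hc, map_zero]
  · rwa [eval_rename] at hx

theorem Gen.pair' {P : (τ ⊕ σ → ℂ) → Prop} (h : Gen P) :
    Gen (fun b => Gen (fun a => P (Sum.elim a b))) := by
  refine h.swap.pair.mono fun b hb => hb.mono fun a ha => ?_
  convert ha using 1
  funext i
  rcases i with i | i <;> rfl

/-- On a line through a good point only finitely many points are bad. -/
theorem Gen.line {P : (τ → ℂ) → Prop} (h : Gen P) (b : τ → ℂ) :
    Gen (fun a => {c : ℂ | ¬ P (a + c • b)}.Finite) := by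
  obtain ⟨Φ, h0, hΦ⟩ := h
  refine ⟨Φ, h0, fun a ha => ?_⟩
  let Q : Polynomial ℂ :=
    aeval (fun i => Polynomial.C (a i) + Polynomial.X * Polynomial.C (b i)) Φ
  have hQ : ∀ c : ℂ, Q.eval c = eval (a + c • b) Φ := by
    intro c
    have : ((Polynomial.evalRingHom c).comp
        ((aeval (fun i => Polynomial.C (a i) + Polynomial.X * Polynomial.C (b i)) :
          MvPolynomial τ ℂ →ₐ[ℂ] Polynomial ℂ) : MvPolynomial τ ℂ →+* Polynomial ℂ)) =
        eval (a + c • b) := by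
      apply MvPolynomial.ringHom_ext
      · intro r
        simp [Polynomial.algebraMap_eq]
      · intro i
        simp
        ring
    exact RingHom.congr_fun this Φ
  have hQ0 : Q ≠ 0 := by
    intro hc
    apply ha
    have := hQ 0
    rw [hc, zero_smul, add_zero] at this
    rw [← this, Polynomial.eval_zero]
  refine (Q.rootSet_finite ℂ).subset fun c hc => ?_
  rw [Polynomial.mem_rootSet]
  refine ⟨hQ0, ?_⟩
  rw [Polynomial.coe_aeval_eq_eval, hQ]
  by_contra hne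
  exact hc (hΦ _ hne)

end Gen

end Pool.Agent.Lib_helper26.Ebe
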