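import Pool.Agent.Lib_helper26.Ebe.Gen

/-!
# Polynomial families in moving kernels
-/

namespace Pool.Agent.Lib_helper26.Ebe

open MvPolynomial Module

/-- Either the rows `L`, evaluated at a generic point, have no common nonzero kernel vector, or
they have a common nonzero kernel vector with polynomial entries. -/
theorem kernel_dichotomy {τ ι : Type*} [Fintype ι] (L : Set (ι → MvPolynomial τ ℂ)) :
    Gen (fun b : τ → ℂ => ∀ c : ι → ℂ, (∀ r ∈ L, ∑ j, eval b (r j) * c j = 0) → c = 0) ∨
    ∃ x : ι → MvPolynomial τ ℂ, x ≠ 0 ∧ ∀ r ∈ L, ∑ j, r j * x j = 0 := by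
  classical
  let R := MvPolynomial τ ℂ
  let K := FractionRing R
  let emb : (ι → R) → (ι → K) := fun r j => algebraMap R K (r j)
  have hinj : Function.Injective (algebraMap R K) := IsFractionRing.injective R K
  let W : Submodule K (ι → K) := Submodule.span K (emb '' L)
  by_cases hW : W = ⊤
  · left
    obtain ⟨κ, a, ha, hspan, hli⟩ := exists_linearIndependent' K
      (fun r : L => emb r.1)
    have hspan' : Submodule.span K (Set.range ((fun r : L => emb r.1) ∘ a)) = ⊤ := by
      rw [hspan, ← hW]
      congr 1
      ext v
      constructor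
      · rintro ⟨r, rfl⟩
        exact ⟨r.1, r.2, rfl⟩
      · rintro ⟨r, hr, rfl⟩
        exact ⟨⟨r, hr⟩, rfl⟩
    let B : Basis κ K (ι → K) := Basis.mk hli hspan'.ge
    have hfin : Finite κ := hli.finite
    have := Fintype.ofFinite κ
    let e : κ ≃ ι := B.indexEquiv (Pi.basisFun K ι)
    let M : Matrix ι ι R := Matrix.of fun i j => (a (e.symm i)).1 j
    have hM : M.det ≠ 0 := by
      intro hdet
      have h1 : (M.map (algebraMap R K)).det = 0 := by
        have := RingHom.map_det (algebraMap R K) M
        rw [hdet, map_zero] at this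
        exact this.symm
      obtain ⟨v, hv0, hv⟩ := Matrix.exists_vecMul_eq_zero_iff.mpr h1
      apply hv0
      have h2 := Fintype.linearIndependent_iff.mp hli (fun k => v (e k)) (by
        rw [← hv]
        funext j
        simp only [Matrix.vecMul, dotProduct, Matrix.map_apply, Matrix.of_apply, M,
          Finset.sum_apply, Pi.smul_apply, smul_eq_mul, Function.comp_apply, emb]
        refine Fintype.sum_equiv e _ _ fun k => ?_
        rw [Equiv.symm_apply_apply])
      funext i
      have := h2 (e.symm i)
      rwa [Equiv.apply_symm_apply] at this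
    refine ⟨M.det, hM, fun b hb c hc => ?_⟩
    by_contra hc0
    apply hb
    have h3 : (M.map (eval b)).det = 0 := by
      apply Matrix.exists_mulVec_eq_zero_iff.mp
      refine ⟨c, hc0, ?_⟩
      funext i
      exact hc _ (a (e.symm i)).2
    have := RingHom.map_det (eval b) M
    rw [this]
    exact h3
  · right
    obtain ⟨f, hf0, hf⟩ := Submodule.exists_le_ker_of_lt_top W (lt_top_iff_ne_top.mpr hW)
    have hfe : ∀ v : ι → K, f v = ∑ j, v j * f (Pi.single j 1) := by
      intro v
      conv_lhs => rw [← Finset.univ_sum_single v]
      rw [map_sum]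
      refine Finset.sum_congr rfl fun j _ => ?_
      have : (Pi.single j (v j) : ι → K) = v j • (Pi.single j 1 : ι → K) := by
        rw [← Pi.single_smul, smul_eq_mul, mul_one]
      rw [this, map_smul, smul_eq_mul]
    obtain ⟨d, hd⟩ := IsLocalization.exist_integer_multiples_of_finite (nonZeroDivisors R)
      (fun j => f (Pi.single j 1))
    choose x hx using hd
    have hd0 : algebraMap R K d ≠ 0 := by
      intro h0
      exact nonZeroDivisors.coe_ne_zero d (hinj (by rw [h0, map_zero]))
    refine ⟨x, ?_, fun r hr => ?_⟩
    · rintro rfl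
      apply hf0
      apply LinearMap.ext
      intro v
      rw [hfe, LinearMap.zero_apply]
      refine Finset.sum_eq_zero fun j _ => ?_
      have h1 := hx j
      rw [Pi.zero_apply, map_zero, Algebra.smul_def] at h1
      rw [(mul_eq_zero.mp h1.symm).resolve_left hd0, mul_zero]
    · apply hinj
      rw [map_zero, map_sum]
      have h1 : f (emb r) = 0 := hf (Submodule.subset_span ⟨r, hr, rfl⟩)
      rw [hfe] at h1
      calc ∑ j, algebraMap R K (r j * x j)
          = ∑ j, algebraMap R K d * (emb r j * f (Pi.single j 1)) := by
            refine Finset.sum_congr rfl fun j _ => ?_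
            rw [map_mul, hx j, Algebra.smul_def]
            simp only [emb]
            ring
        _ = 0 := by rw [← Finset.mul_sum, h1, mul_zero]

end Pool.Agent.Lib_helper26.Ebe
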