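import Pool.Agent.Lib_helper26.Ebe.EV

/-!
# Hyperplanes, subspaces of codimension two, ranks
-/

namespace Pool.Agent.Lib_helper26.Ebe

open MvPolynomial Pool.Agent.Lib_helper26.SOS Module

variable {n k : ℕ}

/-- The linear functional with coefficients `a`. -/
noncomputable def krl (a : Fin n → ℂ) : (Fin n → ℂ) →ₗ[ℂ] ℂ := ∑ i, a i • LinearMap.proj i

theorem krl_apply (a z : Fin n → ℂ) : krl a z = ∑ i, a i * z i := by
  simp [krl]

/-- The hyperplane `a · z = 0`. -/
noncomputable def kr (a : Fin n → ℂ) : Submodule ℂ (Fin n → ℂ) := LinearMap.ker (krl a)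

theorem mem_kr {a z : Fin n → ℂ} : z ∈ kr a ↔ ∑ i, a i * z i = 0 := by
  rw [kr, LinearMap.mem_ker, krl_apply]

theorem krl_single (a : Fin n → ℂ) (i : Fin n) (c : ℂ) : krl a (Pi.single i c) = a i * c := by
  rw [krl_apply, Finset.sum_eq_single i]
  · simp
  · intro j _ hj
    simp [hj]
  · simp

theorem krl_ne_zero {a : Fin n → ℂ} (ha : a ≠ 0) : krl a ≠ 0 := by
  obtain ⟨i, hi⟩ := Function.ne_iff.mp ha
  intro h
  have := krl_single a i 1
  rw [h, LinearMap.zero_apply, mul_one] at this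
  exact hi this.symm

/-- The two vectors are linearly independent. -/
def Ind (a b : Fin n → ℂ) : Prop := ∃ i j, a i * b j - a j * b i ≠ 0

theorem Ind.left {a b : Fin n → ℂ} (h : Ind a b) : a ≠ 0 := by
  rintro rfl
  obtain ⟨i, j, h⟩ := h
  simp at h

theorem Ind.right {a b : Fin n → ℂ} (h : Ind a b) : b ≠ 0 := by
  rintro rfl
  obtain ⟨i, j, h⟩ := h
  simp at h

theorem Ind.symm {a b : Fin n → ℂ} (h : Ind a b) : Ind b a := by
  obtain ⟨i, j, h⟩ := h
  exact ⟨j, i, fun h0 => h (by linear_combination h0)⟩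

theorem eq_smul_of_not_ind {a b : Fin n → ℂ} (h : ¬ Ind a b) (hb : b ≠ 0) :
    ∃ c : ℂ, a = c • b := by
  obtain ⟨i, hi⟩ := Function.ne_iff.mp hb
  refine ⟨a i / b i, ?_⟩
  funext j
  have : a i * b j - a j * b i = 0 := by
    by_contra hc
    exact h ⟨i, j, hc⟩
  have hi' : b i ≠ 0 := hi
  rw [Pi.smul_apply, smul_eq_mul]
  field_simp
  linear_combination -this

theorem Ind.line {a b : Fin n → ℂ} (h : Ind a b) (c : ℂ) : Ind (a + c • b) b := by
  obtain ⟨i, j, h⟩ := h
  refine ⟨i, j, fun h0 => h ?_⟩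
  simp only [Pi.add_apply, Pi.smul_apply, smul_eq_mul] at h0
  linear_combination h0

theorem Ind.line' {a b : Fin n → ℂ} (h : Ind a b) {c : ℂ} (hc : c ≠ 0) :
    Ind (a + c • b) a := by
  obtain ⟨i, j, h⟩ := h
  refine ⟨i, j, fun h0 => h ?_⟩
  simp only [Pi.add_apply, Pi.smul_apply, smul_eq_mul] at h0
  have : c * (a i * b j - a j * b i) = 0 := by linear_combination -h0
  exact (mul_eq_zero.mp this).resolve_left hc

theorem gen_ne_zero (hn : 1 ≤ n) : Gen (fun a : Fin n → ℂ => a ≠ 0) := by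
  refine ⟨X ⟨0, hn⟩, X_ne_zero _, fun a ha => ?_⟩
  rintro rfl
  simp at ha

theorem gen_ind (hn : 2 ≤ n) :
    Gen (fun x : Fin n ⊕ Fin n → ℂ => Ind (x ∘ Sum.inl) (x ∘ Sum.inr)) := by
  refine ⟨X (Sum.inl ⟨0, by omega⟩) * X (Sum.inr ⟨1, by omega⟩) -
    X (Sum.inl ⟨1, by omega⟩) * X (Sum.inr ⟨0, by omega⟩), ?_, fun x hx => ?_⟩
  · intro h
    have := congrArg (eval (Sum.elim (Pi.single ⟨0, by omega⟩ 1) (Pi.single ⟨1, by omega⟩ 1))) h
    simp at this
  · refine ⟨⟨0, by omega⟩, ⟨1, by omega⟩, ?_⟩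
    simpa using hx

/-- Moving hyperplane. -/
def kerF (n : ℕ) : Set (Fin n → MvPolynomial (Fin n) ℂ) :=
  {Y | ∃ y e : Fin n → ℂ, Y = fun i =>
    (∑ j, C (e j) * X j) * C (y i) - (∑ j, C (y j) * X j) * C (e i)}

theorem Zs_kerF {a : Fin n → ℂ} (ha : a ≠ 0) : Zs (kerF n) a = kr a := by
  ext z
  constructor
  · rintro ⟨Y, ⟨y, e, rfl⟩, rfl⟩
    rw [SetLike.mem_coe, mem_kr]
    have h1 : ∀ e : Fin n → ℂ, eval a (∑ j, C (e j) * X j) = ∑ j, a j * e j := by
      intro e
      rw [map_sum]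
      exact Finset.sum_congr rfl fun j _ => by simp [mul_comm]
    simp only [map_sub, map_mul, eval_C, h1]
    have : ∑ i, a i * ((∑ j, a j * e j) * y i - (∑ j, a j * y j) * e i) =
        (∑ j, a j * e j) * (∑ i, a i * y i) - (∑ j, a j * y j) * (∑ i, a i * e i) := by
      rw [Finset.mul_sum, Finset.mul_sum, ← Finset.sum_sub_distrib]
      exact Finset.sum_congr rfl fun j _ => by ring
    rw [this]
    ring
  · intro hz
    rw [SetLike.mem_coe, mem_kr] at hz
    obtain ⟨i, hi⟩ := Function.ne_iff.mp ha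
    have hi' : a i ≠ 0 := hi
    refine ⟨_, ⟨z, Pi.single i (a i)⁻¹, rfl⟩, ?_⟩
    funext l
    have h1 : eval a (∑ j, C (z j) * X j) = 0 := by
      rw [map_sum, ← hz]
      exact Finset.sum_congr rfl fun j _ => by simp [mul_comm]
    have h2 : eval a (∑ j, C ((Pi.single i (a i)⁻¹ : Fin n → ℂ) j) * X j) = 1 := by
      rw [map_sum, Finset.sum_eq_single i]
      · simp [hi']
      · intro j _ hj
        simp [hj]
      · simp
    rw [map_sub, map_mul, map_mul, h1, h2]
    simp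

/-- Moving union of two hyperplanes. -/
def kerFU (n : ℕ) : Set (Fin n → MvPolynomial (Fin n ⊕ Fin n) ℂ) :=
  {Y | ∃ y ∈ kerF n, Y = fun i => rename Sum.inl (y i)} ∪
    {Y | ∃ y ∈ kerF n, Y = fun i => rename Sum.inr (y i)}

theorem Zs_kerFU {a b : Fin n → ℂ} (ha : a ≠ 0) (hb : b ≠ 0) :
    Zs (kerFU n) (Sum.elim a b) = (kr a : Set (Fin n → ℂ)) ∪ kr b := by
  rw [← Zs_kerF ha, ← Zs_kerF hb]
  ext z
  constructor
  · rintro ⟨Y, ⟨y, hy, rfl⟩ | ⟨y, hy, rfl⟩, rfl⟩
    · exact Or.inl ⟨y, hy, by funext i; rw [eval_rename_inl]⟩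
    · exact Or.inr ⟨y, hy, by funext i; rw [eval_rename_inr]⟩
  · rintro (⟨y, hy, rfl⟩ | ⟨y, hy, rfl⟩)
    · exact ⟨_, Or.inl ⟨y, hy, rfl⟩, by funext i; rw [eval_rename_inl]⟩
    · exact ⟨_, Or.inr ⟨y, hy, rfl⟩, by funext i; rw [eval_rename_inr]⟩

/-- Moving subspace of codimension two. -/
def kerF2 (n : ℕ) : Set (Fin n → MvPolynomial (Fin n ⊕ Fin n) ℂ) :=
  {Y | ∃ y e f : Fin n → ℂ, Y = fun i =>
    ((∑ j, C (e j) * X (Sum.inl j)) * (∑ j, C (f j) * X (Sum.inr j)) -
      (∑ j, C (f j) * X (Sum.inl j)) * (∑ j, C (e j) * X (Sum.inr j))) * C (y i) -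
    ((∑ j, C (y j) * X (Sum.inl j)) * (∑ j, C (f j) * X (Sum.inr j)) -
      (∑ j, C (f j) * X (Sum.inl j)) * (∑ j, C (y j) * X (Sum.inr j))) * C (e i) -
    ((∑ j, C (e j) * X (Sum.inl j)) * (∑ j, C (y j) * X (Sum.inr j)) -
      (∑ j, C (y j) * X (Sum.inl j)) * (∑ j, C (e j) * X (Sum.inr j))) * C (f i)}

theorem Zs_kerF2 {a b : Fin n → ℂ} (h : Ind a b) :
    Zs (kerF2 n) (Sum.elim a b) = (kr a : Set (Fin n → ℂ)) ∩ kr b := by
  have hl : ∀ e : Fin n → ℂ, eval (Sum.elim a b) (∑ j, C (e j) * X (Sum.inl j)) =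
      ∑ j, a j * e j := by
    intro e
    rw [map_sum]
    exact Finset.sum_congr rfl fun j _ => by simp [mul_comm]
  have hr : ∀ e : Fin n → ℂ, eval (Sum.elim a b) (∑ j, C (e j) * X (Sum.inr j)) =
      ∑ j, b j * e j := by
    intro e
    rw [map_sum]
    exact Finset.sum_congr rfl fun j _ => by simp [mul_comm]
  ext z
  constructor
  · rintro ⟨Y, ⟨y, e, f, rfl⟩, rfl⟩
    simp only [map_sub, map_mul, eval_C, hl, hr]
    constructor
    · rw [SetLike.mem_coe, mem_kr]
      have : ∀ (p q r : ℂ) , ∑ i, a i * (p * y i - q * e i - r * f i) =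
          p * (∑ i, a i * y i) - q * (∑ i, a i * e i) - r * (∑ i, a i * f i) := by
        intro p q r
        rw [Finset.mul_sum, Finset.mul_sum, Finset.mul_sum, ← Finset.sum_sub_distrib,
          ← Finset.sum_sub_distrib]
        exact Finset.sum_congr rfl fun j _ => by ring
      rw [this]
      ring
    · rw [SetLike.mem_coe, mem_kr]
      have : ∀ (p q r : ℂ) , ∑ i, b i * (p * y i - q * e i - r * f i) =
          p * (∑ i, b i * y i) - q * (∑ i, b i * e i) - r * (∑ i, b i * f i) := by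
        intro p q r
        rw [Finset.mul_sum, Finset.mul_sum, Finset.mul_sum, ← Finset.sum_sub_distrib,
          ← Finset.sum_sub_distrib]
        exact Finset.sum_congr rfl fun j _ => by ring
      rw [this]
      ring
  · rintro ⟨hz, hz'⟩
    rw [SetLike.mem_coe, mem_kr] at hz hz'
    obtain ⟨i, j, hij⟩ := h
    refine ⟨_, ⟨z, Pi.single i (a i * b j - a j * b i)⁻¹, Pi.single j 1, rfl⟩, ?_⟩
    funext l
    have hs : ∀ (c : Fin n → ℂ) (i : Fin n) (t : ℂ),
        ∑ l, c l * (Pi.single i t : Fin n → ℂ) l = c i * t := by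
      intro c i t
      rw [← krl_apply, krl_single]
    simp only [map_sub, map_mul, eval_C, hl, hr, hs, hz, hz']
    field_simp
    ring

theorem exists_range_mv (L : Submodule ℂ (Fin n → ℂ)) (hL : finrank ℂ L = k) :
    ∃ g : Fin n × Fin k → ℂ, Set.range (mv g) = L ∧ Function.Injective (mv g) := by
  subst hL
  let w := finBasis ℂ L
  have hmv : ∀ x : Fin (finrank ℂ L) → ℂ,
      mv (fun x => (w x.2 : Fin n → ℂ) x.1) x = ((∑ j, x j • w j : L) : Fin n → ℂ) := by
    intro x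
    funext i
    rw [Submodule.coe_sum, Finset.sum_apply]
    unfold mv
    refine Finset.sum_congr rfl fun j _ => ?_
    rw [Submodule.coe_smul, Pi.smul_apply, smul_eq_mul, mul_comm]
  refine ⟨fun x => (w x.2 : Fin n → ℂ) x.1, ?_, ?_⟩
  · ext z
    constructor
    · rintro ⟨x, rfl⟩
      rw [hmv]
      exact Submodule.coe_mem _
    · intro hz
      refine ⟨fun j => w.repr ⟨z, hz⟩ j, ?_⟩
      rw [hmv, w.sum_repr]
  · intro x x' h
    rw [hmv, hmv] at h
    have h2 := Subtype.ext h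
    have h3 := congrArg w.repr h2
    funext j
    have h4 := DFunLike.congr_fun h3 j
    simpa [Finsupp.single_apply] using h4

theorem eval_sub (g : Fin n × Fin k → ℂ) (f : MvPolynomial (Fin n) ℂ) (x : Fin k → ℂ) :
    eval x (sub g f) = eval (mv g x) f := by
  have : ((eval x).comp ((sub g : MvPolynomial (Fin n) ℂ →ₐ[ℂ] MvPolynomial (Fin k) ℂ) :
      MvPolynomial (Fin n) ℂ →+* MvPolynomial (Fin k) ℂ)) = eval (mv g x) := by
    apply MvPolynomial.ringHom_ext
    · intro r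
      simp [sub, MvPolynomial.algebraMap_eq]
    · intro i
      simp [sub, mv]
  exact RingHom.congr_fun this f

theorem sub_eq_zero_iff (g : Fin n × Fin k → ℂ) (f : MvPolynomial (Fin n) ℂ) :
    sub g f = 0 ↔ ∀ z ∈ Set.range (mv g), eval z f = 0 := by
  constructor
  · rintro h z ⟨x, rfl⟩
    rw [← eval_sub, h, map_zero]
  · intro h
    apply MvPolynomial.funext
    intro x
    rw [eval_sub, map_zero]
    exact h _ ⟨x, rfl⟩

/-- Rank–nullity for the restriction to the range of `g`. -/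
theorem finrank_map_add_van (V : Submodule ℂ (MvPolynomial (Fin n) ℂ)) [FiniteDimensional ℂ V]
    (g : Fin n × Fin k → ℂ) :
    finrank ℂ (V.map (sub g).toLinearMap) + finrank ℂ (van V (Set.range (mv g))) =
      finrank ℂ V := by
  have h := ((sub g).toLinearMap.domRestrict V).finrank_range_add_finrank_ker
  have h1 : LinearMap.range ((sub g).toLinearMap.domRestrict V) =
      V.map (sub g).toLinearMap := by
    rw [LinearMap.range_domRestrict]
  have h2 : LinearMap.ker ((sub g).toLinearMap.domRestrict V) =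
      (van V (Set.range (mv g))).comap V.subtype := by
    ext v
    rw [LinearMap.mem_ker, LinearMap.domRestrict_apply, Submodule.mem_comap, mem_van,
      AlgHom.toLinearMap_apply, sub_eq_zero_iff]
    exact ⟨fun h => ⟨v.2, h⟩, fun h => h.2⟩
  rw [h1, h2] at h
  rw [← h, (Submodule.comapSubtypeEquivOfLe (van_le V (Set.range (mv g)))).finrank_eq]

/-- Moving `k`-dimensional subspace. -/
def rangeF (n k : ℕ) : Set (Fin n → MvPolynomial (Fin n × Fin k) ℂ) :=
  {Y | ∃ x : Fin k → ℂ, Y = fun i => ∑ j, X (i, j) * C (x j)}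

theorem Zs_rangeF (g : Fin n × Fin k → ℂ) : Zs (rangeF n k) g = Set.range (mv g) := by
  ext z
  constructor
  · rintro ⟨Y, ⟨x, rfl⟩, rfl⟩
    refine ⟨x, ?_⟩
    funext i
    simp [mv]
  · rintro ⟨x, rfl⟩
    refine ⟨_, ⟨x, rfl⟩, ?_⟩
    funext i
    simp [mv]

theorem rk_add_mvan (V : Submodule ℂ (MvPolynomial (Fin n) ℂ)) [FiniteDimensional ℂ V] (k : ℕ) :
    rk V k + mvan V (rangeF n k) = finrank ℂ V := by
  obtain ⟨g, hg⟩ := exists_mvan V (rangeF n k)
  rw [Zs_rangeF] at hg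
  have h1 := finrank_map_add_van V g
  have hbdd : BddAbove {r | ∃ g : Fin n × Fin k → ℂ,
      r = finrank ℂ (V.map (sub g).toLinearMap)} := by
    refine ⟨finrank ℂ V, ?_⟩
    rintro r ⟨g, rfl⟩
    have := finrank_map_add_van V g
    omega
  have h2 : rk V k = finrank ℂ (V.map (sub g).toLinearMap) := by
    apply le_antisymm
    · refine csSup_le' ?_
      rintro r ⟨g', rfl⟩
      have h3 := finrank_map_add_van V g'
      have h4 := mvan_le V (rangeF n k) g'
      rw [Zs_rangeF] at h4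
      omega
    · exact le_csSup hbdd ⟨g, rfl⟩
  rw [h2, hg]
  exact h1

theorem finrank_map_le_rk (V : Submodule ℂ (MvPolynomial (Fin n) ℂ)) [FiniteDimensional ℂ V]
    (g : Fin n × Fin k → ℂ) : finrank ℂ (V.map (sub g).toLinearMap) ≤ rk V k := by
  have h1 := finrank_map_add_van V g
  have h2 := rk_add_mvan V k
  have h3 := mvan_le V (rangeF n k) g
  rw [Zs_rangeF] at h3
  omega

theorem exists_rk (V : Submodule ℂ (MvPolynomial (Fin n) ℂ)) [FiniteDimensional ℂ V] (k : ℕ) :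
    ∃ g : Fin n × Fin k → ℂ, finrank ℂ (V.map (sub g).toLinearMap) = rk V k := by
  obtain ⟨g, hg⟩ := exists_mvan V (rangeF n k)
  refine ⟨g, ?_⟩
  have h1 := finrank_map_add_van V g
  have h2 := rk_add_mvan V k
  rw [Zs_rangeF] at hg
  omega

theorem gen_rk (V : Submodule ℂ (MvPolynomial (Fin n) ℂ)) [FiniteDimensional ℂ V] (k : ℕ) :
    Gen (fun g : Fin n × Fin k → ℂ => finrank ℂ (V.map (sub g).toLinearMap) = rk V k) := by
  refine (gen_mvan V (rangeF n k)).mono fun g hg => ?_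
  have h1 := finrank_map_add_van V g
  have h2 := rk_add_mvan V k
  rw [Zs_rangeF] at hg
  omega

theorem exists_le_kr (L : Submodule ℂ (Fin n → ℂ)) (hL : finrank ℂ L < n) :
    ∃ a : Fin n → ℂ, a ≠ 0 ∧ L ≤ kr a := by
  have hlt : L < ⊤ := by
    apply lt_top_iff_ne_top.mpr
    rintro rfl
    rw [finrank_top, finrank_fin_fun] at hL
    exact lt_irrefl _ hL
  obtain ⟨f, hf0, hf⟩ := Submodule.exists_le_ker_of_lt_top L hlt
  have hfk : f = krl (fun i => f (Pi.single i 1)) := by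
    apply (Pi.basisFun ℂ (Fin n)).ext
    intro i
    rw [Pi.basisFun_apply, krl_single, mul_one]
  refine ⟨fun i => f (Pi.single i 1), ?_, ?_⟩
  · intro h0
    apply hf0
    rw [hfk, h0]
    ext
    simp [krl]
  · rw [kr, ← hfk]
    exact hf

theorem exists_le_kr2 (L : Submodule ℂ (Fin n → ℂ)) (hL : finrank ℂ L + 2 ≤ n) :
    ∃ a b : Fin n → ℂ, Ind a b ∧ L ≤ kr a ∧ L ≤ kr b := by
  obtain ⟨a, ha0, ha⟩ := exists_le_kr L (by omega)
  obtain ⟨i, hi⟩ := Function.ne_iff.mp ha0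
  have hlt : finrank ℂ ↥(L ⊔ ℂ ∙ (Pi.single i 1 : Fin n → ℂ)) < n := by
    have := Submodule.finrank_add_le_finrank_add_finrank L (ℂ ∙ (Pi.single i 1 : Fin n → ℂ))
    have h2 := finrank_span_singleton (K := ℂ) (v := (Pi.single i 1 : Fin n → ℂ))
      (by intro h; have := congrFun h i; simp at this)
    omega
  obtain ⟨b, hb0, hb⟩ := exists_le_kr _ hlt
  refine ⟨a, b, ?_, ha, le_sup_left.trans hb⟩
  have hbi : b i = 0 := by
    have : (Pi.single i 1 : Fin n → ℂ) ∈ kr b :=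
      hb (Submodule.mem_sup_right (Submodule.mem_span_singleton_self _))
    rw [kr, LinearMap.mem_ker, krl_single, mul_one] at this
    exact this
  obtain ⟨j, hj⟩ := Function.ne_iff.mp hb0
  refine ⟨i, j, ?_⟩
  rw [hbi, mul_zero, sub_zero]
  exact mul_ne_zero hi hj

theorem finrank_kr {a : Fin n → ℂ} (ha : a ≠ 0) : finrank ℂ (kr a) + 1 = n := by
  have := Module.Dual.finrank_ker_add_one_of_ne_zero (krl_ne_zero ha)
  rw [finrank_fin_fun] at this
  exact this

theorem finrank_kr_inf {a b : Fin n → ℂ} (h : Ind a b) :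
    finrank ℂ ↥(kr a ⊓ kr b) + 2 = n := by
  have h1 : kr a ⊔ kr b = ⊤ := by
    by_contra hne
    have hlt : kr a < kr a ⊔ kr b := by
      refine lt_of_le_of_ne le_sup_left fun he => ?_
      have hle : kr b ≤ kr a := he ▸ le_sup_right
      have heq : kr b = kr a :=
        Submodule.eq_of_le_of_finrank_eq hle (by
          have := finrank_kr h.left
          have := finrank_kr h.right
          omega)
      obtain ⟨i, j, hij⟩ := h
      apply hij
      have hm : (Pi.single i (b j) - Pi.single j (b i) : Fin n → ℂ) ∈ kr b := by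
        rw [kr, LinearMap.mem_ker, map_sub, krl_single, krl_single]
        ring
      rw [heq, kr, LinearMap.mem_ker, map_sub, krl_single, krl_single] at hm
      exact hm
    have h2 := Submodule.finrank_lt_finrank_of_lt hlt
    have h3 := Submodule.finrank_lt (lt_top_iff_ne_top.mpr hne).ne
    rw [finrank_fin_fun] at h3
    have := finrank_kr h.left
    omega
  have h2 := Submodule.finrank_sup_add_finrank_inf_eq (kr a) (kr b)
  rw [h1, finrank_top, finrank_fin_fun] at h2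
  have := finrank_kr h.left
  have := finrank_kr h.right
  omega

/-- The range of `mv g` as a submodule. -/
noncomputable def mvS (g : Fin n × Fin k → ℂ) : Submodule ℂ (Fin n → ℂ) :=
  LinearMap.range (Matrix.toLin' (Matrix.of fun i j => g (i, j)))

theorem coe_mvS (g : Fin n × Fin k → ℂ) : (mvS g : Set (Fin n → ℂ)) = Set.range (mv g) := by
  rw [mvS, LinearMap.coe_range]
  rfl

theorem finrank_mvS_le (g : Fin n × Fin k → ℂ) : finrank ℂ (mvS g) ≤ k := by
  have := LinearMap.finrank_range_le (Matrix.toLin' (Matrix.of fun i j => g (i, j)))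
  rw [finrank_fin_fun] at this
  exact this

theorem mvan_kerF (V : Submodule ℂ (MvPolynomial (Fin (n + 1)) ℂ)) [FiniteDimensional ℂ V] :
    mvan V (kerF (n + 1)) = mvan V (rangeF (n + 1) n) := by
  apply le_antisymm
  · obtain ⟨g, hg⟩ := exists_mvan V (rangeF (n + 1) n)
    rw [Zs_rangeF, ← coe_mvS] at hg
    obtain ⟨a, ha0, ha⟩ := exists_le_kr (mvS g) (by have := finrank_mvS_le g; omega)
    have h1 := mvan_le V (kerF (n + 1)) a
    rw [Zs_kerF ha0] at h1
    rw [hg]
    exact h1.trans (Submodule.finrank_mono (van_anti ha))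
  · obtain ⟨a, ha⟩ := exists_mvan V (kerF (n + 1))
    by_cases ha0 : a = 0
    · have hZ : Zs (kerF (n + 1)) a ⊆ Set.range (mv (0 : Fin (n + 1) × Fin n → ℂ)) := by
        rw [ha0]
        rintro z ⟨Y, ⟨y, e, rfl⟩, rfl⟩
        refine ⟨0, ?_⟩
        funext i
        simp [mv]
      rw [ha]
      have h1 := mvan_le V (rangeF (n + 1) n) 0
      rw [Zs_rangeF] at h1
      exact h1.trans (Submodule.finrank_mono (van_anti hZ))
    · obtain ⟨g, hg, -⟩ := exists_range_mv (kr a) (k := n)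
        (by have := finrank_kr ha0; omega)
      rw [ha, Zs_kerF ha0, ← hg, ← Zs_rangeF]
      exact mvan_le V _ g

theorem rk_kerF (V : Submodule ℂ (MvPolynomial (Fin (n + 1)) ℂ)) [FiniteDimensional ℂ V] :
    rk V n + mvan V (kerF (n + 1)) = finrank ℂ V := by
  rw [mvan_kerF, rk_add_mvan]

theorem mvan_rangeF_le_van (V : Submodule ℂ (MvPolynomial (Fin n) ℂ)) [FiniteDimensional ℂ V]
    (L : Submodule ℂ (Fin n → ℂ)) (hL : finrank ℂ L = k) :
    mvan V (rangeF n k) ≤ finrank ℂ (van V L) := by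
  obtain ⟨g, hg, -⟩ := exists_range_mv L hL
  rw [← hg, ← Zs_rangeF]
  exact mvan_le V _ g

theorem gen_van_kerF2 (V : Submodule ℂ (MvPolynomial (Fin (n + 2)) ℂ)) [FiniteDimensional ℂ V] :
    Gen (fun x : Fin (n + 2) ⊕ Fin (n + 2) → ℂ =>
      finrank ℂ (van V ((kr (x ∘ Sum.inl) : Set (Fin (n + 2) → ℂ)) ∩ kr (x ∘ Sum.inr))) +
        rk V n = finrank ℂ V) := by
  have hmin : mvan V (kerF2 (n + 2)) ≤ mvan V (rangeF (n + 2) n) := by
    obtain ⟨g, hg⟩ := exists_mvan V (rangeF (n + 2) n)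
    rw [Zs_rangeF, ← coe_mvS] at hg
    obtain ⟨a, b, hab, ha, hb⟩ := exists_le_kr2 (mvS g) (by have := finrank_mvS_le g; omega)
    have h1 := mvan_le V (kerF2 (n + 2)) (Sum.elim a b)
    rw [Zs_kerF2 hab] at h1
    rw [hg]
    exact h1.trans (Submodule.finrank_mono (van_anti (Set.subset_inter ha hb)))
  refine ((gen_mvan V (kerF2 (n + 2))).and (gen_ind (by omega))).mono fun x hx => ?_
  obtain ⟨h1, h2⟩ := hx
  rw [← Sum.elim_comp_inl_inr x, Zs_kerF2 h2] at h1
  have h3 := mvan_rangeF_le_van V (kr (x ∘ Sum.inl) ⊓ kr (x ∘ Sum.inr)) (k := n)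
    (by have := finrank_kr_inf h2; omega)
  rw [Submodule.coe_inf] at h3
  have h4 := rk_add_mvan V n
  omega

end Pool.Agent.Lib_helper26.Ebe
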