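import Mathlib

/-!
# A lemma on pencils of linear maps
-/

namespace Pool.Agent.Lib_helper26.Ebe

open Module

theorem pencil {S Q : Type*} [AddCommGroup S] [Module ℂ S] [FiniteDimensional ℂ S]
    [AddCommGroup Q] [Module ℂ Q] (X Y : S →ₗ[ℂ] Q)
    (hX : ∀ c : ℂ, ∀ s, X s + c • Y s = 0 → s = 0) (hY : ∀ s, Y s = 0 → s = 0)
    (w : Q) (K : Set ℂ) (hK : K.Infinite) (hw : ∀ c ∈ K, ∃ s, X s + c • Y s = w) :
    w = 0 := by
  classical
  choose s hs using (fun c : K => hw c.1 c.2)
  obtain ⟨κ, a, ha, hspan, hli⟩ := exists_linearIndependent' ℂ s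
  have hfin : Finite κ := hli.finite
  have := Fintype.ofFinite κ
  obtain ⟨c, hc⟩ : ∃ c : K, ∀ i, a i ≠ c := by
    by_contra hcon
    push Not at hcon
    have : Infinite K := hK.to_subtype
    have hsurj : Function.Surjective a := fun c => hcon c
    exact (Finite.of_surjective a hsurj).false
  have hcs : s c ∈ Submodule.span ℂ (Set.range (s ∘ a)) := by
    rw [hspan]
    exact Submodule.subset_span ⟨c, rfl⟩
  obtain ⟨μ, hμ⟩ := (Submodule.mem_span_range_iff_exists_fun ℂ).mp hcs
  have h1 : (1 - ∑ i, μ i) • w = Y (∑ i, (μ i * ((c : ℂ) - a i)) • s (a i)) := by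
    have h2 : w = X (s c) + (c : ℂ) • Y (s c) := (hs c).symm
    have h3 : X (s c) + (c : ℂ) • Y (s c) =
        ∑ i, (μ i • w + (μ i * ((c : ℂ) - a i)) • Y (s (a i))) := by
      rw [← hμ, map_sum, map_sum, Finset.smul_sum, ← Finset.sum_add_distrib]
      refine Finset.sum_congr rfl fun i _ => ?_
      rw [map_smul, map_smul, Function.comp_apply]
      have h4 := hs (a i)
      rw [← h4]
      module
    rw [sub_smul, one_smul, map_sum, Finset.sum_smul, sub_eq_iff_eq_add]
    conv_lhs => rw [h2, h3, Finset.sum_add_distrib]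
    rw [add_comm]
    congr 1
    exact Finset.sum_congr rfl fun i _ => by rw [map_smul]
  by_cases hsum : 1 - ∑ i, μ i = 0
  · exfalso
    rw [hsum, zero_smul] at h1
    have h2 := hY _ h1.symm
    have h3 := Fintype.linearIndependent_iff.mp hli _ h2
    have h4 : ∀ i, μ i = 0 := by
      intro i
      have h5 := h3 i
      rcases mul_eq_zero.mp h5 with h6 | h6
      · exact h6
      · exact absurd (Subtype.ext (sub_eq_zero.mp h6)).symm (hc i)
    simp [h4] at hsum
  · let T := Submodule.span ℂ (Set.range (s ∘ a))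
    let t : T := (1 - ∑ i, μ i)⁻¹ • ∑ i, (μ i * ((c : ℂ) - a i)) •
      (⟨s (a i), Submodule.subset_span ⟨i, rfl⟩⟩ : T)
    have hwt : w = Y t := by
      have : (t : S) = (1 - ∑ i, μ i)⁻¹ • ∑ i, (μ i * ((c : ℂ) - a i)) • s (a i) := by
        simp [t]
      rw [this, map_smul, ← h1, smul_smul, inv_mul_cancel₀ hsum, one_smul]
    by_cases hT : Nontrivial T
    · exfalso
      obtain ⟨t, hwt⟩ : ∃ t : T, w = Y t := ⟨t, hwt⟩
      let B : Basis κ ℂ T := Basis.span hli
      have hB : ∀ i, (B i : S) = s (a i) := fun i =>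
        congrArg Subtype.val (Basis.span_apply hli i)
      let N : T →ₗ[ℂ] T := B.constr ℂ (fun i => t - (a i : ℂ) • B i)
      have hN : X ∘ₗ T.subtype = Y ∘ₗ T.subtype ∘ₗ N := by
        apply B.ext
        intro i
        rw [LinearMap.comp_apply, LinearMap.comp_apply, LinearMap.comp_apply,
          Basis.constr_basis, Submodule.subtype_apply, Submodule.subtype_apply,
          Submodule.coe_sub, Submodule.coe_smul, hB, map_sub, map_smul, ← hwt,
          ← hs (a i)]
        abel
      obtain ⟨l, hl⟩ := Module.End.exists_eigenvalue N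
      obtain ⟨x, hx⟩ := hl.exists_hasEigenvector
      have h5 : X x = l • Y x := by
        have h6 := LinearMap.congr_fun hN x
        rw [LinearMap.comp_apply, LinearMap.comp_apply, LinearMap.comp_apply,
          hx.apply_eq_smul, map_smul, map_smul] at h6
        exact h6
      have h6 := hX (-l) (x : S) (by rw [h5]; module)
      exact hx.2 (Subtype.ext h6)
    · rw [not_nontrivial_iff_subsingleton] at hT
      have : s c = 0 := by
        have : (⟨s c, hcs⟩ : T) = 0 := Subsingleton.elim _ _
        exact congrArg Subtype.val this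
      rw [← hs c, this, map_zero, map_zero, smul_zero, add_zero]

end Pool.Agent.Lib_helper26.Ebe
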