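import Pool.Agent.Lib_helper26.Ebe.Sq
import Pool.Agent.Lib_helper26.Ebe.Pencil

/-!
# Lemma D: constancy of `U_a`
-/

namespace Pool.Agent.Lib_helper26.Ebe

open MvPolynomial Pool.Agent.Lib_helper26.SOS Module
open Pool.Agent.Lib_helper97.Ebe (eval_lf lf_ne_zero q_not_dvd_inr)

variable {n m : ℕ}

theorem exists_le_restrictTotalDegree (W : Submodule ℂ (MvPolynomial (Fin n) ℂ))
    [FiniteDimensional ℂ W] : ∃ N, W ≤ restrictTotalDegree (Fin n) ℂ N := by
  classical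
  obtain ⟨F, hF⟩ : W.FG := Module.Finite.iff_fg.mp inferInstance
  refine ⟨F.sup totalDegree, ?_⟩
  rw [← hF, Submodule.span_le]
  intro f hf
  rw [SetLike.mem_coe, mem_restrictTotalDegree]
  exact Finset.le_sup hf

theorem van_kr_inter_line (V : Submodule ℂ (MvPolynomial (Fin n) ℂ)) (a b : Fin n → ℂ) (c : ℂ) :
    van V (kr (a + c • b)) ≤ van V ((kr a : Set (Fin n → ℂ)) ∩ kr b) := by
  apply van_anti
  rintro z ⟨ha, hb⟩
  rw [SetLike.mem_coe, mem_kr] at *
  have : ∑ i, (a + c • b) i * z i = ∑ i, a i * z i + c * ∑ i, b i * z i := by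
    rw [Finset.mul_sum, ← Finset.sum_add_distrib]
    exact Finset.sum_congr rfl fun i _ => by
      simp only [Pi.add_apply, Pi.smul_apply, smul_eq_mul]; ring
  rw [this, ha, hb]
  ring

theorem lemD_step (V : Submodule ℂ (MvPolynomial (Fin n) ℂ)) [FiniteDimensional ℂ V] (κ : ℕ)
    {a b : Fin n → ℂ} (hab : Ind a b)
    (h1b : finrank ℂ (van V (kr b)) = κ)
    (h1 : {c : ℂ | ¬ finrank ℂ (van V (kr (a + c • b))) = κ}.Finite)
    (h2 : finrank ℂ (van V ((kr a : Set (Fin n → ℂ)) ∩ kr b)) ≤ 2 * κ)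
    (h3 : {c : ℂ | ¬ van V ((kr (a + c • b) : Set (Fin n → ℂ)) ∪ kr b) = ⊥}.Finite)
    (h4 : van (U V b) ((kr a : Set (Fin n → ℂ)) ∩ kr b) = ⊥) :
    U V a ≤ U V b := by
  classical
  intro u₁ hu₁
  have hfdb := U_fd V hab.right
  obtain ⟨N, hN⟩ := exists_le_restrictTotalDegree (U V b ⊔ ℂ ∙ u₁)
  let S := restrictTotalDegree (Fin n) ℂ N
  let X' : S →ₗ[ℂ] (MvPolynomial (Fin n) ℂ ⧸ U V b) :=
    (U V b).mkQ ∘ₗ LinearMap.mulLeft ℂ (lf a) ∘ₗ S.subtype
  let Y' : S →ₗ[ℂ] (MvPolynomial (Fin n) ℂ ⧸ U V b) :=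
    (U V b).mkQ ∘ₗ LinearMap.mulLeft ℂ (lf b) ∘ₗ S.subtype
  have hX' : ∀ s : S, X' s = (U V b).mkQ (lf a * (s : MvPolynomial (Fin n) ℂ)) := fun s => rfl
  have hY' : ∀ s : S, Y' s = (U V b).mkQ (lf b * (s : MvPolynomial (Fin n) ℂ)) := fun s => rfl
  have hzero : ∀ (d : Fin n → ℂ), d ≠ 0 → (∀ z, z ∈ kr a → z ∈ kr b → z ∈ kr d) →
      ∀ s : MvPolynomial (Fin n) ℂ, lf d * s ∈ U V b → s = 0 := by
    intro d hd0 hd s hs
    have : lf d * s ∈ van (U V b) ((kr a : Set (Fin n → ℂ)) ∩ kr b) := by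
      refine ⟨hs, ?_⟩
      rintro z ⟨hza, hzb⟩
      rw [map_mul, eval_lf', show krl d z = 0 from hd z hza hzb, zero_mul]
    rw [h4, Submodule.mem_bot] at this
    exact (mul_eq_zero.mp this).resolve_left (lf_ne_zero hd0)
  let K : Set ℂ := {c | finrank ℂ (van V (kr (a + c • b))) = κ ∧
    van V ((kr (a + c • b) : Set (Fin n → ℂ)) ∪ kr b) = ⊥ ∧ c ≠ 0}
  have hK : K.Infinite := by
    intro hfin
    have h5 := ((h1.union h3).union (Set.finite_singleton (0 : ℂ))).union hfin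
    refine Set.infinite_univ (h5.subset fun c _ => ?_)
    by_cases hc1 : finrank ℂ (van V (kr (a + c • b))) = κ
    · by_cases hc2 : van V ((kr (a + c • b) : Set (Fin n → ℂ)) ∪ kr b) = ⊥
      · by_cases hc3 : c = 0
        · exact Or.inl (Or.inr hc3)
        · exact Or.inr ⟨hc1, hc2, hc3⟩
      · exact Or.inl (Or.inl (Or.inr hc2))
    · exact Or.inl (Or.inl (Or.inl hc1))
  have key := pencil X' Y' ?_ ?_ ((U V b).mkQ u₁) K hK ?_
  · rwa [Submodule.mkQ_apply, Submodule.Quotient.mk_eq_zero] at key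
  · intro c s hs
    rw [hX', hY', ← map_smul, ← map_add, Submodule.mkQ_apply,
      Submodule.Quotient.mk_eq_zero] at hs
    apply Subtype.ext
    apply hzero (a + c • b) (hab.line c).left _ s.1
    · rw [lf_add, lf_smul, add_mul, mul_assoc, ← smul_eq_C_mul]
      exact hs
    · intro z hza hzb
      rw [kr, LinearMap.mem_ker] at *
      rw [← eval_lf', lf_add, lf_smul, map_add, map_mul, eval_lf', eval_lf', hza, hzb]
      ring
  · intro s hs
    rw [hY', Submodule.mkQ_apply, Submodule.Quotient.mk_eq_zero] at hs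
    exact Subtype.ext (hzero b hab.right (fun z _ hz => hz) s.1 hs)
  · rintro c ⟨hc1, hc2, hc3⟩
    have hcne := (hab.line c).left
    -- the sum of the two spaces
    have hsup : van V (kr (a + c • b)) ⊔ van V (kr b) =
        van V ((kr a : Set (Fin n → ℂ)) ∩ kr b) := by
      have hle : van V (kr (a + c • b)) ⊔ van V (kr b) ≤
          van V ((kr a : Set (Fin n → ℂ)) ∩ kr b) :=
        sup_le (van_kr_inter_line V a b c) (van_anti Set.inter_subset_right)
      apply Submodule.eq_of_le_of_finrank_le hle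
      have h5 := Submodule.finrank_sup_add_finrank_inf_eq (van V (kr (a + c • b)))
        (van V (kr b))
      have h6 : van V (kr (a + c • b)) ⊓ van V (kr b) = ⊥ := by
        rw [eq_bot_iff, ← hc2]
        rintro v ⟨hv1, hv2⟩
        refine ⟨hv1.1, ?_⟩
        rintro z (hz | hz)
        · exact hv1.2 z hz
        · exact hv2.2 z hz
      rw [h6, finrank_bot, add_zero, hc1, h1b] at h5
      omega
    have hmem : lf a * u₁ ∈ van V (kr (a + c • b)) ⊔ van V (kr b) := by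
      rw [hsup]
      refine ⟨hu₁, ?_⟩
      rintro z ⟨hz, -⟩
      rw [map_mul, eval_lf', show krl a z = 0 from hz, zero_mul]
    obtain ⟨v₁, hv₁, v₂, hv₂, hv⟩ := Submodule.mem_sup.mp hmem
    rw [mem_van_kr hcne] at hv₁
    rw [mem_van_kr hab.right] at hv₂
    obtain ⟨hv₁V, u', rfl⟩ := hv₁
    obtain ⟨hv₂V, u₂, rfl⟩ := hv₂
    have h5 : lf a * (u₁ - u') = lf b * (C c * u' + u₂) := by
      rw [lf_add, lf_smul] at hv
      linear_combination -hv
    have h6 : lf b ∣ u₁ - u' := by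
      have : lf b ∣ lf a * (u₁ - u') := ⟨_, h5⟩
      exact ((lf_prime hab.right).dvd_or_dvd this).resolve_left hab.symm.not_dvd
    obtain ⟨s, hs⟩ := h6
    have h7 : C c * u' + u₂ = lf a * s := by
      apply mul_left_cancel₀ (lf_ne_zero hab.right)
      rw [← h5, hs]
      ring
    have h8 : C c * u₁ + u₂ = lf (a + c • b) * s := by
      rw [lf_add, lf_smul]
      linear_combination h7 + C c * hs
    have hCc : C c⁻¹ * C c = (1 : MvPolynomial (Fin n) ℂ) := by
      rw [← C_mul, inv_mul_cancel₀ hc3, C_1]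
    have h9 : lf (a + c • b) * (c⁻¹ • s) = u₁ + c⁻¹ • u₂ := by
      rw [smul_eq_C_mul, smul_eq_C_mul, mul_left_comm, ← h8, mul_add, ← mul_assoc, hCc,
        one_mul]
    have hsdeg : c⁻¹ • s ∈ S := by
      by_cases hs0 : c⁻¹ • s = 0
      · rw [hs0]
        exact S.zero_mem
      · rw [mem_restrictTotalDegree]
        have h10 : (lf (a + c • b) * (c⁻¹ • s)).totalDegree ≤ N := by
          rw [h9, ← mem_restrictTotalDegree]
          apply hN
          exact Submodule.add_mem _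
            (Submodule.mem_sup_right (Submodule.mem_span_singleton_self _))
            (Submodule.mem_sup_left ((U V b).smul_mem _ hv₂V))
        rw [totalDegree_mul_of_isDomain (lf_ne_zero hcne) hs0] at h10
        omega
    refine ⟨⟨c⁻¹ • s, hsdeg⟩, ?_⟩
    rw [hX', hY', ← map_smul, ← map_add, ← sub_eq_zero, ← map_sub, Submodule.mkQ_apply,
      Submodule.Quotient.mk_eq_zero]
    have h11 : lf a * (c⁻¹ • s) + c • (lf b * (c⁻¹ • s)) - u₁ = c⁻¹ • u₂ := by
      rw [lf_add, lf_smul] at h9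
      rw [smul_eq_C_mul (lf b * c⁻¹ • s) c]
      linear_combination h9
    rw [h11]
    exact (U V b).smul_mem _ hv₂V

/-- Lemma D. -/
theorem lemD (V : Submodule ℂ (MvPolynomial (Fin n) ℂ)) [FiniteDimensional ℂ V] (κ : ℕ)
    (hκ : κ + 1 < n)
    (h1 : Gen (fun a : Fin n → ℂ => finrank ℂ (van V (kr a)) = κ))
    (h2 : Gen (fun x : Fin n ⊕ Fin n → ℂ =>
      finrank ℂ (van V ((kr (x ∘ Sum.inl) : Set (Fin n → ℂ)) ∩ kr (x ∘ Sum.inr))) ≤ 2 * κ))
    (h3 : Gen (fun x : Fin n ⊕ Fin n → ℂ =>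
      van V ((kr (x ∘ Sum.inl) : Set (Fin n → ℂ)) ∪ kr (x ∘ Sum.inr)) = ⊥)) :
    ∃ U' : Submodule ℂ (MvPolynomial (Fin n) ℂ), finrank ℂ U' = κ ∧
      FiniteDimensional ℂ U' ∧ Gen (fun a : Fin n → ℂ => U V a = U') := by
  have hne := gen_ne_zero (n := n) (by omega)
  have hU : Gen (fun b : Fin n → ℂ => finrank ℂ (U V b) < n) := by
    refine (h1.and hne).mono fun b hb => ?_
    rw [finrank_U V hb.2, hb.1]
    omega
  have hsq := gen_sq (by omega) V hU
  obtain ⟨b, ⟨⟨⟨⟨hb1, hb0⟩, hb2⟩, hb3⟩, hb4⟩⟩ :=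
    ((((h1.and hne).and h2.pair').and h3.pair').and hsq).exists
  have hfd := U_fd V hb0
  have hvb : van (U V b) (kr b) = ⊥ := by
    rw [eq_bot_iff]
    intro u hu
    rw [mem_van_kr hb0] at hu
    obtain ⟨huU, g, rfl⟩ := hu
    have := hb4 _ (mem_U.mp huU) ⟨g, by ring⟩
    rw [Submodule.mem_bot]
    exact (mul_eq_zero.mp this).resolve_left (lf_ne_zero hb0)
  have hgen := gen_van_kr_inf_eq_bot (U V b) (by rw [finrank_U V hb0, hb1]; omega) hb0 hvb
  refine ⟨U V b, by rw [finrank_U V hb0, hb1], hfd, ?_⟩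
  refine ((((((h1.line b).and h1).and hb2).and (hb3.line b)).and hgen).and
    (gen_ind_left hb0 (by omega))).mono fun a ha => ?_
  obtain ⟨⟨⟨⟨⟨ha1, ha1'⟩, ha2⟩, ha3⟩, ha4⟩, hab⟩ := ha
  have hle : U V a ≤ U V b := lemD_step V κ hab hb1 ha1 ha2 ha3 ha4
  apply Submodule.eq_of_le_of_finrank_eq hle
  rw [finrank_U V hb0, hb1, finrank_U V hab.left, ha1']

end Pool.Agent.Lib_helper26.Ebe
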