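import Pool.Agent.Lib_helper26.Ebe.Level

/-!
# The two types of levels
-/

namespace Pool.Agent.Lib_helper26.Ebe

open MvPolynomial Pool.Agent.Lib_helper26.SOS Module
open Pool.Agent.Lib_helper97.Ebe (eval_lf lf_ne_zero q_not_dvd_inr)

variable {n j : ℕ}

/-- Generic properties pull back along surjective polynomial maps. -/
theorem Gen.pull {τ ρ : Type*} {P : (τ → ℂ) → Prop} (h : Gen P)
    (F : τ → MvPolynomial ρ ℂ) (hF : ∀ x : τ → ℂ, ∃ y : ρ → ℂ, ∀ i, eval y (F i) = x i) :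
    Gen (fun y : ρ → ℂ => P (fun i => eval y (F i))) := by
  obtain ⟨Φ, h0, hΦ⟩ := h
  have hev : ∀ y : ρ → ℂ, eval y (aeval F Φ) = eval (fun i => eval y (F i)) Φ := by
    intro y
    have : ((eval y).comp ((aeval F : MvPolynomial τ ℂ →ₐ[ℂ] MvPolynomial ρ ℂ) :
        MvPolynomial τ ℂ →+* MvPolynomial ρ ℂ)) = eval (fun i => eval y (F i)) := by
      apply MvPolynomial.ringHom_ext
      · intro r
        simp [MvPolynomial.algebraMap_eq]
      · intro i
        simp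
    exact RingHom.congr_fun this Φ
  refine ⟨aeval F Φ, ?_, fun y hy => hΦ _ ?_⟩
  · intro hc
    obtain ⟨x, hx⟩ := exists_eval_ne_zero h0
    obtain ⟨y, hy⟩ := hF x
    apply hx
    have h1 := hev y
    rw [hc, map_zero] at h1
    rw [h1]
    congr 2
    funext i
    exact (hy i).symm
  · rwa [hev] at hy

/-- The pair of hyperplanes `kr a`, `kr b` of the image of `g` determines the restriction of an
element of `V` to the image of `g`. -/
def StP (V : Submodule ℂ (MvPolynomial (Fin n) ℂ)) (g : Fin n × Fin j → ℂ)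
    (a b : Fin j → ℂ) : Prop :=
  van V (mv g '' ((kr a : Set (Fin j → ℂ)) ∪ kr b)) ≤ van V (Set.range (mv g))

/-- The level `j` is of the second type. -/
def St (V : Submodule ℂ (MvPolynomial (Fin n) ℂ)) (j : ℕ) : Prop :=
  Gen (fun x : (Fin n × Fin j) ⊕ (Fin j ⊕ Fin j) → ℂ =>
    StP V (x ∘ Sum.inl) (fun i => x (Sum.inr (Sum.inl i))) (fun i => x (Sum.inr (Sum.inr i))))

theorem mem_map_sub {V : Submodule ℂ (MvPolynomial (Fin n) ℂ)} {g : Fin n × Fin j → ℂ}
    {f : MvPolynomial (Fin j) ℂ} :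
    f ∈ V.map (sub g).toLinearMap ↔ ∃ v ∈ V, sub g v = f := Iff.rfl

theorem stP_iff {V : Submodule ℂ (MvPolynomial (Fin n) ℂ)} {g : Fin n × Fin j → ℂ}
    {a b : Fin j → ℂ} : StP V g a b ↔
      van (V.map (sub g).toLinearMap) ((kr a : Set (Fin j → ℂ)) ∪ kr b) = ⊥ := by
  constructor
  · intro h
    rw [eq_bot_iff]
    rintro _ ⟨⟨v, hv, rfl⟩, hz⟩
    rw [Submodule.mem_bot]
    change sub g v = 0
    rw [sub_eq_zero_iff]
    have h1 : v ∈ van V (mv g '' ((kr a : Set (Fin j → ℂ)) ∪ kr b)) := by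
      refine ⟨hv, ?_⟩
      rintro _ ⟨z, hz', rfl⟩
      rw [← eval_sub]
      exact hz z hz'
    exact (h h1).2
  · rintro h v ⟨hv, hz⟩
    refine ⟨hv, ?_⟩
    rw [← sub_eq_zero_iff]
    have h1 : sub g v ∈ van (V.map (sub g).toLinearMap)
        ((kr a : Set (Fin j → ℂ)) ∪ kr b) := by
      refine ⟨⟨v, hv, rfl⟩, fun z hz' => ?_⟩
      rw [eval_sub]
      exact hz _ ⟨z, hz', rfl⟩
    rwa [h, Submodule.mem_bot] at h1

/-- The image of a moving set under a moving linear map. -/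
def imF {σ : Type*} (n j : ℕ) (Y : Set (Fin j → MvPolynomial σ ℂ)) :
    Set (Fin n → MvPolynomial ((Fin n × Fin j) ⊕ σ) ℂ) :=
  {Z | ∃ y ∈ Y, Z = fun i => ∑ l, X (Sum.inl (i, l)) * rename Sum.inr (y l)}

theorem Zs_imF {σ : Type*} (Y : Set (Fin j → MvPolynomial σ ℂ)) (g : Fin n × Fin j → ℂ)
    (x : σ → ℂ) : Zs (imF n j Y) (Sum.elim g x) = mv g '' Zs Y x := by
  have key : ∀ y : Fin j → MvPolynomial σ ℂ,
      (fun i => eval (Sum.elim g x) (∑ l, X (Sum.inl (i, l)) * rename Sum.inr (y l))) =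
        mv g (fun l => eval x (y l)) := by
    intro y
    funext i
    rw [map_sum, mv]
    refine Finset.sum_congr rfl fun l _ => ?_
    rw [map_mul, eval_X, eval_rename]
    rfl
  ext z
  constructor
  · rintro ⟨Z, ⟨y, hy, rfl⟩, rfl⟩
    exact ⟨_, ⟨y, hy, rfl⟩, (key y).symm⟩
  · rintro ⟨_, ⟨y, hy, rfl⟩, rfl⟩
    exact ⟨_, ⟨y, hy, rfl⟩, (key y).symm⟩

theorem gen_ne_zero_pair (hj : 1 ≤ j) :
    Gen (fun x : Fin j ⊕ Fin j → ℂ => x ∘ Sum.inl ≠ 0 ∧ x ∘ Sum.inr ≠ 0) := by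
  refine ⟨X (Sum.inl ⟨0, hj⟩) * X (Sum.inr ⟨0, hj⟩), mul_ne_zero (X_ne_zero _) (X_ne_zero _),
    fun x hx => ?_⟩
  rw [map_mul, eval_X, eval_X] at hx
  constructor
  · intro h
    exact left_ne_zero_of_mul hx (congrFun h ⟨0, hj⟩)
  · intro h
    exact right_ne_zero_of_mul hx (congrFun h ⟨0, hj⟩)

/-- Generic properties of the second variable alone. -/
theorem Gen.snd {τ σ : Type*} {P : (σ → ℂ) → Prop} (h : Gen P) :
    Gen (fun x : τ ⊕ σ → ℂ => P (x ∘ Sum.inr)) := by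
  obtain ⟨Φ, h0, hΦ⟩ := h
  refine ⟨rename Sum.inr Φ, ?_, fun x hx => hΦ _ ?_⟩
  · intro hc
    apply h0
    apply rename_injective _ Sum.inr_injective
    rw [hc, map_zero]
  · rwa [eval_rename] at hx

/-- Generic properties of the first variable alone. -/
theorem Gen.fst {τ σ : Type*} {P : (τ → ℂ) → Prop} (h : Gen P) :
    Gen (fun x : τ ⊕ σ → ℂ => P (x ∘ Sum.inl)) := by
  obtain ⟨Φ, h0, hΦ⟩ := h
  refine ⟨rename Sum.inl Φ, ?_, fun x hx => hΦ _ ?_⟩
  · intro hc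
    apply h0
    apply rename_injective _ Sum.inl_injective
    rw [hc, map_zero]
  · rwa [eval_rename] at hx

theorem van_range_le_image {V : Submodule ℂ (MvPolynomial (Fin n) ℂ)}
    {g : Fin n × Fin j → ℂ} {S : Set (Fin j → ℂ)} :
    van V (Set.range (mv g)) ≤ van V (mv g '' S) :=
  van_anti (Set.image_subset_range _ _)

/-- One good pair on a subspace of maximal rank suffices. -/
theorem St_of_exists {V : Submodule ℂ (MvPolynomial (Fin n) ℂ)} [FiniteDimensional ℂ V]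
    (hj : 1 ≤ j) {g : Fin n × Fin j → ℂ} {a b : Fin j → ℂ} (ha : a ≠ 0) (hb : b ≠ 0)
    (hg : finrank ℂ (V.map (sub g).toLinearMap) = rk V j) (h : StP V g a b) : St V j := by
  have h1 := gen_finrank_van_le V (imF n j (kerFU j)) (Sum.elim g (Sum.elim a b))
  rw [Zs_imF, Zs_kerFU ha hb] at h1
  have h2 : finrank ℂ (van V (mv g '' ((kr a : Set (Fin j → ℂ)) ∪ kr b))) ≤
      mvan V (rangeF n j) := by
    have h3 := Submodule.finrank_mono h
    have h4 := finrank_map_add_van V g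
    have h5 := rk_add_mvan V j
    omega
  refine (h1.and (gen_ne_zero_pair hj).snd).mono fun x hx => ?_
  obtain ⟨hx1, hx2⟩ := hx
  have h3 : x = Sum.elim (x ∘ Sum.inl) (Sum.elim (fun i => x (Sum.inr (Sum.inl i)))
      (fun i => x (Sum.inr (Sum.inr i)))) := by
    funext i
    rcases i with i | i | i <;> rfl
  have hx3 : (fun i => x (Sum.inr (Sum.inl i)) : Fin j → ℂ) ≠ 0 := hx2.1
  have hx4 : (fun i => x (Sum.inr (Sum.inr i)) : Fin j → ℂ) ≠ 0 := hx2.2
  rw [h3, Zs_imF, Zs_kerFU hx3 hx4] at hx1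
  have h4 := mvan_le V (rangeF n j) (x ∘ Sum.inl)
  rw [Zs_rangeF] at h4
  have h5 := Submodule.eq_of_le_of_finrank_le (van_range_le_image (V := V)
    (g := x ∘ Sum.inl) (S := ((kr (fun i => x (Sum.inr (Sum.inl i))) : Set (Fin j → ℂ)) ∪
      kr (fun i => x (Sum.inr (Sum.inr i)))))) (by
      omega)
  exact h5.ge

/-- At a level of the second type, a generic subspace has a good pair. -/
theorem St.gen {V : Submodule ℂ (MvPolynomial (Fin n) ℂ)} (h : St V j) (hj : 1 ≤ j) :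
    Gen (fun g : Fin n × Fin j → ℂ => ∃ a b : Fin j → ℂ, a ≠ 0 ∧ b ≠ 0 ∧ StP V g a b) := by
  refine ((h.and (gen_ne_zero_pair hj).snd).pair).mono fun g hg => ?_
  obtain ⟨x, hx1, hx2⟩ := hg.exists
  exact ⟨_, _, hx2.1, hx2.2, hx1⟩

theorem mv_mv {k : ℕ} (g : Fin n × Fin j → ℂ) (h : Fin j × Fin k → ℂ) (y : Fin k → ℂ) :
    mv (fun x => ∑ l, g (x.1, l) * h (l, x.2)) y = mv g (mv h y) := by
  funext i
  unfold mv
  simp only [Finset.sum_mul, Finset.mul_sum]
  rw [Finset.sum_comm]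
  exact Finset.sum_congr rfl fun l _ => Finset.sum_congr rfl fun k _ => by ring

/-- The second type is inherited upwards. -/
theorem St.succ {V : Submodule ℂ (MvPolynomial (Fin n) ℂ)} (hj : 1 ≤ j) (h : St V j) :
    St V (j + 1) := by
  classical
  let F : (Fin n × Fin j) ⊕ (Fin j ⊕ Fin j) →
      MvPolynomial (((Fin n × Fin (j + 1)) ⊕ (Fin (j + 1) ⊕ Fin (j + 1))) ⊕
        (Fin (j + 1) × Fin j)) ℂ :=
    Sum.elim (fun x => ∑ l, X (Sum.inl (Sum.inl (x.1, l))) * X (Sum.inr (l, x.2)))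
      (Sum.elim (fun i => ∑ l, X (Sum.inl (Sum.inr (Sum.inl l))) * X (Sum.inr (l, i)))
        (fun i => ∑ l, X (Sum.inl (Sum.inr (Sum.inr l))) * X (Sum.inr (l, i))))
  have hF := h.pull F (by
    intro x
    refine ⟨Sum.elim (Sum.elim
      (fun y => (Fin.snoc (fun l : Fin j => x (Sum.inl (y.1, l))) 0 : Fin (j + 1) → ℂ) y.2)
      (Sum.elim (Fin.snoc (fun l : Fin j => x (Sum.inr (Sum.inl l))) 0 : Fin (j + 1) → ℂ)
        (Fin.snoc (fun l : Fin j => x (Sum.inr (Sum.inr l))) 0 : Fin (j + 1) → ℂ)))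
      (fun y => if y.1 = y.2.castSucc then 1 else 0), ?_⟩
    rintro (⟨i, l⟩ | i | i) <;> simp [F])
  refine hF.pair.mono fun x hx => ?_
  rintro v ⟨hvV, hv⟩
  refine ⟨hvV, ?_⟩
  rw [← sub_eq_zero_iff]
  have h1 : rename (fun k : Fin (j + 1) => (k, (⟨0, hj⟩ : Fin j)))
      (sub (x ∘ Sum.inl) v) = 0 := by
    apply eq_zero_of_gen
    refine hx.mono fun g hg => ?_
    let g' : Fin n × Fin j → ℂ := fun y => ∑ l, (x ∘ Sum.inl) (y.1, l) * g (l, y.2)
    have hg1 : ((fun i => eval (Sum.elim x g) (F i)) ∘ Sum.inl : Fin n × Fin j → ℂ) = g' := by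
      funext y
      simp [F, g']
    have hmem : ∀ (a : Fin (j + 1) → ℂ) (y : Fin j → ℂ),
        y ∈ kr (fun i : Fin j => ∑ l, a l * g (l, i)) → mv g y ∈ kr a := by
      intro a y hy
      rw [mem_kr] at hy ⊢
      rw [← hy]
      unfold mv
      simp only [Finset.sum_mul, Finset.mul_sum]
      rw [Finset.sum_comm]
      exact Finset.sum_congr rfl fun l _ => Finset.sum_congr rfl fun k _ => by ring
    have hg2 : StP V g' (fun i => ∑ l, x (Sum.inr (Sum.inl l)) * g (l, i))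
        (fun i => ∑ l, x (Sum.inr (Sum.inr l)) * g (l, i)) := by
      have h2 := hg
      rw [hg1] at h2
      convert h2 using 1
      · funext i
        simp [F]
      · funext i
        simp [F]
    have h3 : v ∈ van V (mv g' '' ((kr (fun i : Fin j => ∑ l, x (Sum.inr (Sum.inl l)) *
        g (l, i)) : Set (Fin j → ℂ)) ∪
        kr (fun i : Fin j => ∑ l, x (Sum.inr (Sum.inr l)) * g (l, i)))) := by
      refine ⟨hvV, ?_⟩
      rintro _ ⟨y, hy | hy, rfl⟩
      · have : mv g' y = mv (x ∘ Sum.inl) (mv g y) := mv_mv _ _ _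
        rw [this]
        exact hv _ ⟨mv g y, Or.inl (hmem _ y hy), rfl⟩
      · have : mv g' y = mv (x ∘ Sum.inl) (mv g y) := mv_mv _ _ _
        rw [this]
        exact hv _ ⟨mv g y, Or.inr (hmem _ y hy), rfl⟩
    have h4 := (hg2 h3).2 _ ⟨Pi.single ⟨0, hj⟩ 1, rfl⟩
    rw [show mv g' (Pi.single ⟨0, hj⟩ 1) = mv (x ∘ Sum.inl) (mv g (Pi.single ⟨0, hj⟩ 1))
      from mv_mv _ _ _, ← eval_sub] at h4
    rw [eval_rename, ← h4]
    congr 2
    funext k
    simp [mv, Pi.single_apply]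
  apply rename_injective _ (fun k k' h => (Prod.mk.inj h).1)
  rw [map_zero]
  exact h1

end Pool.Agent.Lib_helper26.Ebe
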