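import Pool.Agent.Lib_helper26.Ebe.LemD

/-!
# The analysis of one level
-/

namespace Pool.Agent.Lib_helper26.Ebe

open MvPolynomial Pool.Agent.Lib_helper26.SOS Module
open Pool.Agent.Lib_helper97.Ebe (eval_lf lf_ne_zero q_not_dvd_inr)

variable {n m D : ℕ}

theorem eq_top_of_gen (M : Submodule ℂ (Fin n → ℂ)) (h : Gen (fun a => a ∈ M)) : M = ⊤ := by
  by_contra hne
  have hlt := Submodule.finrank_lt (lt_top_iff_ne_top.mpr hne).ne
  rw [finrank_fin_fun] at hlt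
  obtain ⟨a, ha0, ha⟩ := exists_le_kr M hlt
  obtain ⟨Φ, h0, hΦ⟩ := h
  obtain ⟨x, hx⟩ := exists_eval_ne_zero (mul_ne_zero h0 (lf_ne_zero ha0))
  rw [map_mul] at hx
  have h1 := ha (hΦ x (left_ne_zero_of_mul hx))
  exact right_ne_zero_of_mul hx (by rw [eval_lf']; exact h1)

theorem eq_zero_of_gen {τ : Type*} (f : MvPolynomial τ ℂ) (h : Gen (fun b => eval b f = 0)) :
    f = 0 := by
  by_contra hne
  obtain ⟨Φ, h0, hΦ⟩ := h
  obtain ⟨x, hx⟩ := exists_eval_ne_zero (mul_ne_zero h0 hne)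
  rw [map_mul] at hx
  exact right_ne_zero_of_mul hx (hΦ x (left_ne_zero_of_mul hx))

/-- Positivity: the polynomials `R_b`, `b` generic, span. -/
theorem span_le_of_gen {ι : Type*} [Fintype ι] (p : ι → MvPolynomial (Fin n) ℂ)
    (W : Submodule ℂ (MvPolynomial (Fin n) ℂ))
    (h : Gen (fun b : Fin n → ℂ => ∑ i, eval b (cj (p i)) • p i ∈ W)) :
    Submodule.span ℂ (Set.range p) ≤ W := by
  classical
  rw [Submodule.span_le]
  rintro _ ⟨j, rfl⟩
  by_contra hj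
  obtain ⟨f, hf0, hfW⟩ := Submodule.exists_le_ker_of_notMem hj
  have h1 : ∑ i, C (f (p i)) * cj (p i) = 0 := by
    apply eq_zero_of_gen
    refine h.mono fun b hb => ?_
    have h2 := hfW hb
    rw [LinearMap.mem_ker, map_sum] at h2
    rw [map_sum, ← h2]
    refine Finset.sum_congr rfl fun i _ => ?_
    rw [map_mul, eval_C, map_smul, smul_eq_mul, mul_comm]
  have h2 : ∑ i, (starRingEnd ℂ) (f (p i)) • p i = 0 := by
    have h3 := congrArg cj h1
    unfold cj at h3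
    rw [map_sum, map_zero] at h3
    rw [← h3]
    refine Finset.sum_congr rfl fun i _ => ?_
    rw [map_mul, map_C, map_map, smul_eq_C_mul]
    congr 1
    have : (starRingEnd ℂ).comp (starRingEnd ℂ) = RingHom.id ℂ := by
      ext x
      simp
    rw [this, map_id]
  have h3 : ∑ i, (starRingEnd ℂ) (f (p i)) * f (p i) = 0 := by
    have h4 := congrArg f h2
    rw [map_sum, map_zero] at h4
    rw [← h4]
    refine Finset.sum_congr rfl fun i _ => ?_
    rw [map_smul, smul_eq_mul]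
  have h4 : (∑ i, ‖f (p i)‖ ^ 2 : ℝ) = 0 := by
    have : ((∑ i, ‖f (p i)‖ ^ 2 : ℝ) : ℂ) = 0 := by
      rw [← h3, Complex.ofReal_sum]
      refine Finset.sum_congr rfl fun i _ => ?_
      rw [mul_comm, Complex.mul_conj, Complex.normSq_eq_norm_sq]
    exact_mod_cast this
  rw [Finset.sum_eq_zero_iff_of_nonneg (fun i _ => by positivity)] at h4
  have h5 := h4 j (Finset.mem_univ j)
  exact hf0 (by simpa using h5)

theorem exists_le_finrank (W : Submodule ℂ (MvPolynomial (Fin n) ℂ)) [FiniteDimensional ℂ W]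
    {k : ℕ} (hk : k ≤ finrank ℂ W) :
    ∃ W' : Submodule ℂ (MvPolynomial (Fin n) ℂ), W' ≤ W ∧ finrank ℂ W' = k := by
  obtain ⟨f, hf⟩ := exists_linearIndependent_of_le_finrank hk
  refine ⟨Submodule.span ℂ (Set.range (fun i => (f i : MvPolynomial (Fin n) ℂ))), ?_, ?_⟩
  · rw [Submodule.span_le]
    rintro _ ⟨i, rfl⟩
    exact (f i).2
  · have := hf.map' W.subtype W.ker_subtype
    have h2 := finrank_span_eq_card this
    rw [Fintype.card_fin] at h2
    exact h2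

theorem finrank_van_add_le {W W' : Submodule ℂ (MvPolynomial (Fin n) ℂ)}
    [FiniteDimensional ℂ W] (h : W' ≤ W) {Z : Set (Fin n → ℂ)} (hZ : van W' Z = ⊥) :
    finrank ℂ (van W Z) + finrank ℂ W' ≤ finrank ℂ W := by
  have : FiniteDimensional ℂ W' := Submodule.finiteDimensional_of_le h
  have h1 := Submodule.finrank_sup_add_finrank_inf_eq (van W Z) W'
  have h2 : van W Z ⊓ W' = ⊥ := by
    rw [eq_bot_iff, ← hZ]
    intro v hv
    exact ⟨hv.2, hv.1.2⟩
  rw [h2, finrank_bot, add_zero] at h1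
  rw [← h1]
  exact Submodule.finrank_mono (sup_le (van_le W Z) h)

theorem gen_finrank_van_kr_le (W : Submodule ℂ (MvPolynomial (Fin n) ℂ))
    [FiniteDimensional ℂ W] {k : ℕ} (hk : k < n) (hkW : k ≤ finrank ℂ W) :
    Gen (fun a : Fin n → ℂ => finrank ℂ (van W (kr a)) + k ≤ finrank ℂ W) := by
  obtain ⟨W', hW', hW'k⟩ := exists_le_finrank W hkW
  have : FiniteDimensional ℂ W' := Submodule.finiteDimensional_of_le hW'
  refine (gen_van_kr_eq_bot W' (by omega)).mono fun a ha => ?_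
  have := finrank_van_add_le hW' ha
  omega

theorem gen_van_kr2_eq_bot (W : Submodule ℂ (MvPolynomial (Fin n) ℂ))
    [FiniteDimensional ℂ W] (h : finrank ℂ W + 1 < n) :
    Gen (fun x : Fin n ⊕ Fin n → ℂ =>
      van W ((kr (x ∘ Sum.inl) : Set (Fin n → ℂ)) ∩ kr (x ∘ Sum.inr)) = ⊥) := by
  obtain ⟨b, hb, hb0⟩ := ((gen_van_kr_eq_bot W (by omega)).and (gen_ne_zero (by omega))).exists
  obtain ⟨a, hab, ha⟩ := points_rel W h hb0 hb
  rw [← Zs_kerF2 hab] at ha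
  refine ((gen_van_eq_bot W (kerF2 n) _ ha).and (gen_ind (by omega))).mono fun x hx => ?_
  obtain ⟨h1, h2⟩ := hx
  rwa [← Sum.elim_comp_inl_inr x, Zs_kerF2 h2] at h1

theorem gen_finrank_van_kr2_le (W : Submodule ℂ (MvPolynomial (Fin n) ℂ))
    [FiniteDimensional ℂ W] {k : ℕ} (hk : k + 1 < n) (hkW : k ≤ finrank ℂ W) :
    Gen (fun x : Fin n ⊕ Fin n → ℂ =>
      finrank ℂ (van W ((kr (x ∘ Sum.inl) : Set (Fin n → ℂ)) ∩ kr (x ∘ Sum.inr))) + k ≤
        finrank ℂ W) := by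
  obtain ⟨W', hW', hW'k⟩ := exists_le_finrank W hkW
  have : FiniteDimensional ℂ W' := Submodule.finiteDimensional_of_le hW'
  refine (gen_van_kr2_eq_bot W' (by omega)).mono fun a ha => ?_
  have := finrank_van_add_le hW' ha
  omega

/-- `a ↦ lf a` as a linear map. -/
noncomputable def lfL (n : ℕ) : (Fin n → ℂ) →ₗ[ℂ] MvPolynomial (Fin n) ℂ where
  toFun := lf
  map_add' := lf_add
  map_smul' c a := by rw [lf_smul, smul_eq_C_mul, RingHom.id_apply]

theorem lfL_apply (a : Fin n → ℂ) : lfL n a = lf a := rfl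

/-- `{a | lf a * h ∈ W}` contains everything if it contains a generic element. -/
theorem lf_mul_mem_of_gen (W : Submodule ℂ (MvPolynomial (Fin n) ℂ))
    (h : MvPolynomial (Fin n) ℂ) (hg : Gen (fun a : Fin n → ℂ => lf a * h ∈ W))
    (a : Fin n → ℂ) : lf a * h ∈ W := by
  have h1 := eq_top_of_gen (W.comap (LinearMap.mulRight ℂ h ∘ₗ lfL n)) hg
  have : a ∈ W.comap (LinearMap.mulRight ℂ h ∘ₗ lfL n) := by
    rw [h1]
    trivial
  exact this

/-- An `n`-dimensional space with a nonzero multiple of each linear form is `h * S_1`. -/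
theorem T4 (hn : 3 ≤ n) (W : Submodule ℂ (MvPolynomial (Fin n) ℂ)) [FiniteDimensional ℂ W]
    (hW : finrank ℂ W = n) (h : Gen (fun a : Fin n → ℂ => van W (kr a) ≠ ⊥)) :
    ∃ g : MvPolynomial (Fin n) ℂ, g ≠ 0 ∧ (∀ a, lf a * g ∈ W) ∧
      ∀ u ∈ W, ∃ a, u = lf a * g := by
  have h1 : Gen (fun a : Fin n → ℂ => finrank ℂ (van W (kr a)) = 1) := by
    refine (h.and (gen_finrank_van_kr_le W (k := n - 1) (by omega) (by omega))).mono
      fun a ha => ?_
    obtain ⟨h1, h2⟩ := ha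
    have h3 : finrank ℂ (van W (kr a)) ≠ 0 := by
      intro h0
      exact h1 (Submodule.finrank_eq_zero.mp h0)
    omega
  have h2 : Gen (fun x : Fin n ⊕ Fin n → ℂ =>
      finrank ℂ (van W ((kr (x ∘ Sum.inl) : Set (Fin n → ℂ)) ∩ kr (x ∘ Sum.inr))) ≤ 2 * 1) := by
    refine (gen_finrank_van_kr2_le W (k := n - 2) (by omega) (by omega)).mono fun x hx => ?_
    omega
  have h3 : Gen (fun x : Fin n ⊕ Fin n → ℂ =>
      van W ((kr (x ∘ Sum.inl) : Set (Fin n → ℂ)) ∪ kr (x ∘ Sum.inr)) = ⊥) := by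
    obtain ⟨a, ha, ha0⟩ := (h1.and (gen_ne_zero (by omega))).exists
    obtain ⟨b, hb, hb0⟩ := ((gen_van_kr_eq_bot (van W (kr a)) (by omega)).and
      (gen_ne_zero (by omega))).exists
    have h4 : van W (Zs (kerFU n) (Sum.elim a b)) = ⊥ := by
      rw [Zs_kerFU ha0 hb0, eq_bot_iff, ← hb]
      intro v hv
      exact ⟨⟨hv.1, fun z hz => hv.2 z (Or.inl hz)⟩, fun z hz => hv.2 z (Or.inr hz)⟩
    refine ((gen_van_eq_bot W (kerFU n) _ h4).and (gen_ind (by omega))).mono fun x hx => ?_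
    obtain ⟨h5, h6⟩ := hx
    rwa [← Sum.elim_comp_inl_inr x, Zs_kerFU h6.left h6.right] at h5
  obtain ⟨U', hU', hfd, hgen⟩ := lemD W 1 (by omega) h1 h2 h3
  obtain ⟨g, hg0, hg⟩ := finrank_eq_one_iff'.mp hU'
  have hg0' : (g : MvPolynomial (Fin n) ℂ) ≠ 0 := fun h0 => hg0 (Subtype.ext h0)
  have hmem : ∀ a, lf a * (g : MvPolynomial (Fin n) ℂ) ∈ W := by
    intro a
    refine lf_mul_mem_of_gen W _ (hgen.mono fun a ha => ?_) a
    have : (g : MvPolynomial (Fin n) ℂ) ∈ U W a := by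
      rw [ha]
      exact g.2
    exact this
  refine ⟨g, hg0', hmem, ?_⟩
  have hinj : Function.Injective (LinearMap.mulRight ℂ (g : MvPolynomial (Fin n) ℂ) ∘ₗ
      lfL n) := by
    rw [← LinearMap.ker_eq_bot, LinearMap.ker_eq_bot']
    intro a ha
    rw [LinearMap.comp_apply, LinearMap.mulRight_apply, lfL_apply] at ha
    by_contra hne
    exact mul_ne_zero (lf_ne_zero hne) hg0' ha
  have hle : LinearMap.range (LinearMap.mulRight ℂ (g : MvPolynomial (Fin n) ℂ) ∘ₗ lfL n) ≤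
      W := by
    rintro _ ⟨a, rfl⟩
    exact hmem a
  have heq := Submodule.eq_of_le_of_finrank_eq hle (by
    rw [LinearMap.finrank_range_of_inj hinj, finrank_fin_fun, hW])
  intro u hu
  rw [← heq] at hu
  obtain ⟨a, rfl⟩ := hu
  exact ⟨a, rfl⟩

theorem isHomogeneous_lf (a : Fin n → ℂ) : (lf a).IsHomogeneous 1 := by
  unfold lf
  refine IsHomogeneous.sum _ _ _ fun i _ => ?_
  have := (isHomogeneous_C (Fin n) (a i)).mul (isHomogeneous_X ℂ i)
  rwa [zero_add] at this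

/-- The analysis of a level at which every pair of linear forms divides a nonzero element. -/
theorem Ltype (hn : 3 ≤ n) (V : Submodule ℂ (MvPolynomial (Fin n) ℂ)) [FiniteDimensional ℂ V]
    (hV : V ≤ homogeneousSubmodule (Fin n) ℂ D) (hD : 3 ≤ D) (hc : Cop V)
    (hL : ∀ a b : Fin n → ℂ, a ≠ 0 → b ≠ 0 →
      van V ((kr a : Set (Fin n → ℂ)) ∪ kr b) ≠ ⊥)
    (r : (Fin n → ℂ) → MvPolynomial (Fin n) ℂ) (hr : ∀ b, lf b * r b ∈ V)
    (hpos : ∀ W : Submodule ℂ (MvPolynomial (Fin n) ℂ),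
      Gen (fun b : Fin n → ℂ => lf b * r b ∈ W) → V ≤ W) :
    n + 1 ≤ mvan V (kerF n) := by
  have hgk : Gen (fun a : Fin n → ℂ => finrank ℂ (U V a) = mvan V (kerF n) ∧ a ≠ 0) := by
    refine ((gen_mvan V (kerF n)).and (gen_ne_zero (by omega))).mono fun a ha => ?_
    rw [finrank_U V ha.2, ← ha.1, Zs_kerF ha.2]
    exact ⟨rfl, ha.2⟩
  -- every form is divisible
  have hdiv : ∀ a b : Fin n → ℂ, Ind a b → van (U V a) (kr b) ≠ ⊥ := by
    intro a b hab h0
    apply hL a b hab.left hab.right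
    rw [eq_bot_iff]
    intro v hv
    rw [mem_van_kr_union hab] at hv
    obtain ⟨hvV, w, rfl⟩ := hv
    have : lf b * w ∈ van (U V a) (kr b) := by
      rw [mem_van_kr hab.right]
      refine ⟨?_, dvd_mul_right _ _⟩
      rw [mem_U, ← mul_assoc]
      exact hvV
    rw [h0, Submodule.mem_bot] at this
    rw [Submodule.mem_bot, mul_assoc, this, mul_zero]
  have hge : n ≤ mvan V (kerF n) := by
    by_contra hlt
    push Not at hlt
    obtain ⟨a, ha, ha0⟩ := hgk.exists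
    have := U_fd V ha0
    obtain ⟨b, hb, hab⟩ := ((gen_van_kr_eq_bot (U V a) (by omega)).and
      (gen_ind_left ha0 (by omega))).exists
    exact hdiv a b hab.symm hb
  by_contra hlt
  have hκ : mvan V (kerF n) = n := by omega
  rw [hκ] at hgk
  have hT : ∀ a : Fin n → ℂ, finrank ℂ (U V a) = n → a ≠ 0 →
      ∃ g : MvPolynomial (Fin n) ℂ, g ≠ 0 ∧ (∀ c, lf c * g ∈ U V a) ∧
        ∀ u ∈ U V a, ∃ c, u = lf c * g := by
    intro a ha ha0
    have := U_fd V ha0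
    refine T4 hn (U V a) ha ?_
    exact (gen_ind_left ha0 (by omega)).mono fun b hb => hdiv a b hb.symm
  obtain ⟨b₀, hb₀, hb₀0⟩ := hgk.exists
  obtain ⟨g₀, hg₀0, hg₀, hg₀'⟩ := hT b₀ hb₀ hb₀0
  have hg₀gen : Gen (fun a : Fin n → ℂ => van (ℂ ∙ g₀) (kr a) = ⊥) :=
    gen_van_kr_eq_bot _ (by rw [finrank_span_singleton hg₀0]; omega)
  have hdvd : V ≤ (Ideal.span {g₀}).restrictScalars ℂ := by
    apply hpos
    refine ((hgk.and hg₀gen).and (gen_ind_left hb₀0 (by omega))).mono fun a ha => ?_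
    obtain ⟨⟨⟨ha, ha0⟩, hag⟩, hab⟩ := ha
    obtain ⟨g, hg0, hg, hg'⟩ := hT a ha ha0
    have h1 : lf a * g ∈ U V b₀ := by
      rw [mem_U]
      have := mem_U.mp (hg b₀)
      rwa [mul_left_comm] at this
    obtain ⟨η, hη⟩ := hg₀' _ h1
    have h2 : ¬ lf a ∣ g₀ := by
      intro hd
      have : g₀ ∈ van (ℂ ∙ g₀) (kr a) :=
        (mem_van_kr ha0).mpr ⟨Submodule.mem_span_singleton_self _, hd⟩
      rw [hag, Submodule.mem_bot] at this
      exact hg₀0 this
    have h3 : lf a ∣ lf η := by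
      have : lf a ∣ lf η * g₀ := ⟨g, hη.symm⟩
      exact ((lf_prime ha0).dvd_or_dvd this).resolve_right h2
    obtain ⟨c, rfl⟩ := eq_smul_of_not_ind
      (fun hi : Ind η a => hi.symm.not_dvd h3) ha0
    have h4 : g = C c * g₀ := by
      apply mul_left_cancel₀ (lf_ne_zero ha0)
      rw [hη, lf_smul]
      ring
    have h5 : r a ∈ U V a := hr a
    obtain ⟨d, hd⟩ := hg' _ h5
    rw [Submodule.restrictScalars_mem, Ideal.mem_span_singleton, hd, h4]
    exact ⟨lf a * lf d * C c, by ring⟩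
  have hunit : IsUnit g₀ := hc g₀ fun v hv => by
    have := hdvd hv
    rwa [Submodule.restrictScalars_mem, Ideal.mem_span_singleton] at this
  obtain ⟨c, hc0, rfl⟩ : ∃ c : ℂ, c ≠ 0 ∧ g₀ = C c := by
    have := MvPolynomial.isUnit_iff_eq_C_of_isReduced.mp hunit
    obtain ⟨c, hc, hcg⟩ := this
    exact ⟨c, hc.ne_zero, hcg⟩
  have h1 : lf b₀ * (lf b₀ * C c) ∈ V := hg₀ b₀
  have h2 : (lf b₀ * (lf b₀ * C c)).IsHomogeneous D := by
    rw [← mem_homogeneousSubmodule]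
    exact hV h1
  have h3 : (lf b₀ * (lf b₀ * C c)).IsHomogeneous (1 + (1 + 0)) :=
    (isHomogeneous_lf b₀).mul ((isHomogeneous_lf b₀).mul (isHomogeneous_C _ _))
  have h4 := h2.inj_right h3
    (mul_ne_zero (lf_ne_zero hb₀0) (mul_ne_zero (lf_ne_zero hb₀0) hg₀0))
  omega

theorem gen_union_of_exists {V : Submodule ℂ (MvPolynomial (Fin n) ℂ)}
    [FiniteDimensional ℂ V] (hn : 2 ≤ n)
    (hS : ∃ a b : Fin n → ℂ, a ≠ 0 ∧ b ≠ 0 ∧
      van V ((kr a : Set (Fin n → ℂ)) ∪ kr b) = ⊥) :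
    Gen (fun x : Fin n ⊕ Fin n → ℂ =>
      van V ((kr (x ∘ Sum.inl) : Set (Fin n → ℂ)) ∪ kr (x ∘ Sum.inr)) = ⊥) := by
  obtain ⟨a, b, ha0, hb0, hab⟩ := hS
  rw [← Zs_kerFU ha0 hb0] at hab
  refine ((gen_van_eq_bot V (kerFU n) _ hab).and (gen_ind hn)).mono fun x hx => ?_
  obtain ⟨h1, h2⟩ := hx
  rwa [← Sum.elim_comp_inl_inr x, Zs_kerFU h2.left h2.right] at h1

theorem gen_finrank_van_kr (V : Submodule ℂ (MvPolynomial (Fin n) ℂ))
    [FiniteDimensional ℂ V] (hn : 1 ≤ n) :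
    Gen (fun a : Fin n → ℂ => finrank ℂ (van V (kr a)) = mvan V (kerF n)) := by
  refine ((gen_mvan V (kerF n)).and (gen_ne_zero hn)).mono fun a ha => ?_
  rw [← ha.1, Zs_kerF ha.2]

theorem Stype_le {V : Submodule ℂ (MvPolynomial (Fin (n + 2)) ℂ)} [FiniteDimensional ℂ V]
    (hS : ∃ a b : Fin (n + 2) → ℂ, a ≠ 0 ∧ b ≠ 0 ∧
      van V ((kr a : Set (Fin (n + 2) → ℂ)) ∪ kr b) = ⊥) :
    finrank ℂ V + rk V n ≤ 2 * rk V (n + 1) := by
  have h1 := gen_union_of_exists (by omega) hS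
  have h2 := gen_van_kerF2 V
  have h3 : rk V (n + 1) + mvan V (kerF (n + 2)) = finrank ℂ V := rk_kerF V
  have h4 := gen_finrank_van_kr V (by omega)
  obtain ⟨a, ⟨⟨h5, h6⟩, h7⟩⟩ := ((h1.pair.and h2.pair).and h4).exists
  obtain ⟨b, ⟨⟨h8, h9⟩, h10⟩⟩ := ((h5.and h6).and h4).exists
  rw [Sum.elim_comp_inl, Sum.elim_comp_inr] at h8 h9
  have h11 := Submodule.finrank_sup_add_finrank_inf_eq (van V (kr a)) (van V (kr b))
  have h12 : van V (kr a) ⊓ van V (kr b) = ⊥ := by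
    rw [eq_bot_iff, ← h8]
    rintro v ⟨hv1, hv2⟩
    refine ⟨hv1.1, ?_⟩
    rintro z (hz | hz)
    · exact hv1.2 z hz
    · exact hv2.2 z hz
  rw [h12, finrank_bot, add_zero, h7, h10] at h11
  have h13 : finrank ℂ ↥(van V (kr a) ⊔ van V (kr b)) ≤
      finrank ℂ (van V ((kr a : Set (Fin (n + 2) → ℂ)) ∩ kr b)) :=
    Submodule.finrank_mono (sup_le (van_anti Set.inter_subset_left)
      (van_anti Set.inter_subset_right))
  omega

theorem Stype_eq {V : Submodule ℂ (MvPolynomial (Fin (n + 2)) ℂ)} [FiniteDimensional ℂ V]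
    (hS : ∃ a b : Fin (n + 2) → ℂ, a ≠ 0 ∧ b ≠ 0 ∧
      van V ((kr a : Set (Fin (n + 2) → ℂ)) ∪ kr b) = ⊥)
    (heq : finrank ℂ V + rk V n = 2 * rk V (n + 1))
    (hlt : finrank ℂ V + 1 < rk V (n + 1) + (n + 2)) :
    ∃ U' : Submodule ℂ (MvPolynomial (Fin (n + 2)) ℂ), rk V (n + 1) + finrank ℂ U' =
      finrank ℂ V ∧ FiniteDimensional ℂ U' ∧
      Gen (fun a : Fin (n + 2) → ℂ => U V a = U') := by
  have h1 := gen_union_of_exists (by omega) hS
  have h2 := gen_van_kerF2 V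
  have h3 : rk V (n + 1) + mvan V (kerF (n + 2)) = finrank ℂ V := rk_kerF V
  have h4 := gen_finrank_van_kr V (by omega)
  obtain ⟨U', hU', hfd, hgen⟩ := lemD V (mvan V (kerF (n + 2))) (by omega) h4
    (h2.mono fun x hx => by omega) h1
  exact ⟨U', by rw [hU']; exact h3, hfd, hgen⟩

end Pool.Agent.Lib_helper26.Ebe
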