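import Pool.Agent.Lib_helper26.Ebe.Plat2
import Pool.Agent.Lib_helper97.Ebe.X1
import Pool.Agent.Lib_helper97.Ebe.H

/-!
# The gap theorem
-/

namespace Pool.Agent.Lib_helper26.Ebe

open MvPolynomial Pool.Agent.Lib_helper26.SOS Module
open Pool.Agent.Lib_helper97.Ebe (numeric S1 homogeneous_coprime finrank_U_le_one)

variable {n m j D : ℕ}

namespace Setting

variable {ρ : ℕ} {p : Fin m → MvPolynomial (Fin n) ℂ}
    {A : MvPolynomial (Fin n ⊕ Fin n) ℂ} {V : Submodule ℂ (MvPolynomial (Fin n) ℂ)}
    {f : Fin ρ → MvPolynomial (Fin n) ℂ} {ε : Fin ρ → ℝ}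

theorem hX (s : Setting n m D ρ p A V f ε) (hn : 3 ≤ n) (h2 : rk V 2 ≤ 3) :
    rk V 3 ≤ rk V 2 + 1 := by
  have hfd := s.fd
  obtain ⟨g, g₀, T, hT, hg, -, hcop, hrk, -⟩ := s.recH (by omega) hn 1 one_ne_zero
  have hW : V.map (sub g).toLinearMap ≤ homogeneousSubmodule (Fin 3) ℂ D := by
    rintro _ ⟨v, hv, rfl⟩
    exact isHomogeneous_sub g (s.hVD hv)
  have h3 := finrank_U_le_one (V.map (sub g).toLinearMap) s.hD hW
    (cop_restrict le_rfl _ hW hcop) (by rw [hrk 2 (by omega)]; exact h2)
  obtain ⟨a, ha, ha0⟩ := (h3.and (gen_ne_zero (by omega))).exists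
  rw [finrank_U _ ha0] at ha
  have h4 := mvan_le (V.map (sub g).toLinearMap) (kerF 3) a
  rw [Zs_kerF ha0] at h4
  have h5 : rk (V.map (sub g).toLinearMap) 2 + mvan (V.map (sub g).toLinearMap) (kerF 3) =
    finrank ℂ (V.map (sub g).toLinearMap) := rk_kerF _
  rw [← rk_self, hrk 3 le_rfl, hrk 2 (by omega)] at h5
  omega

theorem gapless_ge_five (s : Setting n m D ρ p A V f ε) (hn : 5 ≤ n) : Gapless n m := by
  rcases s.seq (by omega) (s.hX (by omega)) with h | ⟨t, ht1, ht2, hs⟩
  · exact h
  · apply gapless_of_numeric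
    intro K hK
    have h1 := numeric hn (rk V) t hs.htn hs.h0 hs.h1 hs.hpos hs.hL hs.hS hs.hP hs.hTop
      hs.hSA (fun h3 => by
        by_contra h4
        have h5 := hs.hL 3 le_rfl h3
        have h6 := hs.h2 (by omega)
        rw [show 3 - 1 = 2 from rfl] at h5
        omega) K hK
    rcases h1 with h1 | ⟨h5, hr2, hr3, hr4, hr5⟩
    · rwa [hs.hrn] at h1
    · exfalso
      subst h5
      have ht : t < 3 := by
        by_contra h3
        have h5 := hs.hL 3 le_rfl (by omega)
        rw [show 3 - 1 = 2 from rfl] at h5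
        omega
      have hk2 : rk V (2 + 2) = 10 := hr4
      have hk3 : rk V (2 + 1) = 7 := hr3
      obtain ⟨g, U', hfdU, -, hU', -, hρ⟩ := plateau2 (k := 2) s.hV (by omega)
        (s.recH (by omega) (by omega)) (ht2 3 ht (by omega)) (by rw [hk2, hk3, hr2])
        (by rw [hk2, hk3]; omega)
      rw [hk2, hk3] at hU'
      rw [s.hAe, finrank_sp_dg s.hf s.hε] at hρ
      have h6 := rank_bound s.hε s.hAe s.hne s.hA s.hV 4
      omega

theorem gapless_four {p : Fin m → MvPolynomial (Fin 4) ℂ}
    {A : MvPolynomial (Fin 4 ⊕ Fin 4) ℂ} {V : Submodule ℂ (MvPolynomial (Fin 4) ℂ)}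
    {f : Fin ρ → MvPolynomial (Fin 4) ℂ}
    (s : Setting 4 m D ρ p A V f ε) : Gapless 4 m := by
  rcases s.seq (by omega) (s.hX (by omega)) with h | ⟨t, ht1, ht2, hs⟩
  · exact h
  · have hm : m = 4 ∨ 8 ≤ m := by
      have h4 := hs.hSA 4 (by omega) le_rfl
      have h3 := hs.hpos 3 (by omega) (by omega)
      have h2 := hs.hpos 2 (by omega) (by omega)
      have h4' := hs.hpos 4 (by omega) (by omega)
      have h1 := hs.h1
      have hrn := hs.hrn
      rw [show 4 - 2 = 2 from rfl] at h4
      rw [show 3 - 1 = 2 from rfl] at h3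
      rw [show 2 - 1 = 1 from rfl] at h2
      rw [show 4 - 1 = 3 from rfl] at h4'
      by_cases h5 : 4 ≤ rk V 2
      · right
        omega
      · left
        have h6 := hs.h2 (by omega)
        have ht : t < 3 := by
          by_contra h3
          have h5 := hs.hL 3 le_rfl (by omega)
          rw [show 3 - 1 = 2 from rfl] at h5
          omega
        have h7 := hs.hS 4 (by omega) (by omega) le_rfl
        rw [show 4 - 1 = 3 from rfl, show 4 - 2 = 2 from rfl] at h7
        omega
    intro k hk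
    have ht := tri k
    rcases hm with rfl | hm
    · have : k = 0 := by omega
      subst this
      omega
    · rcases Nat.lt_or_ge k 2 with h | h
      · have : k = 0 ∨ k = 1 := by omega
        rcases this with rfl | rfl <;> omega
      · have h1 : 2 * 3 ≤ k * (k + 1) := Nat.mul_le_mul h (by omega)
        omega

end Setting

/-- Ebenfelt's SOS conjecture, except for `n = 3`, `m = 4`. -/
theorem gapless_of_mem (hX3 : n = 3 → m ≠ 4) (hm : m ∈ S 1 n) : Gapless n m := by
  rcases Nat.eq_zero_or_pos m with hm0 | hm0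
  · subst hm0
    intro k hk
    omega
  rcases Nat.lt_or_ge n 2 with hn | hn
  · intro k hk
    have : n = 0 ∨ n = 1 := by omega
    rcases this with rfl | rfl <;> omega
  have hmin : n ≤ m := by
    have := le_of_mem_S (by omega) hm hm0.ne'
    rwa [Nat.add_sub_cancel, Nat.choose_one_right] at this
  rcases Nat.lt_or_ge n 3 with hn3 | hn3
  · obtain rfl : n = 2 := by omega
    intro k hk
    have ht := tri k
    rcases Nat.eq_zero_or_pos k with rfl | hk0
    · omega
    · have h1 : 1 * 2 ≤ k * (k + 1) := Nat.mul_le_mul hk0 (by omega)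
      omega
  obtain ⟨D, p, hp, hhom, hcop, A, hA⟩ := homogeneous_coprime hn hm hm0.ne'
  obtain ⟨ρ, f, ε, hf, hε, hAe⟩ := hermitian_diag (by omega) p A hA
  have hAe' : A = dg f ε := hAe
  by_cases hpsd : ∀ k, ε k = 1
  · exact gapless_of_psd hp hpsd (by rw [← hAe']; exact hA)
  · have hD : 3 ≤ D := by
      by_contra hlt
      exact hpsd (psd_of_degree_le_two (by omega) hhom (by omega) hf hε
        (by rw [← hAe']; exact hA))
    push Not at hpsd
    obtain ⟨k, hk⟩ := hpsd
    have s : Setting n m D ρ p A (Submodule.span ℂ (Set.range p)) f ε :=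
      ⟨hp, rfl, hhom, hD, fun h hh => hcop h fun i => hh _ (Submodule.subset_span ⟨i, rfl⟩),
        hA, hf, hε, hAe', ⟨k, (hε k).resolve_left hk⟩⟩
    rcases Nat.lt_or_ge n 5 with hn5 | hn5
    · have : n = 3 ∨ n = 4 := by omega
      rcases this with rfl | rfl
      · have hm4 : m ≠ 4 := hX3 rfl
        intro k hk
        have ht := tri k
        rcases Nat.lt_or_ge k 2 with h | h
        · have : k = 0 ∨ k = 1 := by omega
          rcases this with rfl | rfl <;> omega
        · have h1 : 2 * 3 ≤ k * (k + 1) := Nat.mul_le_mul h (by omega)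
          omega
      · exact s.gapless_four
    · exact s.gapless_ge_five hn5

end Pool.Agent.Lib_helper26.Ebe
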