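import Pool.Agent.Lib_helper26.Ebe.Final
import Pool.Agent.Lib_helper97.Ebe.X2

/-!
# The second plateau lemma
-/

namespace Pool.Agent.Lib_helper26.Ebe

open MvPolynomial Pool.Agent.Lib_helper26.SOS Module
open Pool.Agent.Lib_helper97.Ebe (numeric S1 S1_eq_span lf_mul_mem_S1)

variable {n m j D : ℕ}

theorem gen_injective {k : ℕ} (hk : k ≤ n) :
    Gen (fun g : Fin n × Fin k → ℂ => Function.Injective (mv g)) := by
  refine ⟨topdet hk, topdet_ne_zero hk, fun g hg => ?_⟩
  rw [eval_topdet] at hg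
  intro x y hxy
  have h1 : (Matrix.of fun i j : Fin k => g (Fin.castLE hk i, j)).mulVec (x - y) = 0 := by
    funext i
    have h2 := congrFun hxy (Fin.castLE hk i)
    simp only [mv] at h2
    simp only [Matrix.mulVec, dotProduct, Matrix.of_apply, Pi.sub_apply, Pi.zero_apply,
      mul_sub, Finset.sum_sub_distrib]
    rw [h2, sub_self]
  by_contra hne
  exact hg (Matrix.exists_mulVec_eq_zero_iff.mp ⟨x - y, sub_ne_zero.mpr hne, h1⟩)

/-- A good hyperplane in a generic subspace. -/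
theorem exists_good2 {p : Fin m → MvPolynomial (Fin n) ℂ}
    {A : MvPolynomial (Fin n ⊕ Fin n) ℂ} {V : Submodule ℂ (MvPolynomial (Fin n) ℂ)}
    (hV : V = Submodule.span ℂ (Set.range p)) (hj : 2 ≤ j)
    (hrec : RecHyp p A V (j + 1)) (hS : St V j) :
    ∃ g : Fin n × Fin (j + 1) → ℂ,
      (∃ h : Fin (j + 1) × Fin j → ℂ, Function.Injective (mv h) ∧
        finrank ℂ ((V.map (sub g).toLinearMap).map (sub h).toLinearMap) = rk V j ∧
        ∃ a b : Fin j → ℂ, Ind a b ∧
        van ((V.map (sub g).toLinearMap).map (sub h).toLinearMap)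
          ((kr a : Set (Fin j → ℂ)) ∪ kr b) = ⊥) ∧
      (∀ l ≤ j + 1, rk (V.map (sub g).toLinearMap) l = rk V l) ∧
      ∃ A' : MvPolynomial (Fin (j + 1) ⊕ Fin (j + 1)) ℂ,
        (∑ i, rename Sum.inl (sub g (p i)) * rename Sum.inr (cj (sub g (p i))) =
          q (j + 1) * A') ∧
        min (finrank ℂ (Submodule.span ℂ (Set.range (fun b => sp b A)))) (j + 1) ≤
          finrank ℂ (Submodule.span ℂ (Set.range (fun b => sp b A'))) := by
  classical
  have hfd := fd_of_span hV
  let F : (Fin n × Fin j) ⊕ (Fin j ⊕ Fin j) →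
      MvPolynomial ((Fin n × Fin (j + 1)) ⊕ ((Fin (j + 1) × Fin j) ⊕ (Fin j ⊕ Fin j))) ℂ :=
    Sum.elim (fun x => ∑ l, X (Sum.inl (x.1, l)) * X (Sum.inr (Sum.inl (l, x.2))))
      (fun x => X (Sum.inr (Sum.inr x)))
  have hF := (((hS.and (gen_rk V j).fst).and (gen_ind hj).snd).pull F (by
    intro x
    refine ⟨Sum.elim
      (fun y => (Fin.snoc (fun l : Fin j => x (Sum.inl (y.1, l))) 0 : Fin (j + 1) → ℂ) y.2)
      (Sum.elim (fun y => if y.1 = y.2.castSucc then 1 else 0) (fun y => x (Sum.inr y))), ?_⟩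
    rintro (⟨i, l⟩ | i) <;> simp [F])).and ((gen_injective (Nat.le_succ j)).fst.snd)
  obtain ⟨Φ, hΦ0, hΦ⟩ := hF.pair
  obtain ⟨g, g₀, T, hT, hg, hg₀, -, hrk, A', hA', hρ⟩ := hrec Φ hΦ0
  obtain ⟨y, ⟨⟨hy1, hy2⟩, hy3⟩, hy4⟩ := (hΦ g₀ hg₀).exists
  set h : Fin (j + 1) × Fin j → ℂ := fun x => y (Sum.inl x) with hh
  have hg' : g = mulg g₀ (toG T) := hg
  have hcomp : (fun i => eval (Sum.elim g₀ y) (F i)) ∘ Sum.inl = mulg g₀ h := by
    funext x
    simp [F, mulg, hh]
  have hinj : Function.Injective (mv h) := hy4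
  have hfin : finrank ℂ (V.map (sub (mulg g₀ h)).toLinearMap) = rk V j := by
    have := hy2
    rw [hcomp] at this
    exact this
  have hab : Ind (fun i => y (Sum.inr (Sum.inl i))) (fun i => y (Sum.inr (Sum.inr i))) := by
    have := hy3
    convert this using 1 <;> funext i <;> simp [F]
  have hst : StP V (mulg g₀ h) (fun i => y (Sum.inr (Sum.inl i)))
      (fun i => y (Sum.inr (Sum.inr i))) := by
    have h1 := hy1
    rw [hcomp] at h1
    convert h1 using 1 <;> funext i <;> simp [F]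
  have hmul : mulg g (mulg (toG T⁻¹) h) = mulg g₀ h := by
    rw [hg', mulg_assoc, ← mulg_assoc (toG T), mulg_toG, Matrix.mul_nonsing_inv T hT,
      one_mulg]
  refine ⟨g, ⟨mulg (toG T⁻¹) h, ?_, ?_, _, _, hab, ?_⟩, hrk, A', hA', hρ⟩
  · intro x x' hx
    apply hinj
    rw [mv_mulg, mv_mulg] at hx
    have h1 := congrArg (mv (toG T)) hx
    have h2 : ∀ z : Fin (j + 1) → ℂ, mv (toG T) (mv (toG T⁻¹) z) = z := by
      intro z
      rw [← mv_mulg, mulg_toG, Matrix.mul_nonsing_inv T hT, mv_toG_one]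
    rwa [h2, h2] at h1
  · rw [← map_sub_mulg, hmul, hfin]
  · rw [← map_sub_mulg, hmul, ← stP_iff]
    exact hst

/-- The second plateau lemma: `κ` is only required to be less than the number of variables, but
the previous level has to be of the second type. -/
theorem plateau2 {p : Fin m → MvPolynomial (Fin n) ℂ}
    {A : MvPolynomial (Fin n ⊕ Fin n) ℂ} {V : Submodule ℂ (MvPolynomial (Fin n) ℂ)}
    (hV : V = Submodule.span ℂ (Set.range p)) {k : ℕ} (hk : 1 ≤ k)
    (hrec : RecHyp p A V (k + 2)) (hS : St V (k + 1))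
    (heq : rk V (k + 2) + rk V k = 2 * rk V (k + 1))
    (hlt : rk V (k + 2) < rk V (k + 1) + (k + 2)) :
    ∃ (g : Fin n × Fin (k + 2) → ℂ) (U' : Submodule ℂ (MvPolynomial (Fin (k + 2)) ℂ)),
      FiniteDimensional ℂ U' ∧
      finrank ℂ (V.map (sub g).toLinearMap) = rk V (k + 2) ∧
      rk V (k + 1) + finrank ℂ U' = rk V (k + 2) ∧
      V.map (sub g).toLinearMap = S1 U' ∧
      finrank ℂ (Submodule.span ℂ (Set.range (fun b => sp b A))) ≤ finrank ℂ U' := by
  have hfd := fd_of_span hV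
  obtain ⟨g, hh, hrk, A', hA', hρ⟩ := exists_good2 (j := k + 1) hV (by omega) hrec hS
  have h0 := hrk (k + 2) le_rfl
  have h1 := hrk (k + 1) (by omega)
  have h2 := hrk k (by omega)
  rw [rk_self] at h0
  obtain ⟨h, hinj, hfin, a, b, hab, hvan⟩ := hh
  obtain ⟨U', hU', hfdU, hgen, hmul⟩ := Pool.Agent.Lib_helper97.Ebe.plateau
    (n := k) (V.map (sub g).toLinearMap) (by rw [h0, h1, h2]; exact heq)
    (by rw [h0, h1]; exact hlt)
    ⟨h, hinj, by rw [hfin, h1], a, b, hab, hvan⟩
  have hU'' : rk V (k + 1) + finrank ℂ U' = rk V (k + 2) := by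
    rw [h0, h1] at hU'
    omega
  have hmem : ∀ b : Fin (k + 2) → ℂ, lf b * sp b A' ∈ V.map (sub g).toLinearMap := by
    intro b
    rw [hV, map_span_sub]
    exact lf_mul_sp_mem hA' b
  have hspU : Gen (fun b : Fin (k + 2) → ℂ => sp b A' ∈ U') := by
    refine hgen.mono fun b hb => ?_
    rw [← hb]
    exact hmem b
  refine ⟨g, U', hfdU, h0, hU'', ?_, ?_⟩
  · apply le_antisymm
    · have h4 : V.map (sub g).toLinearMap =
        Submodule.span ℂ (Set.range (fun i => sub g (p i))) := by rw [hV, map_span_sub]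
      rw [h4]
      apply pos_of_identity hA'
      exact hspU.mono fun b hb => lf_mul_mem_S1 b hb
    · rw [S1_eq_span, Submodule.span_le]
      rintro _ ⟨i, u, hu, rfl⟩
      have h4 := hmul u hu (Pi.single i 1)
      have h5 : lf (Pi.single i 1 : Fin (k + 2) → ℂ) = X i := by
        unfold lf
        rw [Finset.sum_eq_single i]
        · simp
        · intro l _ hl
          simp [hl]
        · simp
      rw [h5] at h4
      exact h4
  · have h4 : finrank ℂ (Submodule.span ℂ (Set.range (fun b => sp b A'))) ≤ finrank ℂ U' :=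
      finrank_sp_le (by omega) hA' hspU
    have h5 : finrank ℂ U' < k + 2 := by omega
    have h6 := hρ.trans h4
    rcases min_choice (finrank ℂ (Submodule.span ℂ (Set.range (fun b => sp b A))))
      (k + 1 + 1) with h7 | h7
    · rwa [h7] at h6
    · rw [h7] at h6
      omega

end Pool.Agent.Lib_helper26.Ebe
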