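import Pool.Agent.Lib_helper26.Ebe.Lev

/-!
# Superadditivity of the ranks
-/

namespace Pool.Agent.Lib_helper26.Ebe

open MvPolynomial Pool.Agent.Lib_helper26.SOS Module
open Pool.Agent.Lib_helper97.Ebe (eval_lf lf_ne_zero q_not_dvd_inr)

variable {n j m : ℕ}

/-- Generic properties and complex conjugation. -/
theorem Gen.conj {τ : Type*} {P : (τ → ℂ) → Prop} (h : Gen P) :
    Gen (fun x : τ → ℂ => P (fun i => (starRingEnd ℂ) (x i))) := by
  obtain ⟨Φ, h0, hΦ⟩ := h
  refine ⟨map (starRingEnd ℂ) Φ, ?_, fun x hx => hΦ _ ?_⟩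
  · intro hc
    apply h0
    apply map_injective _ (starRingEnd ℂ).injective
    rw [hc, map_zero]
  · intro h1
    apply hx
    have h2 := congrArg (starRingEnd ℂ) h1
    rw [map_zero] at h2
    rw [← h2, eval_map, ← coe_eval₂Hom]
    have := MvPolynomial.map_eval₂Hom (RingHom.id ℂ) (fun i => (starRingEnd ℂ) (x i))
      (starRingEnd ℂ)  Φ
    rw [RingHom.comp_id] at this
    rw [show eval (fun i => (starRingEnd ℂ) (x i)) Φ =
      eval₂Hom (RingHom.id ℂ) (fun i => (starRingEnd ℂ) (x i)) Φ from rfl, this]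
    congr 2
    simp

theorem superadd (p : Fin m → MvPolynomial (Fin (n + 2)) ℂ)
    (A : MvPolynomial (Fin (n + 2) ⊕ Fin (n + 2)) ℂ)
    (hA : ∑ i, rename Sum.inl (p i) * rename Sum.inr (cj (p i)) = q (n + 2) * A) :
    rk (Submodule.span ℂ (Set.range p)) n + rk (Submodule.span ℂ (Set.range p)) 2 ≤
      finrank ℂ (Submodule.span ℂ (Set.range p)) := by
  classical
  set V := Submodule.span ℂ (Set.range p) with hV
  have : FiniteDimensional ℂ V := FiniteDimensional.span_of_finite ℂ (Set.finite_range p)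
  have h1 := gen_van_kerF2 V
  have h2 := ((gen_rk V 2).pull (ρ := Fin (n + 2) ⊕ Fin (n + 2))
    (fun x => if x.2 = 0 then X (Sum.inl x.1) else X (Sum.inr x.1)) (by
      intro x
      refine ⟨Sum.elim (fun i => x (i, 0)) (fun i => x (i, 1)), ?_⟩
      rintro ⟨i, k⟩
      fin_cases k <;> simp)).conj
  obtain ⟨x, hx1, hx2⟩ := (h1.and h2).exists
  set a := x ∘ Sum.inl with ha
  set b := x ∘ Sum.inr with hb
  set g : Fin (n + 2) × Fin 2 → ℂ := fun i =>
    eval (fun i => (starRingEnd ℂ) (x i))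
      (if i.2 = 0 then X (Sum.inl i.1) else X (Sum.inr i.1)) with hg
  have hg0 : ∀ i, g (i, 0) = (starRingEnd ℂ) (a i) := by
    intro i
    simp [hg, ha]
  have hg1 : ∀ i, g (i, 1) = (starRingEnd ℂ) (b i) := by
    intro i
    simp [hg, hb]
  obtain ⟨L, hL, hLran⟩ : ∃ L : EuclideanSpace ℂ (Fin m) →ₗ[ℂ] MvPolynomial (Fin (n + 2)) ℂ,
      (∀ c, L c = ∑ i, c i • p i) ∧ LinearMap.range L = V := by
    refine ⟨(Fintype.linearCombination ℂ p) ∘ₗ
      (WithLp.linearEquiv 2 ℂ (Fin m → ℂ)).toLinearMap, fun c => rfl, ?_⟩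
    rw [LinearMap.range_comp_of_range_eq_top _ (LinearEquiv.range _),
      Fintype.range_linearCombination]
  have hLV : ∀ c, L c ∈ V := by
    intro c
    rw [← hLran]
    exact ⟨c, rfl⟩
  obtain ⟨K, hK⟩ : ∃ K, K = LinearMap.ker L := ⟨_, rfl⟩
  have hVK : finrank ℂ V + finrank ℂ K = m := by
    have := L.finrank_range_add_finrank_ker
    rw [hLran, ← hK, finrank_euclideanSpace, Fintype.card_fin] at this
    exact this
  obtain ⟨E, hE⟩ : ∃ E, E = van V ((kr a : Set (Fin (n + 2) → ℂ)) ∩ kr b) := ⟨_, rfl⟩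
  have hEfd : FiniteDimensional ℂ E := by
    rw [hE]
    infer_instance
  obtain ⟨E', hE'eq⟩ : ∃ E', E' = E.comap L := ⟨_, rfl⟩
  have hKE' : K ≤ E' := by
    intro c hc
    rw [hK, LinearMap.mem_ker] at hc
    rw [hE'eq, Submodule.mem_comap, hc]
    exact E.zero_mem
  have hE' : finrank ℂ E' ≤ finrank ℂ E + finrank ℂ K := by
    have h3 : E'.map L ≤ E := by
      rw [hE'eq]
      exact Submodule.map_comap_le L E
    have h4 := (L.domRestrict E').finrank_range_add_finrank_ker
    rw [LinearMap.range_domRestrict, LinearMap.ker_domRestrict, ← hK] at h4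
    have h5 : finrank ℂ (K.comap E'.subtype) = finrank ℂ K :=
      (Submodule.comapSubtypeEquivOfLe hKE').finrank_eq
    have h6 := Submodule.finrank_mono h3
    omega
  have horth := Submodule.finrank_add_finrank_orthogonal E'
  rw [finrank_euclideanSpace, Fintype.card_fin] at horth
  have hRw : ∀ w, (∀ z, z ∈ kr a → z ∈ kr b → z ∈ kr w) →
      (WithLp.toLp 2 (fun i => eval w (cj (p i))) : EuclideanSpace ℂ (Fin m)) ∈ E' := by
    intro w hw
    have h3 : L (WithLp.toLp 2 (fun i => eval w (cj (p i)))) = lf w * sp w A := by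
      have h4 := congrArg (sp w) hA
      rw [map_sum, map_mul, sp_q'] at h4
      rw [← h4, hL]
      refine Finset.sum_congr rfl fun i _ => ?_
      rw [map_mul, sp_inl, sp_inr, smul_eq_C_mul, mul_comm]
    rw [hE'eq, Submodule.mem_comap, hE, mem_van]
    refine ⟨hLV _, ?_⟩
    rintro z ⟨hza, hzb⟩
    rw [h3, map_mul, eval_lf', show krl w z = 0 from hw z hza hzb, zero_mul]
  have hperp : finrank ℂ E'ᗮ ≤ finrank ℂ (van V (Set.range (mv g))) := by
    have h3 : E'ᗮ.map L ≤ van V (Set.range (mv g)) := by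
      rintro _ ⟨c, hc, rfl⟩
      refine ⟨hLV c, ?_⟩
      rintro _ ⟨y, rfl⟩
      let w : Fin (n + 2) → ℂ := fun i => (starRingEnd ℂ) (mv g y i)
      have hw : ∀ z, z ∈ kr a → z ∈ kr b → z ∈ kr w := by
        intro z hza hzb
        rw [mem_kr] at *
        have h4 : ∀ i, w i = (starRingEnd ℂ) (y 0) * a i + (starRingEnd ℂ) (y 1) * b i := by
          intro i
          simp only [w, mv, Fin.sum_univ_two, hg0, hg1, map_add, map_mul,
            Complex.conj_conj]
          ring
        calc ∑ i, w i * z i = (starRingEnd ℂ) (y 0) * ∑ i, a i * z i +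
              (starRingEnd ℂ) (y 1) * ∑ i, b i * z i := by
              rw [Finset.mul_sum, Finset.mul_sum, ← Finset.sum_add_distrib]
              exact Finset.sum_congr rfl fun i _ => by rw [h4]; ring
          _ = 0 := by rw [hza, hzb]; ring
      have h4 := (Submodule.mem_orthogonal E' c).mp hc _ (hRw w hw)
      rw [PiLp.inner_apply] at h4
      rw [hL, map_sum, ← h4]
      refine Finset.sum_congr rfl fun i _ => ?_
      have h5 : eval w (cj (p i)) = (starRingEnd ℂ) (eval (mv g y) (p i)) :=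
        eval_cj (p i) (mv g y)
      rw [smul_eval, RCLike.inner_apply]
      change _ = _ * (starRingEnd ℂ) (eval w (cj (p i)))
      rw [h5, Complex.conj_conj]
    have hinj : Function.Injective (L.domRestrict E'ᗮ) := by
      rw [← LinearMap.ker_eq_bot, LinearMap.ker_eq_bot']
      rintro ⟨c, hc⟩ hc0
      rw [LinearMap.domRestrict_apply] at hc0
      have h4 : c ∈ E' := hKE' (by rw [hK]; exact hc0)
      have h5 : c ∈ E' ⊓ E'ᗮ := ⟨h4, hc⟩
      rw [Submodule.inf_orthogonal_eq_bot, Submodule.mem_bot] at h5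
      exact Subtype.ext h5
    have h4 := LinearMap.finrank_range_of_inj hinj
    rw [LinearMap.range_domRestrict] at h4
    rw [← h4]
    exact Submodule.finrank_mono h3
  have h5 := finrank_map_add_van V g
  have h6 : finrank ℂ (V.map (sub g).toLinearMap) = rk V 2 := hx2
  have h7 : finrank ℂ E + rk V n = finrank ℂ V := by
    rw [hE]
    exact hx1
  omega

end Pool.Agent.Lib_helper26.Ebe
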