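import Pool.Agent.Lib_helper26.Ebe.Div
import Pool.Agent.Lib_helper26.Ebe.KL
import Pool.Agent.Lib_helper97.Ebe.H

/-!
# Elements divisible by the square of a generic linear form
-/

namespace Pool.Agent.Lib_helper26.Ebe

open MvPolynomial Pool.Agent.Lib_helper26.SOS Module
open Pool.Agent.Lib_helper97.Ebe (eval_lf lf_ne_zero q_not_dvd_inr)

variable {n m : ℕ}

theorem sp_q' (b : Fin n → ℂ) : sp b (q n) = lf b := by
  rw [sp_q, lf]
  exact Finset.sum_congr rfl fun i _ => mul_comm _ _

/-- A criterion for divisibility by `q`. -/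
theorem q_dvd_of_eval (hn : 2 ≤ n) (P : MvPolynomial (Fin n ⊕ Fin n) ℂ)
    (h : ∀ z b : Fin n → ℂ, b ≠ 0 → z ∈ kr b → eval (Sum.elim z b) P = 0) : q n ∣ P := by
  by_contra hc
  obtain ⟨z, b, hzb, hP, hb⟩ := exists_point hn P hc ⟨0, by omega⟩
  apply hP
  apply h
  · rintro rfl
    exact hb rfl
  · rw [mem_kr, ← hzb]
    exact Finset.sum_congr rfl fun i _ => mul_comm _ _

/-- The polynomial `∑ p_j(z) x_j(b)`. -/
noncomputable def fam (p x : Fin m → MvPolynomial (Fin n) ℂ) :
    MvPolynomial (Fin n ⊕ Fin n) ℂ :=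
  ∑ j, rename Sum.inl (p j) * rename Sum.inr (x j)

theorem sp_fam (p x : Fin m → MvPolynomial (Fin n) ℂ) (b : Fin n → ℂ) :
    sp b (fam p x) = ∑ j, eval b (x j) • p j := by
  unfold fam
  rw [map_sum]
  refine Finset.sum_congr rfl fun j _ => ?_
  rw [map_mul, sp_inl, sp_inr, mul_comm, smul_eq_C_mul]

theorem eval_fam (p x : Fin m → MvPolynomial (Fin n) ℂ) (z b : Fin n → ℂ) :
    eval (Sum.elim z b) (fam p x) = ∑ j, eval z (p j) * eval b (x j) := by
  unfold fam
  rw [map_sum]
  refine Finset.sum_congr rfl fun j _ => ?_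
  rw [map_mul, eval_rename_inl, eval_rename_inr]

theorem fam_ne_zero {p x : Fin m → MvPolynomial (Fin n) ℂ} (hp : LinearIndependent ℂ p)
    (hx : x ≠ 0) : fam p x ≠ 0 := by
  intro h
  apply hx
  funext j
  apply MvPolynomial.funext
  intro b
  have h1 := sp_fam p x b
  rw [h, map_zero] at h1
  rw [Fintype.linearIndependent_iff.mp hp _ h1.symm j, Pi.zero_apply, map_zero]

theorem pderiv_inl_rename_inr (k : Fin n) (p : MvPolynomial (Fin n) ℂ) :
    pderiv (Sum.inl k) (rename (Sum.inr : Fin n → Fin n ⊕ Fin n) p) = 0 := by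
  classical
  apply pderiv_eq_zero_of_notMem_vars
  intro hk
  have := vars_rename (Sum.inr : Fin n → Fin n ⊕ Fin n) p hk
  simp at this

theorem pderiv_inl_fam (p x : Fin m → MvPolynomial (Fin n) ℂ) (k : Fin n) :
    pderiv (Sum.inl k) (fam p x) = fam (fun j => pderiv k (p j)) x := by
  unfold fam
  rw [map_sum]
  refine Finset.sum_congr rfl fun j _ => ?_
  rw [pderiv_mul, pderiv_inl_rename_inr, mul_zero, add_zero,
    pderiv_rename Sum.inl_injective]

theorem pderiv_inr_fam (p x : Fin m → MvPolynomial (Fin n) ℂ) (k : Fin n) :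
    pderiv (Sum.inr k) (fam p x) = fam p (fun j => pderiv k (x j)) := by
  unfold fam
  rw [map_sum]
  refine Finset.sum_congr rfl fun j _ => ?_
  rw [pderiv_mul, pderiv_inr_rename_inl, pderiv_inr_rename_inr, zero_mul, zero_add]

theorem pderiv_inl_q (k : Fin n) : pderiv (Sum.inl k) (q n) = X (Sum.inr k) := by
  classical
  unfold q
  rw [map_sum]
  simp [pderiv_X, Pi.single_apply]

theorem pderiv_lf (k : Fin n) (b : Fin n → ℂ) : pderiv k (lf b) = C (b k) := by
  classical
  unfold lf
  rw [map_sum, Finset.sum_eq_single k]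
  · rw [pderiv_C_mul, pderiv_X_self, mul_one]
  · intro j _ hj
    rw [pderiv_C_mul, pderiv_X_of_ne hj, mul_zero]
  · simp

theorem sq_aux {R ι : Type*} [CommRing R] (s : Finset ι) (l w k c0 : R) (e : ℕ)
    (g x d : ι → R) :
    l ^ e * (k * (∑ i ∈ s, g i * x i) * w + l * (c0 * w + ∑ i ∈ s, g i * d i)) =
      c0 * (l ^ (e + 1) * w) + ∑ i ∈ s, g i * (l ^ e * (k * x i * w + l * d i)) := by
  have h1 : ∑ i ∈ s, g i * (l ^ e * (k * x i * w + l * d i)) =
      l ^ e * k * w * (∑ i ∈ s, g i * x i) + l ^ e * l * ∑ i ∈ s, g i * d i := by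
    rw [Finset.mul_sum, Finset.mul_sum, ← Finset.sum_add_distrib]
    exact Finset.sum_congr rfl fun i _ => by ring
  rw [h1]
  ring

theorem sq_aux2 {R : Type*} [CommRing R] (l w x d k : R) (e : ℕ) :
    l * (l ^ e * ((k + 2) * x * w + l * d)) = (k + 2) * l ^ (e + 1) * x * w + l ^ (e + 2) * d := by
  ring

/-- If `U_b` has dimension less than `n` for generic `b`, then `V` contains no nonzero multiple
of `l_b ^ 2` for generic `b`. -/
theorem gen_sq (hn : 2 ≤ n) (V : Submodule ℂ (MvPolynomial (Fin n) ℂ))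
    [FiniteDimensional ℂ V]
    (h2 : Gen (fun b : Fin n → ℂ => finrank ℂ (U V b) < n)) :
    Gen (fun b : Fin n → ℂ => ∀ v ∈ V, lf b ^ 2 ∣ v → v = 0) := by
  classical
  let p : Fin (finrank ℂ V) → MvPolynomial (Fin n) ℂ := fun j => (finBasis ℂ V j).1
  have hp : LinearIndependent ℂ p :=
    (finBasis ℂ V).linearIndependent.map' V.subtype V.ker_subtype
  have hpV : ∀ j, p j ∈ V := fun j => (finBasis ℂ V j).2
  have hrep : ∀ v ∈ V, ∃ c : Fin (finrank ℂ V) → ℂ, v = ∑ j, c j • p j := by
    intro v hv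
    refine ⟨fun j => (finBasis ℂ V).repr ⟨v, hv⟩ j, ?_⟩
    have := (finBasis ℂ V).sum_repr ⟨v, hv⟩
    have := congrArg Subtype.val this
    rw [Submodule.coe_sum] at this
    exact this.symm
  rcases kernel_dichotomy (τ := Fin n)
    ({r | ∃ Y ∈ kerF n, r = fun j => aeval Y (p j)} ∪
      {r | ∃ Y ∈ kerF n, ∃ i, r = fun j => aeval Y (pderiv i (p j))} :
        Set (Fin (finrank ℂ V) → MvPolynomial (Fin n) ℂ)) with h | ⟨x, hx0, hx⟩
  · refine (h.and (gen_ne_zero (by omega))).mono fun b hb v hvV hv => ?_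
    obtain ⟨hb, hb0⟩ := hb
    obtain ⟨c, hc⟩ := hrep v hvV
    obtain ⟨g, hg⟩ := hv
    have hkr : ∀ Y ∈ kerF n, krl b (fun i => eval b (Y i)) = 0 := by
      intro Y hY
      have : (fun i => eval b (Y i)) ∈ Zs (kerF n) b := ⟨Y, hY, rfl⟩
      rw [Zs_kerF hb0] at this
      exact this
    have hc0 : c = 0 := by
      apply hb
      rintro r (⟨Y, hY, rfl⟩ | ⟨Y, hY, i, rfl⟩)
      · have h1 : eval (fun i => eval b (Y i)) v = 0 := by
          rw [hg, map_mul, map_pow, eval_lf', hkr Y hY]
          ring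
        rw [hc, map_sum] at h1
        rw [← h1]
        refine Finset.sum_congr rfl fun j _ => ?_
        rw [eval_aeval, smul_eval, mul_comm]
      · have h1 : eval (fun i => eval b (Y i)) (pderiv i v) = 0 := by
          rw [hg, pderiv_mul, pderiv_pow, map_add, map_mul, map_mul, map_mul, map_mul, map_pow,
            map_pow, eval_lf', hkr Y hY]
          simp
        rw [hc, map_sum, map_sum] at h1
        rw [← h1]
        refine Finset.sum_congr rfl fun j _ => ?_
        rw [eval_aeval, Derivation.map_smul, smul_eval, mul_comm]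
    rw [hc, hc0]
    simp
  exfalso
  -- the family
  have hv0 := fam_ne_zero hp hx0
  have hqv : q n ∣ fam p x := by
    apply q_dvd_of_eval hn
    intro z b hb hz
    have : z ∈ Zs (kerF n) b := by
      rw [Zs_kerF hb]
      exact hz
    obtain ⟨Y, hY, rfl⟩ := this
    have h1 := congrArg (eval b) (hx _ (Or.inl ⟨Y, hY, rfl⟩))
    rw [map_sum, map_zero] at h1
    rw [eval_fam, ← h1]
    refine Finset.sum_congr rfl fun j _ => ?_
    rw [map_mul, eval_aeval]
  have hqv' : ∀ i, q n ∣ pderiv (Sum.inl i) (fam p x) := by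
    intro i
    rw [pderiv_inl_fam]
    apply q_dvd_of_eval hn
    intro z b hb hz
    have : z ∈ Zs (kerF n) b := by
      rw [Zs_kerF hb]
      exact hz
    obtain ⟨Y, hY, rfl⟩ := this
    have h1 := congrArg (eval b) (hx _ (Or.inr ⟨Y, hY, i, rfl⟩))
    rw [map_sum, map_zero] at h1
    rw [eval_fam, ← h1]
    refine Finset.sum_congr rfl fun j _ => ?_
    rw [map_mul, eval_aeval]
  have hq := q_prime hn
  have hq0 := q_ne_zero (n := n) (by omega)
  obtain ⟨k, w, hw, hk⟩ : ∃ k w, ¬ q n ∣ w ∧ fam p x = q n ^ k * w := by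
    have hf : FiniteMultiplicity (q n) (fam p x) :=
      FiniteMultiplicity.of_not_isUnit hq.not_isUnit hv0
    obtain ⟨c, hc, hc'⟩ := hf.exists_eq_pow_mul_and_not_dvd
    exact ⟨_, c, hc', hc⟩
  obtain ⟨e, rfl⟩ : ∃ e, k = e + 2 := by
    rcases k with _ | _ | e
    · rw [pow_zero, one_mul] at hk
      rw [hk] at hqv
      exact absurd hqv hw
    · rw [zero_add, pow_one] at hk
      have h1 := hqv' ⟨0, by omega⟩
      rw [hk, pderiv_mul, pderiv_inl_q] at h1
      have h2 := (dvd_add_left (dvd_mul_right _ _)).mp h1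
      rcases hq.dvd_or_dvd h2 with h3 | h3
      · rw [← rename_X (Sum.inr : Fin n → Fin n ⊕ Fin n)] at h3
        exact absurd h3 (q_not_dvd_inr (X_ne_zero _))
      · exact absurd h3 hw
    · exact ⟨e, rfl⟩
  obtain ⟨Φ, hΦ0, hΦ⟩ := h2
  let i₀ : Fin n := ⟨0, by omega⟩
  obtain ⟨z, b, hzb, hwb, hb0⟩ := exists_point hn (w * rename Sum.inr Φ) (by
    intro hd
    rcases hq.dvd_or_dvd hd with h3 | h3
    · exact hw h3
    · exact q_not_dvd_inr hΦ0 h3) i₀
  rw [map_mul, eval_rename_inr] at hwb
  have hbn : b ≠ 0 := by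
    rintro rfl
    exact hb0 rfl
  have hlt := hΦ b (right_ne_zero_of_mul hwb)
  have hwb' : ¬ lf b ∣ sp b w := by
    intro hd
    apply left_ne_zero_of_mul hwb
    have := (lf_dvd_iff hbn _).mp hd z (by
      rw [mem_kr, ← hzb]
      exact Finset.sum_congr rfl fun i _ => mul_comm _ _)
    rwa [eval_sp] at this
  have hspV : ∀ y : Fin (finrank ℂ V) → MvPolynomial (Fin n) ℂ, sp b (fam p y) ∈ V := by
    intro y
    rw [sp_fam]
    exact V.sum_mem fun j _ => V.smul_mem _ (hpV j)
  let u : Fin n → MvPolynomial (Fin n) ℂ := fun i =>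
    lf b ^ e * (C ((e : ℂ) + 2) * X i * sp b w + lf b * sp b (pderiv (Sum.inr i) w))
  have hu : ∀ i, u i ∈ U V b := by
    intro i
    rw [mem_U]
    have h1 := hspV (fun j => pderiv i (x j))
    rw [← pderiv_inr_fam, hk, pderiv_mul, pderiv_pow, pderiv_inr_q] at h1
    convert h1 using 1
    simp only [u, map_add, map_mul, map_pow, sp_q']
    have h4 : sp b (X (Sum.inl i)) = X i := by
      rw [← rename_X (Sum.inl : Fin n → Fin n ⊕ Fin n), sp_inl]
    rw [h4, map_natCast, map_natCast, map_ofNat, Nat.cast_add, Nat.cast_ofNat]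
    exact sq_aux2 _ _ _ _ _ _
  let y : MvPolynomial (Fin n) ℂ := lf b ^ (e + 1) * sp b w
  have hy : y ∈ U V b := by
    rw [mem_U]
    have h1 := hspV x
    rw [hk] at h1
    convert h1 using 1
    simp only [y, map_mul, map_pow, sp_q']
    ring
  have hw0 : sp b w ≠ 0 := by
    intro h0
    rw [h0] at hwb'
    exact hwb' (dvd_zero _)
  let F : Fin n → MvPolynomial (Fin n) ℂ := fun i => if i = i₀ then y else u i
  have hF : LinearIndependent ℂ F := by
    rw [Fintype.linearIndependent_iff]
    intro g hg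
    have hsplit : ∑ i, g i • F i = g i₀ • y + ∑ i ∈ Finset.univ.erase i₀, g i • u i := by
      have hF0 : F i₀ = y := by simp [F]
      rw [← Finset.add_sum_erase _ _ (Finset.mem_univ i₀), hF0]
      congr 1
      refine Finset.sum_congr rfl fun i hi => ?_
      simp only [F]
      rw [if_neg (Finset.ne_of_mem_erase hi)]
    have h1 : lf b ^ e * (C ((e : ℂ) + 2) * lf (Function.update g i₀ 0) * sp b w +
        lf b * (g i₀ • sp b w + ∑ i ∈ Finset.univ.erase i₀,
          g i • sp b (pderiv (Sum.inr i) w))) = 0 := by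
      rw [← hg, hsplit]
      have h2 : lf (Function.update g i₀ 0) = ∑ i ∈ Finset.univ.erase i₀, C (g i) * X i := by
        unfold lf
        rw [← Finset.add_sum_erase _ _ (Finset.mem_univ i₀), Function.update_self, map_zero,
          zero_mul, zero_add]
        refine Finset.sum_congr rfl fun i hi => ?_
        rw [Function.update_of_ne (Finset.ne_of_mem_erase hi)]
      rw [h2]
      simp only [smul_eq_C_mul]
      exact sq_aux _ _ _ _ _ _ _ _ _
    have h2 := (mul_eq_zero.mp h1).resolve_left (pow_ne_zero _ (lf_ne_zero hbn))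
    have h3 : lf b ∣ C ((e : ℂ) + 2) * lf (Function.update g i₀ 0) * sp b w := by
      rw [← dvd_add_left (dvd_mul_right (lf b) _)]
      rw [h2]
      exact dvd_zero _
    have h4 : lf b ∣ lf (Function.update g i₀ 0) := by
      rcases (lf_prime hbn).dvd_or_dvd h3 with h4 | h4
      · rcases (lf_prime hbn).dvd_or_dvd h4 with h5 | h5
        · exfalso
          have hunit : IsUnit (C ((e : ℂ) + 2) : MvPolynomial (Fin n) ℂ) := by
            apply IsUnit.map
            rw [isUnit_iff_ne_zero]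
            have : ((e + 2 : ℕ) : ℂ) ≠ 0 := by
              rw [Nat.cast_ne_zero]
              omega
            push_cast at this
            exact this
          exact (lf_prime hbn).not_isUnit (isUnit_of_dvd_unit h5 hunit)
        · exact h5
      · exact absurd h4 hwb'
    have h5 : Function.update g i₀ 0 = 0 := by
      by_contra hne
      have h6 : ¬ Ind b (Function.update g i₀ 0) := fun hi => hi.not_dvd h4
      obtain ⟨c, hc⟩ := eq_smul_of_not_ind h6 hne
      apply hb0
      rw [hc]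
      simp
    have h6 : ∀ i, i ≠ i₀ → g i = 0 := by
      intro i hi
      have := congrFun h5 i
      rwa [Function.update_of_ne hi] at this
    have h7 : g i₀ = 0 := by
      rw [hsplit, Finset.sum_eq_zero, add_zero] at hg
      · exact (smul_eq_zero.mp hg).resolve_right
          (mul_ne_zero (pow_ne_zero _ (lf_ne_zero hbn)) hw0)
      · intro i hi
        rw [h6 i (Finset.ne_of_mem_erase hi), zero_smul]
    intro i
    by_cases hi : i = i₀
    · rw [hi, h7]
    · exact h6 i hi
  have hfd := U_fd V hbn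
  have hFU : ∀ i, F i ∈ U V b := by
    intro i
    simp only [F]
    split_ifs
    · exact hy
    · exact hu i
  have h8 : LinearIndependent ℂ (fun i => (⟨F i, hFU i⟩ : U V b)) := by
    apply LinearIndependent.of_comp (U V b).subtype
    exact hF
  have h9 := h8.fintype_card_le_finrank
  rw [Fintype.card_fin] at h9
  omega

end Pool.Agent.Lib_helper26.Ebe
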