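import Pool.Agent.Lib_helper93.Ebe.wBc

/-!
# Block B2: the exceptional case `n = 7`, `m = 23`, `D = 3`
-/

namespace Pool.Agent.Lib_helper97.Ebe

open MvPolynomial Module Pool.Agent.Lib_helper26.Ebe Pool.Agent.Lib_helper26.SOS

variable {n : ℕ}

theorem wB2_L1 (n : ℕ) : L1 n = homogeneousSubmodule (Fin n) ℂ 1 := by
  rw [homogeneousSubmodule_one_eq_span_X]
  rfl

theorem wB2_two (n : ℕ) : homogeneousSubmodule (Fin n) ℂ 2 = S1 (L1 n) := by
  unfold S1
  rw [wB2_L1, ← homogeneousSubmodule_one_pow, pow_two]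

theorem wB2_L1_range (n : ℕ) : L1 n = LinearMap.range (lfL n) := by
  ext f
  rw [mem_L1_iff, LinearMap.mem_range]
  constructor
  · rintro ⟨a, rfl⟩
    exact ⟨a, rfl⟩
  · rintro ⟨a, rfl⟩
    exact ⟨a, rfl⟩

theorem wB2_finrank_L1 (n : ℕ) : finrank ℂ (L1 n) = n := by
  rw [wB2_L1_range, LinearMap.finrank_range_of_inj, finrank_fin_fun]
  rw [← LinearMap.ker_eq_bot, LinearMap.ker_eq_bot']
  intro ζ hζ
  by_contra hne
  exact lf_ne_zero hne hζ

instance wB2_fd (n : ℕ) : FiniteDimensional ℂ (L1 n) := by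
  rw [wB2_L1_range]
  infer_instance

instance wB2_fd2 (n : ℕ) : FiniteDimensional ℂ (S1 (L1 n)) := by
  unfold S1
  exact Module.Finite.iff_fg.mpr (Submodule.FG.mul (Module.Finite.iff_fg.mp inferInstance)
    (Module.Finite.iff_fg.mp inferInstance))

theorem wB2_lower (n : ℕ) : n * (n + 1) / 2 ≤ finrank ℂ (S1 (L1 n)) :=
  S1_lower' _ (wB2_finrank_L1 n).ge

theorem wB2_upper (n : ℕ) : finrank ℂ (S1 (L1 n)) + n.choose 2 ≤ n * n := by
  have h := (S1_star_le (n := n) (w := 1) one_ne_zero (W := L1 n) (fun u hu => by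
    obtain ⟨a, rfl⟩ := (mem_L1_iff u).mp hu
    exact ⟨a, (one_mul _).symm⟩)).2
  rwa [wB2_finrank_L1] at h

theorem wB2_finrank_mul {w : MvPolynomial (Fin n) ℂ} (hw : w ≠ 0)
    (W : Submodule ℂ (MvPolynomial (Fin n) ℂ)) :
    finrank ℂ (W.map (LinearMap.mulLeft ℂ w)) = finrank ℂ W :=
  (Submodule.equivMapOfInjective (LinearMap.mulLeft ℂ w) (by
    intro x y hxy
    exact mul_left_cancel₀ hw hxy) W).finrank_eq.symm

theorem wB2_sub_lf {k : ℕ} (g : Fin n × Fin k → ℂ) (a : Fin n → ℂ) :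
    sub g (lf a) = lf (fun l => ∑ i, a i * g (i, l)) := by
  apply MvPolynomial.funext
  intro y
  rw [eval_sub, eval_lf, eval_lf]
  unfold mv
  simp_rw [Finset.mul_sum, Finset.sum_mul]
  rw [Finset.sum_comm]
  exact Finset.sum_congr rfl fun l _ => Finset.sum_congr rfl fun i _ => by ring

theorem wB2_lift {k : ℕ} {g : Fin n × Fin k → ℂ} (hg : Function.Injective (mv g))
    (a : Fin k → ℂ) : ∃ a' : Fin n → ℂ, sub g (lf a') = lf a := by
  obtain ⟨a', ha'⟩ := exists_lift_functional hg a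
  refine ⟨a', ?_⟩
  apply MvPolynomial.funext
  intro y
  rw [eval_sub, eval_lf, eval_lf, ← krl_apply, ← krl_apply, ha']

/-- `lf η` times all quadratic forms. -/
theorem wB2_van (V : Submodule ℂ (MvPolynomial (Fin n) ℂ))
    (hV : V ≤ homogeneousSubmodule (Fin n) ℂ 3) {η : Fin n → ℂ} (hη : η ≠ 0)
    (hmem : ∀ a c, lf a * lf c * lf η ∈ V) :
    van V (kr η) = (S1 (L1 n)).map (LinearMap.mulLeft ℂ (lf η)) := by
  apply le_antisymm
  · intro v hv
    obtain ⟨hvV, hd⟩ := (mem_van_kr hη).mp hv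
    obtain ⟨u, rfl⟩ := hd
    refine ⟨u, ?_, rfl⟩
    rw [← wB2_two]
    exact isHomogeneous_of_lf_mul hη (D := 3) (hV hvV)
  · rw [Submodule.map_le_iff_le_comap]
    unfold S1
    rw [Submodule.mul_le]
    intro x hx y hy
    obtain ⟨a, rfl⟩ := (mem_L1_iff x).mp hx
    obtain ⟨c, rfl⟩ := (mem_L1_iff y).mp hy
    rw [Submodule.mem_comap, LinearMap.mulLeft_apply, mem_van_kr hη]
    refine ⟨?_, dvd_mul_right _ _⟩
    have h := hmem a c
    rwa [mul_comm] at h

theorem wB2_rk2 (V : Submodule ℂ (MvPolynomial (Fin 4) ℂ)) [FiniteDimensional ℂ V]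
    (h3 : rk V 3 ≤ 8) {η : Fin 4 → ℂ} (hη : η ≠ 0)
    (hmem : ∀ a c, lf a * lf c * lf η ∈ V) {k₀ : Fin 4 × Fin 3 → ℂ}
    (hk : Set.range (mv k₀) = kr η) (hki : Function.Injective (mv k₀)) :
    rk (V.map (sub k₀).toLinearMap) 2 ≤ 2 := by
  obtain ⟨h, hh, hhi⟩ := ((gen_rk (V.map (sub k₀).toLinearMap) 2).and
    (gen_injective (n := 3) (k := 2) (by norm_num))).exists
  obtain ⟨z, hz⟩ : ∃ z, krl η z ≠ 0 := by
    by_contra hc
    push Not at hc
    exact krl_ne_zero hη (LinearMap.ext hc)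
  let P : Fin 4 × Fin 3 → ℂ := fun y =>
    (Fin.snoc (fun l : Fin 2 => mulg k₀ h (y.1, l)) (z y.1) : Fin 3 → ℂ) y.2
  have hP : ∀ y : Fin 3 → ℂ, mv P y = mv k₀ (mv h (fun l => y l.castSucc)) +
      y (Fin.last 2) • z := by
    intro y
    rw [← mv_mulg]
    funext i
    unfold mv
    have e0 : P (i, Fin.last 2) = z i := by
      show (Fin.snoc (fun l : Fin 2 => mulg k₀ h (i, l)) (z i) : Fin 3 → ℂ) (Fin.last 2) = z i
      rw [Fin.snoc_last]
    have e1 : ∀ l : Fin 2, P (i, l.castSucc) = mulg k₀ h (i, l) := fun l => by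
      show (Fin.snoc (fun l : Fin 2 => mulg k₀ h (i, l)) (z i) : Fin 3 → ℂ) l.castSucc = _
      rw [Fin.snoc_castSucc]
    rw [Fin.sum_univ_castSucc, Pi.add_apply, Pi.smul_apply, e0, smul_eq_mul, mul_comm (z i)]
    simp_rw [e1]
  have hkr : ∀ y, krl η (mv k₀ y) = 0 := by
    intro y
    have h1 : mv k₀ y ∈ kr η := by
      rw [← SetLike.mem_coe, ← hk]
      exact ⟨y, rfl⟩
    exact h1
  have hPi : Function.Injective (mv P) := by
    have hlin : ∀ x y, mv P x - mv P y = mv P (x - y) := by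
      intro x y
      funext i
      unfold mv
      rw [Pi.sub_apply, ← Finset.sum_sub_distrib]
      exact Finset.sum_congr rfl fun l _ => by rw [Pi.sub_apply]; ring
    have h0 : ∀ y, mv P y = 0 → y = 0 := by
      intro y hy
      rw [hP] at hy
      have h1 := congrArg (krl η) hy
      rw [map_add, map_smul, map_zero, hkr, zero_add, smul_eq_mul] at h1
      have h2 := (mul_eq_zero.mp h1).resolve_right hz
      rw [h2, zero_smul, add_zero] at hy
      have h3 : mv k₀ 0 = 0 := by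
        funext i
        simp [mv]
      have h4 : mv h 0 = 0 := by
        funext i
        simp [mv]
      have h5 := hki (hy.trans h3.symm)
      have h6 := hhi (h5.trans h4.symm)
      funext l
      refine Fin.lastCases ?_ (fun l => ?_) l
      · exact h2
      · exact congrFun h6 l
    intro x y hxy
    have h1 := h0 (x - y) (by rw [← hlin, hxy, sub_self])
    exact sub_eq_zero.mp h1
  let ι : Fin 3 × Fin 2 → ℂ := fun y => if y.1 = Fin.castSucc y.2 then 1 else 0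
  have hι : mulg P ι = mulg k₀ h := by
    funext y
    obtain ⟨i, l⟩ := y
    show ∑ j, P (i, j) * ι (j, l) = _
    rw [Finset.sum_eq_single (Fin.castSucc l)]
    · simp [P, ι]
    · intro j _ hj
      simp [ι, hj]
    · simp
  have e1 : (V.map (sub P).toLinearMap).map (sub ι).toLinearMap =
      (V.map (sub k₀).toLinearMap).map (sub h).toLinearMap := by
    rw [← map_sub_mulg, ← map_sub_mulg, hι]
  have hfP := finrank_map_le_rk V P
  have h5 := finrank_map_add_van (V.map (sub P).toLinearMap) ι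
  rw [e1, hh] at h5
  set θ := sub P (lf η) with hθ
  have hθ0 : θ ≠ 0 := by
    intro h0
    rw [hθ, sub_eq_zero_iff] at h0
    have h1 := h0 z ⟨Pi.single (Fin.last 2) 1, by
      rw [hP]
      have h2 : (fun l : Fin 2 => (Pi.single (Fin.last 2) (1 : ℂ) : Fin 3 → ℂ) l.castSucc) = 0 := by
        funext l
        exact Pi.single_eq_of_ne (Fin.castSucc_lt_last l).ne _
      rw [h2, Pi.single_eq_same, one_smul]
      funext i
      simp [mv]⟩
    rw [eval_lf, ← krl_apply] at h1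
    exact hz h1
  have h6 : (S1 (L1 3)).map (LinearMap.mulLeft ℂ θ) ≤
      van (V.map (sub P).toLinearMap) (Set.range (mv ι)) := by
    rw [Submodule.map_le_iff_le_comap]
    unfold S1
    rw [Submodule.mul_le]
    intro x hx y hy
    obtain ⟨a, rfl⟩ := (mem_L1_iff x).mp hx
    obtain ⟨c, rfl⟩ := (mem_L1_iff y).mp hy
    obtain ⟨a', ha'⟩ := wB2_lift hPi a
    obtain ⟨c', hc'⟩ := wB2_lift hPi c
    rw [Submodule.mem_comap, LinearMap.mulLeft_apply]
    refine ⟨⟨lf a' * lf c' * lf η, hmem a' c', ?_⟩, ?_⟩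
    · rw [AlgHom.toLinearMap_apply, map_mul, map_mul, ha', hc', mul_comm]
    · rintro _ ⟨y, rfl⟩
      rw [map_mul]
      have h7 : eval (mv ι y) θ = 0 := by
        rw [hθ, ← eval_sub]
        have h8 := AlgHom.congr_fun (sub_mulg P ι) (lf η)
        rw [AlgHom.comp_apply] at h8
        rw [← h8, hι, eval_sub, mv_mulg, eval_lf, ← krl_apply]
        exact hkr _
      rw [h7, zero_mul]
  have h7 := Submodule.finrank_mono h6
  rw [wB2_finrank_mul hθ0] at h7
  have h8 := wB2_lower 3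
  omega

theorem wB2_core (V : Submodule ℂ (MvPolynomial (Fin 4) ℂ)) [FiniteDimensional ℂ V]
    (hV : V ≤ homogeneousSubmodule (Fin 4) ℂ 3) (hf : finrank ℂ V = 13)
    (h3 : rk V 3 ≤ 8) {η : Fin 4 → ℂ} (hη : η ≠ 0)
    (hmem : ∀ a c, lf a * lf c * lf η ∈ V) :
    ∃ (k : Fin 4 × Fin 3 → ℂ) (w : MvPolynomial (Fin 3) ℂ), Function.Injective (mv k) ∧
      Set.range (mv k) = kr η ∧ w ≠ 0 ∧
      ∀ v ∈ V.map (sub k).toLinearMap, ∃ ζ, v = w * lf ζ := by
  have hkr : finrank ℂ (kr η) = 3 := by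
    have := finrank_kr hη
    omega
  obtain ⟨k₀, hk, hki⟩ := exists_range_mv (kr η) hkr
  have h10 : finrank ℂ (van V (Set.range (mv k₀))) = 10 := by
    rw [hk, wB2_van V hV hη hmem, wB2_finrank_mul (lf_ne_zero hη)]
    have h1 := wB2_lower 4
    have h2 := wB2_upper 4
    have h3 : (4 : ℕ).choose 2 = 6 := by decide
    omega
  have h5 := finrank_map_add_van V k₀
  set U := V.map (sub k₀).toLinearMap with hU
  have hU3 : finrank ℂ U = 3 := by omega
  have hUh : U ≤ homogeneousSubmodule (Fin 3) ℂ 3 := map_sub_homogeneous k₀ hV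
  have hU0 : U ≠ ⊥ := by
    intro h0
    rw [h0, finrank_bot] at hU3
    omega
  have r3 : rk U 3 = 3 := by rw [rk_self, hU3]
  have r1 : rk U 1 = 1 := rk_one hUh hU0
  have r2 : rk U 2 = 2 := by
    have h6 : rk U 2 ≤ 2 := wB2_rk2 V h3 hη hmem hk hki
    have h7 := min_le_rk U 2
    rw [hU3] at h7
    have h8 : min 2 3 = 2 := by decide
    omega
  obtain ⟨g, ⟨⟨w, hw, hwm⟩, hgr⟩, hgi⟩ := (((gen_star (τ := 3) le_rfl U (by rw [r3, r2])
    (by rw [r2, r1])).and (gen_rk U 3)).and (gen_injective (n := 3) (k := 3) le_rfl)).exists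
  have hmv : ∀ x, mv (mulg k₀ g) x = mv k₀ (mv g x) := fun x => mv_mulg k₀ g x
  have hki' : Function.Injective (mv (mulg k₀ g)) := by
    intro x y hxy
    rw [hmv, hmv] at hxy
    exact hgi (hki hxy)
  refine ⟨mulg k₀ g, w, hki', ?_, hw, ?_⟩
  · have h6 : mvS (mulg k₀ g) = kr η := by
      apply Submodule.eq_of_le_of_finrank_eq
      · rw [← SetLike.coe_subset_coe, coe_mvS, ← hk]
        rintro _ ⟨x, rfl⟩
        rw [hmv]
        exact ⟨_, rfl⟩
      · have h1 : finrank ℂ (mvS (mulg k₀ g)) = 3 := by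
          have := LinearMap.finrank_range_of_inj
            (f := Matrix.toLin' (Matrix.of fun i j => mulg k₀ g (i, j))) hki'
          rw [finrank_fin_fun] at this
          exact this
        rw [h1, hkr]
    rw [← coe_mvS, h6]
  · rw [map_sub_mulg]
    have h6 : (L1 3).map (LinearMap.mulLeft ℂ w) ≤ U.map (sub g).toLinearMap := by
      rintro _ ⟨x, hx, rfl⟩
      obtain ⟨a, rfl⟩ := (mem_L1_iff x).mp hx
      rw [LinearMap.mulLeft_apply, mul_comm]
      exact hwm a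
    have h7 : (L1 3).map (LinearMap.mulLeft ℂ w) = U.map (sub g).toLinearMap := by
      apply Submodule.eq_of_le_of_finrank_eq h6
      rw [wB2_finrank_mul hw, wB2_finrank_L1, hgr, r3]
    rw [← h7]
    rintro _ ⟨x, hx, rfl⟩
    obtain ⟨a, rfl⟩ := (mem_L1_iff x).mp hx
    exact ⟨a, rfl⟩

/-- The space of the quotient is divisible by `w` on the hyperplane. -/
theorem wB2_quot {n m D ρ : ℕ} {p : Fin m → MvPolynomial (Fin n) ℂ}
    {A : MvPolynomial (Fin n ⊕ Fin n) ℂ} {V : Submodule ℂ (MvPolynomial (Fin n) ℂ)}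
    {f : Fin ρ → MvPolynomial (Fin n) ℂ} {ε : Fin ρ → ℝ}
    (s : Setting n m D ρ p A V f ε) {G : Fin n × Fin 3 → ℂ} (hG : Function.Injective (mv G))
    {w : MvPolynomial (Fin 3) ℂ} (hw : w ≠ 0)
    (hmem : ∀ v ∈ V.map (sub G).toLinearMap, ∃ ζ, v = w * lf ζ) :
    Yf f ≤ (Submodule.span ℂ {w}).comap (sub G).toLinearMap := by
  apply span_le_of_gen_dg s.hf s.hε
  have h1 : finrank ℂ (Submodule.span ℂ {w}) = 1 := finrank_span_singleton hw
  have h2 : Gen (fun a : Fin 3 → ℂ => van (Submodule.span ℂ {w}) (kr a) = ⊥ ∧ a ≠ 0) :=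
    (gen_van_kr_eq_bot (Submodule.span ℂ {w}) (by omega)).and (gen_ne_zero (by norm_num))
  let F : Fin 3 → MvPolynomial (Fin n) ℂ := fun l => ∑ i, X i * C (G (i, l))
  have hF : ∀ b, (fun l => eval b (F l)) = fun l => ∑ i, b i * G (i, l) := by
    intro b
    funext l
    simp [F]
  refine (h2.pull F (fun x => ?_)).mono fun b hb => ?_
  · obtain ⟨a', ha'⟩ := wB2_lift hG x
    refine ⟨a', fun l => ?_⟩
    have h3 : eval a' (F l) = ∑ i, a' i * G (i, l) := congrFun (hF a') l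
    rw [h3]
    rw [wB2_sub_lf] at ha'
    have h4 := congrArg (eval (Pi.single l 1)) ha'
    rw [eval_lf, eval_lf, ← krl_apply, ← krl_apply, krl_single, krl_single, mul_one,
      mul_one] at h4
    exact h4
  · rw [hF] at hb
    obtain ⟨hb1, hb2⟩ := hb
    set a : Fin 3 → ℂ := fun l => ∑ i, b i * G (i, l) with ha
    have h3 : sub G (lf b) = lf a := wB2_sub_lf G b
    have h4 : lf b * sp b A ∈ V := by
      rw [s.hV]
      exact lf_mul_sp_mem s.hA b
    obtain ⟨ζ, hζ⟩ := hmem _ ⟨_, h4, rfl⟩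
    rw [AlgHom.toLinearMap_apply, map_mul, h3] at hζ
    rw [Submodule.mem_comap, AlgHom.toLinearMap_apply, ← s.hAe]
    have h5 : ¬ lf a ∣ w := by
      intro hd
      have h6 : w ∈ van (Submodule.span ℂ {w}) (kr a) :=
        (mem_van_kr hb2).mpr ⟨Submodule.mem_span_singleton_self w, hd⟩
      rw [hb1, Submodule.mem_bot] at h6
      exact hw h6
    have h6 : lf a ∣ lf ζ := by
      have h7 : lf a ∣ w * lf ζ := ⟨_, hζ.symm⟩
      exact ((lf_prime hb2).dvd_or_dvd h7).resolve_left h5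
    have h7 : ¬ Ind ζ a := fun h => h.symm.not_dvd h6
    obtain ⟨c, hc⟩ := eq_smul_of_not_ind h7 hb2
    have h8 : sub G (sp b A) = C c * w := by
      apply mul_left_cancel₀ (lf_ne_zero hb2)
      rw [hζ, hc, lf_smul]
      ring
    rw [h8, ← smul_eq_C_mul]
    exact Submodule.smul_mem _ _ (Submodule.mem_span_singleton_self w)

theorem wB2_hom {n m D ρ : ℕ} {p : Fin m → MvPolynomial (Fin n) ℂ}
    {A : MvPolynomial (Fin n ⊕ Fin n) ℂ} {V : Submodule ℂ (MvPolynomial (Fin n) ℂ)}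
    {f : Fin ρ → MvPolynomial (Fin n) ℂ} {ε : Fin ρ → ℝ}
    (s : Setting n m D ρ p A V f ε) (hn : 1 ≤ n) :
    Yf f ≤ homogeneousSubmodule (Fin n) ℂ (D - 1) := by
  apply span_le_of_gen_dg s.hf s.hε
  refine (gen_ne_zero hn).mono fun b hb => ?_
  rw [← s.hAe, mem_homogeneousSubmodule]
  apply isHomogeneous_of_lf_mul hb
  rw [← mem_homogeneousSubmodule]
  apply s.hVD
  rw [s.hV]
  exact lf_mul_sp_mem s.hA b

/-- If all elements are divisible by `w` on `kr η` the generic rank on three-dimensional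
subspaces is at most four. -/
theorem wB2_four (Y : Submodule ℂ (MvPolynomial (Fin 4) ℂ)) [FiniteDimensional ℂ Y]
    (hY : Y ≤ homogeneousSubmodule (Fin 4) ℂ 2) {η : Fin 4 → ℂ} (hη : η ≠ 0)
    {k : Fin 4 × Fin 3 → ℂ} (hk : Set.range (mv k) = kr η)
    (h1 : finrank ℂ (Y.map (sub k).toLinearMap) ≤ 1) : rk Y 3 ≤ 4 := by
  obtain ⟨h, hh⟩ := exists_rk Y 3
  rw [← hh]
  have h2 := finrank_map_add_van Y k
  rw [hk] at h2
  obtain ⟨C, hC, hsup⟩ := IsModularLattice.exists_disjoint_and_sup_eq (van_le Y (kr η))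
  have hCU : C ≤ Y := hsup ▸ le_sup_right
  have hfdC : FiniteDimensional ℂ C := Submodule.finiteDimensional_of_le hCU
  have hfdV : FiniteDimensional ℂ (van Y (kr η)) :=
    Submodule.finiteDimensional_of_le (van_le Y (kr η))
  have h3 := Submodule.finrank_sup_add_finrank_inf_eq (van Y (kr η)) C
  rw [hsup, hC.eq_bot, finrank_bot, add_zero] at h3
  have h4 : (van Y (kr η)).map (sub h).toLinearMap ≤
      (L1 3).map (LinearMap.mulLeft ℂ (sub h (lf η))) := by
    rintro _ ⟨v, hv, rfl⟩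
    obtain ⟨hvY, u, rfl⟩ := (mem_van_kr hη).mp hv
    have h5 : u.IsHomogeneous 1 := isHomogeneous_of_lf_mul hη (D := 2) (hY hvY)
    have h6 : (sub h u).IsHomogeneous 1 := isHomogeneous_sub h h5
    refine ⟨sub h u, ?_, ?_⟩
    · rw [wB2_L1]
      exact h6
    · rw [LinearMap.mulLeft_apply, AlgHom.toLinearMap_apply, map_mul]
  have h5 : finrank ℂ ((van Y (kr η)).map (sub h).toLinearMap) ≤ 3 := by
    have h6 := Submodule.finrank_mono h4
    have h7 := Submodule.finrank_map_le (LinearMap.mulLeft ℂ (sub h (lf η))) (L1 3)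
    rw [wB2_finrank_L1] at h7
    omega
  have h6 : Y.map (sub h).toLinearMap = (van Y (kr η)).map (sub h).toLinearMap ⊔
      C.map (sub h).toLinearMap := by
    rw [← Submodule.map_sup, hsup]
  have h7 := Submodule.finrank_add_le_finrank_add_finrank
    ((van Y (kr η)).map (sub h).toLinearMap) (C.map (sub h).toLinearMap)
  have h8 := Submodule.finrank_map_le (sub h).toLinearMap C
  rw [h6]
  omega

theorem wB2_pr {ρ : ℕ} {p : Fin 23 → MvPolynomial (Fin 7) ℂ}
    {A : MvPolynomial (Fin 7 ⊕ Fin 7) ℂ} {V : Submodule ℂ (MvPolynomial (Fin 7) ℂ)}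
    {f : Fin ρ → MvPolynomial (Fin 7) ℂ} {ε : Fin ρ → ℝ}
    (s : Setting 7 23 3 ρ p A V f ε) (hu3 : 5 ≤ rk (Yf f) 3) (hN5 : ¬ N2 V 5)
    (h3 : rk V 3 = 8) (h4 : rk V 4 = 13) : False := by
  have hfd := s.fd
  have hfdY : FiniteDimensional ℂ (Yf f) := FiniteDimensional.span_of_finite ℂ
    (Set.finite_range f)
  obtain ⟨g, b, φ, -, -, ⟨⟨⟨hT1, hT2⟩, hT3⟩, hT4⟩, hb, hφ, -, h2, -⟩ :=
    wB_exists (j := 4) V (by norm_num) hN5 (Q := fun _ => True) (Gen.of_forall fun _ => trivial)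
      (R := fun _ => True) (Gen.of_forall fun _ => trivial)
      (T := fun g => ((finrank ℂ (V.map (sub g).toLinearMap) = rk V 4 ∧
        ∀ l ≤ 4, rk (V.map (sub g).toLinearMap) l = rk V l) ∧
        ∀ l ≤ 4, rk ((Yf f).map (sub g).toLinearMap) l = rk (Yf f) l) ∧
        Function.Injective (mv g))
      ((((gen_rk V 4).and (gen_rk_map_all V 4)).and (gen_rk_map_all (Yf f) 4)).and
        (gen_injective (by norm_num)))
  set g₄ := mulg g (wNS_K b) with hg₄
  have hψ : sub (wNS_K b) φ ≠ 0 := fun h => hφ ((wNS_sub_eq_zero hb φ).mp h)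
  set ψ := sub (wNS_K b) φ with hψd
  have hmem : ∀ a c, lf a * lf c * ψ ∈ V.map (sub g₄).toLinearMap := by
    intro a c
    obtain ⟨v, hv, hdv⟩ := h2 (Fin.snoc a 0) (Fin.snoc c 0)
    obtain ⟨v₀, hv₀, rfl⟩ := hv
    have h1 : sub g₄ v₀ =
        C (b (Fin.last 4)) * lf a * (C (b (Fin.last 4)) * lf c) * ψ := by
      have h2 := (wNS_sub_eq_zero hb _).mpr hdv
      rw [map_sub, map_mul, map_mul, wNS_sub_lf, wNS_sub_lf, sub_eq_zero] at h2
      rw [← h2]
      exact AlgHom.congr_fun (sub_mulg g (wNS_K b)) v₀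
    have h5 : lf a * lf c * ψ = (b (Fin.last 4) * b (Fin.last 4))⁻¹ • sub g₄ v₀ := by
      rw [h1, smul_eq_C_mul]
      have h6 : C (b (Fin.last 4) * b (Fin.last 4))⁻¹ *
          (C (b (Fin.last 4)) * C (b (Fin.last 4))) = (1 : MvPolynomial (Fin 4) ℂ) := by
        rw [← C_mul, ← C_mul, inv_mul_cancel₀ (mul_ne_zero hb hb), C_1]
      calc lf a * lf c * ψ = 1 * (lf a * lf c * ψ) := by rw [one_mul]
        _ = _ := by rw [← h6]; ring
    rw [h5]
    exact Submodule.smul_mem _ _ ⟨v₀, hv₀, rfl⟩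
  have hV4 : V.map (sub g₄).toLinearMap ≤ homogeneousSubmodule (Fin 4) ℂ 3 :=
    map_sub_homogeneous g₄ s.hVD
  have hψ1 : ψ.IsHomogeneous 1 := by
    obtain ⟨a, ha⟩ := (gen_ne_zero (n := 4) (by norm_num)).exists
    have h5 : (lf a * (lf a * ψ)).IsHomogeneous 3 := by
      rw [← mul_assoc]
      exact hV4 (hmem a a)
    exact isHomogeneous_of_lf_mul ha (D := 2) (isHomogeneous_of_lf_mul ha h5)
  obtain ⟨η, hη⟩ := exists_lf_of_homogeneous hψ1
  have hη0 : η ≠ 0 := by
    rintro rfl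
    rw [lf_zero] at hη
    exact hψ hη
  obtain ⟨k, w, hki, hk, hw, hkw⟩ := wB2_core (V.map (sub g₄).toLinearMap) hV4 (by omega)
    (by rw [hT2 3 (by norm_num)]; omega) hη0 (fun a c => by rw [← hη]; exact hmem a c)
  have hY1 := wB2_quot s (G := mulg g₄ k) (by
    intro x y hxy
    rw [mv_mulg g₄, mv_mulg g₄] at hxy
    exact hki (hT4 hxy)) hw (by
      intro v hv
      rw [map_sub_mulg] at hv
      exact hkw v hv)
  have hY4 : (Yf f).map (sub g₄).toLinearMap ≤ homogeneousSubmodule (Fin 4) ℂ 2 :=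
    map_sub_homogeneous g₄ (wB2_hom s (by norm_num))
  have h5 := wB2_four ((Yf f).map (sub g₄).toLinearMap) hY4 hη0 hk (by
    rw [← map_sub_mulg]
    have h6 : (Yf f).map (sub (mulg g₄ k)).toLinearMap ≤ Submodule.span ℂ {w} :=
      Submodule.map_le_iff_le_comap.mpr hY1
    have h7 := Submodule.finrank_mono h6
    rwa [finrank_span_singleton hw] at h7)
  rw [hT3 3 (by norm_num)] at h5
  omega

end Pool.Agent.Lib_helper97.Ebe
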