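import Pool.Agent.Lib_helper97.Ebe.XOK

/-!
# Block NS: a level with nonzero multiples of squares lies above a level of the first type
-/

namespace Pool.Agent.Lib_helper97.Ebe

open MvPolynomial Module Pool.Agent.Lib_helper26.Ebe Pool.Agent.Lib_helper26.SOS

variable {n j : ℕ}

/-- A parametrization of the kernel of `b`, polynomial in `b`. -/
def wNS_K (b : Fin (j + 1) → ℂ) : Fin (j + 1) × Fin j → ℂ := fun y =>
  (Fin.snoc (fun l => if l = y.2 then b (Fin.last j) else 0) (- b y.2.castSucc) :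
    Fin (j + 1) → ℂ) y.1

theorem wNS_mv_castSucc (b : Fin (j + 1) → ℂ) (y : Fin j → ℂ) (l : Fin j) :
    mv (wNS_K b) y l.castSucc = b (Fin.last j) * y l := by
  unfold mv wNS_K
  simp

theorem wNS_mv_last (b : Fin (j + 1) → ℂ) (y : Fin j → ℂ) :
    mv (wNS_K b) y (Fin.last j) = - ∑ i, b i.castSucc * y i := by
  unfold mv wNS_K
  simp

theorem wNS_range {b : Fin (j + 1) → ℂ} (hb : b (Fin.last j) ≠ 0) :
    Set.range (mv (wNS_K b)) = kr b := by
  ext z
  constructor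
  · rintro ⟨y, rfl⟩
    rw [SetLike.mem_coe, mem_kr, Fin.sum_univ_castSucc, wNS_mv_last]
    simp_rw [wNS_mv_castSucc]
    rw [mul_neg, Finset.mul_sum, ← sub_eq_add_neg, ← Finset.sum_sub_distrib]
    exact Finset.sum_eq_zero fun i _ => by ring
  · intro hz
    rw [SetLike.mem_coe, mem_kr, Fin.sum_univ_castSucc] at hz
    refine ⟨fun i => z i.castSucc / b (Fin.last j), ?_⟩
    funext i
    refine Fin.lastCases ?_ (fun l => ?_) i
    · rw [wNS_mv_last]
      have h1 : ∑ i : Fin j, b i.castSucc * (z i.castSucc / b (Fin.last j)) =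
          (∑ i : Fin j, b i.castSucc * z i.castSucc) / b (Fin.last j) := by
        rw [Finset.sum_div]
        exact Finset.sum_congr rfl fun i _ => by ring
      rw [h1, eq_neg_of_add_eq_zero_left hz]
      field_simp
    · rw [wNS_mv_castSucc]
      field_simp

theorem wNS_mulg (g : Fin n × Fin (j + 1) → ℂ) (b : Fin (j + 1) → ℂ) (y : Fin n × Fin j) :
    mulg g (wNS_K b) y = g (y.1, y.2.castSucc) * b (Fin.last j) -
      g (y.1, Fin.last j) * b y.2.castSucc := by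
  unfold mulg wNS_K
  rw [Fin.sum_univ_castSucc]
  simp
  ring

theorem wNS_sub_eq_zero {b : Fin (j + 1) → ℂ} (hb : b (Fin.last j) ≠ 0)
    (φ : MvPolynomial (Fin (j + 1)) ℂ) : sub (wNS_K b) φ = 0 ↔ lf b ∣ φ := by
  have hb0 : b ≠ 0 := fun h => hb (by rw [h]; rfl)
  rw [sub_eq_zero_iff, wNS_range hb, lf_dvd_iff hb0]
  rfl

theorem wNS_sub_lf (b : Fin (j + 1) → ℂ) (c : Fin j → ℂ) :
    sub (wNS_K b) (lf (Fin.snoc c 0 : Fin (j + 1) → ℂ)) = C (b (Fin.last j)) * lf c := by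
  apply MvPolynomial.funext
  intro y
  rw [eval_sub, map_mul, eval_C, eval_lf, eval_lf, Fin.sum_univ_castSucc, Finset.mul_sum]
  simp_rw [wNS_mv_castSucc, Fin.snoc_castSucc]
  rw [Fin.snoc_last, zero_mul, add_zero]
  exact Finset.sum_congr rfl fun i _ => by ring

theorem wNS_pr (V : Submodule ℂ (MvPolynomial (Fin n) ℂ)) [FiniteDimensional ℂ V] {j : ℕ}
    (hj : 2 ≤ j) (hjn : j + 1 ≤ n) (h : ¬ N2 V (j + 1)) : ¬ St V j := by
  classical
  intro hSt
  have hGN := wGN V (j := j + 1) (by omega) h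
  let F : (Fin n × Fin j) ⊕ (Fin j ⊕ Fin j) →
      MvPolynomial ((Fin n × Fin (j + 1)) ⊕ (Fin (j + 1) ⊕ (Fin j ⊕ Fin j))) ℂ :=
    Sum.elim (fun y => X (Sum.inl (y.1, y.2.castSucc)) * X (Sum.inr (Sum.inl (Fin.last j))) -
        X (Sum.inl (y.1, Fin.last j)) * X (Sum.inr (Sum.inl y.2.castSucc)))
      (Sum.elim (fun i => X (Sum.inr (Sum.inr (Sum.inl i))))
        (fun i => X (Sum.inr (Sum.inr (Sum.inr i)))))
  have hF := (hSt.and (gen_ne_zero_pair (j := j) (by omega)).snd).pull F (by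
    intro x
    refine ⟨Sum.elim (fun y => (Fin.snoc (fun l : Fin j => x (Sum.inl (y.1, l))) 0 :
      Fin (j + 1) → ℂ) y.2) (Sum.elim (Fin.snoc (fun _ => 0) 1 : Fin (j + 1) → ℂ)
        (x ∘ Sum.inr)), ?_⟩
    rintro (⟨i, l⟩ | i | i) <;> simp [F])
  obtain ⟨g, hg1, hg2⟩ := (hGN.pair.and hF.pair).exists
  have hY := wY (n := j + 1) (by omega) (V.map (sub g).toLinearMap) (by
    intro hc
    obtain ⟨b, ⟨v, hv, hv0, hd⟩, hb⟩ := (hg1.and hc).exists
    rw [Sum.elim_comp_inl] at hv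
    rw [Sum.elim_comp_inr] at hd
    exact hv0 (hb v hv hd))
  have hlast : Gen (fun b : Fin (j + 1) → ℂ => b (Fin.last j) ≠ 0) :=
    ⟨X (Fin.last j), X_ne_zero _, fun x hx => by rwa [eval_X] at hx⟩
  obtain ⟨b, ⟨⟨φ, hφ, -, hφ2, -⟩, hb⟩, hab⟩ := ((hY.and hlast).and hg2.pair).exists
  obtain ⟨x, hx, hx0⟩ := hab.exists
  have e1 : (fun i => eval (Sum.elim g (Sum.elim b x)) (F i)) =
      Sum.elim (mulg g (wNS_K b)) x := by
    funext i
    rcases i with y | i | i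
    · rw [Sum.elim_inl, wNS_mulg]
      simp [F]
    · simp [F]
    · simp [F]
  rw [e1] at hx hx0
  rw [Sum.elim_comp_inl] at hx
  obtain ⟨ha0, hc0⟩ := hx0
  set a : Fin j → ℂ := fun i => x (Sum.inl i) with ha
  set c : Fin j → ℂ := fun i => x (Sum.inr i) with hc
  have hx' : StP V (mulg g (wNS_K b)) a c := hx
  rw [stP_iff] at hx'
  obtain ⟨v, hv, hdv⟩ := hφ2 (Fin.snoc a 0) (Fin.snoc c 0)
  obtain ⟨v₀, hv₀, rfl⟩ := hv
  have h1 : sub (mulg g (wNS_K b)) v₀ =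
      C (b (Fin.last j)) * lf a * (C (b (Fin.last j)) * lf c) * sub (wNS_K b) φ := by
    have h2 := (wNS_sub_eq_zero hb _).mpr hdv
    rw [map_sub, map_mul, map_mul, wNS_sub_lf, wNS_sub_lf, sub_eq_zero] at h2
    rw [← h2]
    exact AlgHom.congr_fun (sub_mulg g (wNS_K b)) v₀
  have h3 : sub (wNS_K b) φ ≠ 0 := fun h => hφ ((wNS_sub_eq_zero hb φ).mp h)
  have ha1 : a ≠ 0 := ha0
  have hc1 : c ≠ 0 := hc0
  have h4 : sub (mulg g (wNS_K b)) v₀ ≠ 0 := by
    rw [h1]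
    refine mul_ne_zero (mul_ne_zero (mul_ne_zero ?_ (lf_ne_zero ha1))
      (mul_ne_zero ?_ (lf_ne_zero hc1))) h3
    · rwa [Ne, C_eq_zero]
    · rwa [Ne, C_eq_zero]
  apply h4
  rw [← Submodule.mem_bot ℂ, ← hx']
  refine ⟨⟨v₀, hv₀, rfl⟩, ?_⟩
  rintro z (hz | hz)
  · rw [SetLike.mem_coe, mem_kr, ← eval_lf] at hz
    rw [h1]
    simp only [map_mul, hz]
    ring
  · rw [SetLike.mem_coe, mem_kr, ← eval_lf] at hz
    rw [h1]
    simp only [map_mul, hz]
    ring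

end Pool.Agent.Lib_helper97.Ebe
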