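import Pool.Agent.Lib_helper97.Ebe.XDefs

/-!
# Block P: positive and negative parts
-/

namespace Pool.Agent.Lib_helper97.Ebe

open MvPolynomial Module Pool.Agent.Lib_helper26.Ebe Pool.Agent.Lib_helper26.SOS

variable {n m D ρ : ℕ} {p : Fin m → MvPolynomial (Fin n) ℂ}
    {A : MvPolynomial (Fin n ⊕ Fin n) ℂ} {V : Submodule ℂ (MvPolynomial (Fin n) ℂ)}
    {f : Fin ρ → MvPolynomial (Fin n) ℂ} {ε : Fin ρ → ℝ}

theorem wP_identity (s : Setting n m D ρ p A V f ε) :
    ∑ i, rename Sum.inl (p i) * rename Sum.inr (cj (p i)) +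
      ∑ x : {x : Fin n × Fin ρ // ε x.2 = -1},
        rename Sum.inl (X x.1.1 * f x.1.2) *
          rename (Sum.inr : Fin n → Fin n ⊕ Fin n) (cj (X x.1.1 * f x.1.2)) =
      ∑ x : {x : Fin n × Fin ρ // ε x.2 = 1},
        rename Sum.inl (X x.1.1 * f x.1.2) *
          rename (Sum.inr : Fin n → Fin n ⊕ Fin n) (cj (X x.1.1 * f x.1.2)) := by
  classical
  have h := s.hA
  rw [s.hAe] at h
  unfold dg at h
  rw [q_mul_diag] at h
  have hsplit := Fintype.sum_subtype_add_sum_subtype (fun x : Fin n × Fin ρ => ε x.2 = 1)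
    (fun x => C (ε x.2 : ℂ) * (rename Sum.inl (X x.1 * f x.2) *
        rename (Sum.inr : Fin n → Fin n ⊕ Fin n) (cj (X x.1 * f x.2))))
  rw [← hsplit] at h
  have e1 : ∀ x : {x : Fin n × Fin ρ // ε x.2 = 1},
      C (ε x.1.2 : ℂ) * (rename Sum.inl (X x.1.1 * f x.1.2) *
      rename Sum.inr (cj (X x.1.1 * f x.1.2))) = rename Sum.inl (X x.1.1 * f x.1.2) *
      rename (Sum.inr : Fin n → Fin n ⊕ Fin n) (cj (X x.1.1 * f x.1.2)) := by
    intro x
    rw [x.2, Complex.ofReal_one, C_1, one_mul]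
  have e2 : ∀ x : {x : Fin n × Fin ρ // ¬ ε x.2 = 1},
      C (ε x.1.2 : ℂ) * (rename Sum.inl (X x.1.1 * f x.1.2) *
      rename Sum.inr (cj (X x.1.1 * f x.1.2))) = - (rename Sum.inl (X x.1.1 * f x.1.2) *
      rename (Sum.inr : Fin n → Fin n ⊕ Fin n) (cj (X x.1.1 * f x.1.2))) := by
    intro x
    rw [(s.hε x.1.2).resolve_left x.2, Complex.ofReal_neg, Complex.ofReal_one, C_neg, C_1,
      neg_one_mul]
  rw [Finset.sum_congr rfl fun x _ => e1 x, Finset.sum_congr rfl fun x _ => e2 x,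
    Finset.sum_neg_distrib] at h
  have hiff : ∀ k, ε k = -1 ↔ ¬ ε k = 1 := by
    intro k
    constructor
    · intro h1 h2
      rw [h1] at h2
      norm_num at h2
    · intro h1
      exact (s.hε k).resolve_left h1
  have e3 : ∑ x : {x : Fin n × Fin ρ // ε x.2 = -1},
        rename Sum.inl (X x.1.1 * f x.1.2) *
          rename (Sum.inr : Fin n → Fin n ⊕ Fin n) (cj (X x.1.1 * f x.1.2)) =
      ∑ x : {x : Fin n × Fin ρ // ¬ ε x.2 = 1},
        rename Sum.inl (X x.1.1 * f x.1.2) *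
          rename (Sum.inr : Fin n → Fin n ⊕ Fin n) (cj (X x.1.1 * f x.1.2)) :=
    Fintype.sum_equiv (Equiv.subtypeEquivRight fun x : Fin n × Fin ρ => hiff x.2) _ _
      fun x => rfl
  rw [e3, h]
  ring

theorem wP_S1 (f : Fin ρ → MvPolynomial (Fin n) ℂ) (ε : Fin ρ → ℝ) (c : ℝ) :
    S1 (Submodule.span ℂ (f '' {k | ε k = c})) =
      Submodule.span ℂ (Set.range (fun x : {x : Fin n × Fin ρ // ε x.2 = c} =>
        X x.1.1 * f x.1.2)) := by
  rw [S1_span]
  congr 1
  ext g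
  constructor
  · rintro ⟨i, _, ⟨k, hk, rfl⟩, rfl⟩
    exact ⟨⟨(i, k), hk⟩, rfl⟩
  · rintro ⟨⟨⟨i, k⟩, hk⟩, rfl⟩
    exact ⟨i, f k, ⟨k, hk, rfl⟩, rfl⟩

theorem wP0_pr (s : Setting n m D ρ p A V f ε) :
    S1 (Submodule.span ℂ (f '' {k | ε k = -1})) ≤ S1 (Submodule.span ℂ (f '' {k | ε k = 1})) := by
  classical
  rw [wP_S1, wP_S1]
  refine psd_range _ p _ ?_
  rw [add_comm, wP_identity s]

theorem wP0eq_pr (s : Setting n m D ρ p A V f ε) :
    V ⊔ S1 (Submodule.span ℂ (f '' {k | ε k = -1})) =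
      S1 (Submodule.span ℂ (f '' {k | ε k = 1})) := by
  classical
  apply le_antisymm
  · refine sup_le ?_ (wP0_pr s)
    rw [s.hV, wP_S1]
    exact psd_range p _ _ (wP_identity s)
  · rw [s.hV, wP_S1, wP_S1, ← Submodule.span_union, ← Set.Sum.elim_range]
    refine psd_range (κ := Empty) _ (fun x => x.elim) _ ?_
    rw [Finset.univ_eq_empty (α := Empty), Finset.sum_empty, add_zero, ← wP_identity s,
      Fintype.sum_sum_type]
    rfl

theorem wP_span_sup (s : Setting n m D ρ p A V f ε) :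
    Yf f = Submodule.span ℂ (f '' {k | ε k = 1}) ⊔ Submodule.span ℂ (f '' {k | ε k = -1}) := by
  unfold Yf
  rw [← Submodule.span_union, ← Set.image_union]
  congr 1
  rw [← Set.image_univ]
  congr 1
  ext k
  exact ⟨fun _ => s.hε k, fun _ => trivial⟩

theorem wP_S1_eq (s : Setting n m D ρ p A V f ε) :
    S1 (Yf f) = S1 (Submodule.span ℂ (f '' {k | ε k = 1})) := by
  rw [wP_span_sup s, S1_sup]
  exact sup_eq_left.mpr (wP0_pr s)

theorem wP_card (s : Setting n m D ρ p A V f ε) :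
    Nat.card {k // ε k = 1} + beta ε = ρ := by
  classical
  unfold beta
  rw [Nat.card_eq_fintype_card, Nat.card_eq_fintype_card]
  have hiff : ∀ k, ε k = -1 ↔ ¬ ε k = 1 := by
    intro k
    constructor
    · intro h1 h2
      rw [h1] at h2
      norm_num at h2
    · intro h1
      exact (s.hε k).resolve_left h1
  rw [Fintype.card_congr (Equiv.subtypeEquivRight fun k => hiff k)]
  have h := Fintype.card_subtype_compl (fun k => ε k = 1)
  have h2 := Fintype.card_subtype_le (fun k => ε k = 1)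
  rw [Fintype.card_fin] at h h2
  omega

theorem wP_finrank (s : Setting n m D ρ p A V f ε) (c : ℝ) :
    finrank ℂ (Submodule.span ℂ (f '' {k | ε k = c})) = Nat.card {k // ε k = c} := by
  classical
  have h1 : Submodule.span ℂ (f '' {k | ε k = c}) =
      Submodule.span ℂ (Set.range (fun k : {k // ε k = c} => f k)) := by
    congr 1
    ext g
    constructor
    · rintro ⟨k, hk, rfl⟩
      exact ⟨⟨k, hk⟩, rfl⟩
    · rintro ⟨⟨k, hk⟩, rfl⟩
      exact ⟨k, hk, rfl⟩
  have h2 : LinearIndependent ℂ (fun k : {k // ε k = c} => f k) :=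
    s.hf.comp _ Subtype.val_injective
  rw [h1, finrank_span_eq_card h2, Nat.card_eq_fintype_card]

theorem wP_fd (f : Fin ρ → MvPolynomial (Fin n) ℂ) (ε : Fin ρ → ℝ) (c : ℝ) :
    FiniteDimensional ℂ (Submodule.span ℂ (f '' {k | ε k = c})) :=
  FiniteDimensional.span_of_finite ℂ ((Set.toFinite _).image _)

theorem wP1_pr (s : Setting n m D ρ p A V f ε) :
    finrank ℂ (S1 (Yf f)) + n * beta ε ≤ n * ρ := by
  have := wP_fd f ε 1
  rw [wP_S1_eq s]
  have h1 := S1_upper (Submodule.span ℂ (f '' {k | ε k = 1}))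
  rw [wP_finrank s] at h1
  have h2 := wP_card s
  calc finrank ℂ (S1 (Submodule.span ℂ (f '' {k | ε k = 1}))) + n * beta ε
      ≤ n * Nat.card {k // ε k = 1} + n * beta ε := by omega
    _ = n * ρ := by rw [← Nat.mul_add, h2]

theorem wP2_pr (s : Setting n m D ρ p A V f ε) :
    finrank ℂ (S1 (Yf f)) ≤ m + n * beta ε := by
  have := wP_fd f ε (-1)
  have hfd := s.fd
  rw [wP_S1_eq s, ← wP0eq_pr s]
  have h1 := S1_upper (Submodule.span ℂ (f '' {k | ε k = -1}))
  rw [wP_finrank s] at h1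
  have h2 := Submodule.finrank_add_le_finrank_add_finrank V
    (S1 (Submodule.span ℂ (f '' {k | ε k = -1})))
  rw [s.finrank_V] at h2
  unfold beta
  omega

end Pool.Agent.Lib_helper97.Ebe
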